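import Pool.Agent.R187.WC.Gd
import Pool.Agent.W418.Hyp1

/-! The evaluation of the Veronese subring of the coordinate ring of a weighted hypersurface in the
function field. -/

set_option autoImplicit false
set_option linter.unusedSectionVars false
set_option linter.unusedVariables false
set_option linter.style.haveILetI false

open MvPolynomial
open scoped Pointwise

namespace Pool.Agent.R187.WC

/-- The cone over a point of the function field. -/
theorem exists_coneW {K F : Type} [Field K] [Field F] [Algebra K F] {n : ℕ} (e : ℕ)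
    (x : Option (Fin (n + 1)) → F) (hx0 : x (some 0) = 1)
    (hgen : IntermediateField.adjoin K (Set.range x) = ⊤)
    (b : Fin n → F) (htb : IsTranscendenceBasis K b) :
    ∃ j₀, AlgebraicIndependent K (fun j : {j : Option (Fin (n + 1)) // j ≠ j₀} =>
      algebraMap (Polynomial F) (FractionRing (Polynomial F))
        (Polynomial.C (x j) * Polynomial.X ^ wt e (j : Option (Fin (n + 1))))) := by
  classical
  let F' := FractionRing (Polynomial F)
  have halg : Algebra.IsAlgebraic (Polynomial F) F' := by
    constructor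
    intro z
    obtain ⟨p, q, hq, rfl⟩ := IsFractionRing.div_surjective (A := Polynomial F) z
    exact (isAlgebraic_algebraMap p).mul (isAlgebraic_algebraMap q).inv
  have h1 : IsTranscendenceBasis F (fun _ : Fin 1 => (Polynomial.X : Polynomial F)) :=
    IsTranscendenceBasis.polynomial _ _
  have h2 : IsTranscendenceBasis F (algebraMap (Polynomial F) F' ∘
      (fun _ : Fin 1 => (Polynomial.X : Polynomial F))) := h1.algebraMap_comp
  have h3 := htb.sumElim_comp h2
  have h4 := h3.comp_equiv (finSumFinEquiv (m := 1) (n := n)).symm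
  have h5 := h4.comp_equiv (finCongr (Nat.add_comm n 1))
  refine Pool.Agent.H918R2.Quad.exists_omit _ h5 (ρ := Option (Fin (n + 1))) (by simp)
    (fun j => algebraMap (Polynomial F) F'
      (Polynomial.C (x j) * Polynomial.X ^ wt e (j : Option (Fin (n + 1))))) ?_
  set w : Option (Fin (n + 1)) → F' :=
    fun j => algebraMap (Polynomial F) F' (Polynomial.C (x j) * Polynomial.X ^ wt e j) with hw
  set L := IntermediateField.adjoin K (Set.range w) with hL
  have hwL : ∀ j, w j ∈ L := fun j => IntermediateField.subset_adjoin K _ ⟨j, rfl⟩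
  have hX0 : algebraMap (Polynomial F) F' Polynomial.X ≠ 0 := by
    intro h
    exact Polynomial.X_ne_zero (IsFractionRing.injective (Polynomial F) F' (by rw [h, map_zero]))
  have hXL : algebraMap (Polynomial F) F' Polynomial.X ∈ L := by
    have := hwL (some 0)
    rw [hw] at this
    simpa [hx0, wt_some] using this
  have hxL : ∀ j, algebraMap F F' (x j) ∈ L := by
    intro j
    have h6 : algebraMap F F' (x j) =
        w j / (algebraMap (Polynomial F) F' Polynomial.X) ^ wt e j := by
      rw [eq_div_iff (pow_ne_zero _ hX0), hw]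
      simp only [map_mul, map_pow]
      rfl
    rw [h6]
    exact L.div_mem (hwL j) (pow_mem hXL _)
  have hFL : ∀ y : F, algebraMap F F' y ∈ L := by
    intro y
    have hy : y ∈ IntermediateField.adjoin K (Set.range x) := by rw [hgen]; trivial
    have h7 : IntermediateField.adjoin K (Set.range x) ≤
        L.comap (IsScalarTower.toAlgHom K F F') := by
      rw [IntermediateField.adjoin_le_iff]
      rintro _ ⟨j, rfl⟩
      exact hxL j
    exact h7 hy
  have hPL : ∀ p : Polynomial F, algebraMap (Polynomial F) F' p ∈ L := by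
    intro p
    induction p using Polynomial.induction_on' with
    | add p q hp hq => rw [map_add]; exact L.add_mem hp hq
    | monomial n a =>
      rw [← Polynomial.C_mul_X_pow_eq_monomial, map_mul, map_pow]
      exact L.mul_mem (hFL a) (pow_mem hXL n)
  rw [eq_top_iff]
  rintro z -
  obtain ⟨p, q, _, rfl⟩ := IsFractionRing.div_surjective (A := Polynomial F) z
  exact L.div_mem (hPL p) (hPL q)

theorem hyp_dvdW {K F : Type} [Field K] [Field F] [Algebra K F] {n : ℕ} (e : ℕ)
    (x : Option (Fin (n + 1)) → F) (hx0 : x (some 0) = 1)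
    (hgen : IntermediateField.adjoin K (Set.range x) = ⊤)
    (b : Fin n → F) (htb : IsTranscendenceBasis K b)
    (P : MvPolynomial (Option (Fin (n + 1))) K) (hP : Prime P) (N : ℕ)
    (hPN : P.IsWeightedHomogeneous (wt e) N)
    (hPx : aeval x P = 0) (d : ℕ) (Q : MvPolynomial (Option (Fin (n + 1))) K)
    (hQd : Q.IsWeightedHomogeneous (wt e) d)
    (hQ : aeval x Q = 0) : P ∣ Q := by
  obtain ⟨j₀, hind⟩ := exists_coneW e x hx0 hgen b htb
  let F' := FractionRing (Polynomial F)
  let T : F' := algebraMap (Polynomial F) F' Polynomial.X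
  have hw : ∀ j : Option (Fin (n + 1)), algebraMap (Polynomial F) (FractionRing (Polynomial F))
      (Polynomial.C (x j) * Polynomial.X ^ wt e j) = algebraMap F F' (x j) * T ^ wt e j := by
    intro j
    rw [map_mul, map_pow]
    rfl
  have hsc : ∀ (M : ℕ) (R : MvPolynomial (Option (Fin (n + 1))) K),
      R.IsWeightedHomogeneous (wt e) M → aeval x R = 0 →
      aeval (fun j => algebraMap F F' (x j) * T ^ wt e j) R = 0 := by
    intro M R hR h0
    have h1 : aeval (fun j => algebraMap F F' (x j)) R = algebraMap F F' (aeval x R) :=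
      MvPolynomial.aeval_algebraMap_apply F' x R
    rw [aeval_scaleW e (fun j => algebraMap F F' (x j)) T M R hR, h1, h0, map_zero, zero_mul]
  refine Pool.Agent.W418.ker_dvd P hP (fun j => algebraMap F F' (x j) * T ^ wt e j)
    (hsc N P hPN hPx) j₀ ?_ Q (hsc d Q hQd hQ)
  have h2 : (fun j : {j : Option (Fin (n + 1)) // j ≠ j₀} =>
      algebraMap F F' (x j) * T ^ wt e (j : Option (Fin (n + 1)))) =
    (fun j : {j : Option (Fin (n + 1)) // j ≠ j₀} =>
    algebraMap (Polynomial F) (FractionRing (Polynomial F))
      (Polynomial.C (x j) * Polynomial.X ^ wt e (j : Option (Fin (n + 1))))) := by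
    funext j
    exact (hw j).symm
  rw [h2]
  exact hind

/-- The values of the weighted homogeneous polynomials of degree `d e`. -/
theorem map_whom {K F : Type} [Field K] [Field F] [Algebra K F] {n : ℕ} (e : ℕ) (he : 1 ≤ e)
    (x : Option (Fin (n + 1)) → F) (d : ℕ) :
    (weightedHomogeneousSubmodule K (wt (ι := Fin (n + 1)) e) (d * e)).map
      (aeval x : MvPolynomial (Option (Fin (n + 1))) K →ₐ[K] F).toLinearMap =
      Submodule.span K (Set.range (zz e x)) ^ d := by
  classical
  rw [Submodule.span_pow]
  apply le_antisymm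
  · rintro _ ⟨Q, hQ, rfl⟩
    change aeval x Q ∈ _
    have hQ' : Q.IsWeightedHomogeneous (wt e) (d * e) := hQ
    rw [aeval_def, eval₂_eq']
    refine Submodule.sum_mem _ fun s hs => ?_
    rw [← Algebra.smul_def]
    refine Submodule.smul_mem _ _ (Submodule.subset_span ?_)
    have hw : s none * e + ∑ j, s (some j) = d * e := by
      rw [← weight_eq]
      by_contra hne
      exact (mem_support_iff.1 hs) (hQ'.coeff_eq_zero s hne)
    have ha : s none ≤ d := by
      by_contra hcon
      push Not at hcon
      have h1 : (d + 1) * e ≤ s none * e := Nat.mul_le_mul_right e hcon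
      rw [add_mul, one_mul] at h1
      omega
    obtain ⟨c, hc⟩ := Nat.exists_eq_add_of_le ha
    have hsum : ∑ j, s (some j) = e * c := by
      have h1 : d * e = s none * e + e * c := by rw [hc]; ring
      omega
    rw [Fintype.prod_option, hc, pow_add]
    refine Set.mul_mem_mul (Set.pow_mem_pow ⟨.inr (), rfl⟩) ?_
    have h2 := prod_mem_range_pow (fun j => x (some j)) (fun j => s (some j)) Finset.univ
    rw [hsum] at h2
    exact sub_zz e c x h2
  · rw [Submodule.span_le]
    intro g hg
    obtain ⟨ψ, rfl⟩ := (Pool.Agent.H945R2.D.GD1aux.mem_range_pow _ d g).1 hg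
    refine ⟨∏ i, zz e (X : Option (Fin (n + 1)) → MvPolynomial (Option (Fin (n + 1))) K) (ψ i),
      ?_, ?_⟩
    · have h1 : (∏ i, zz e (X : Option (Fin (n + 1)) →
          MvPolynomial (Option (Fin (n + 1))) K) (ψ i)).IsWeightedHomogeneous (wt e)
          (∑ i : Fin d, e) := by
        refine IsWeightedHomogeneous.prod _ _ _ fun i _ => ?_
        rcases ψ i with φ | u
        · have h2 : (∏ k, X (some (φ k)) :
              MvPolynomial (Option (Fin (n + 1))) K).IsWeightedHomogeneous (wt e)
              (∑ k : Fin e, 1) := by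
            refine IsWeightedHomogeneous.prod _ _ _ fun k _ => ?_
            exact isWeightedHomogeneous_X K (wt e) (some (φ k))
          rw [Finset.sum_const, Finset.card_univ, Fintype.card_fin, smul_eq_mul, mul_one] at h2
          exact h2
        · exact isWeightedHomogeneous_X K (wt e) none
      rw [Finset.sum_const, Finset.card_univ, Fintype.card_fin, smul_eq_mul] at h1
      exact h1
    · change aeval x (∏ i, zz e X (ψ i)) = _
      rw [map_prod]
      refine Finset.prod_congr rfl fun i _ => ?_
      rcases ψ i with φ | u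
      · simp [zz]
      · simp [zz]

/-- The evaluation of the Veronese ring. -/
theorem exists_epsW {K F : Type} [Field K] [Field F] [Algebra K F] {n : ℕ} (e : ℕ) (he : 1 ≤ e)
    (x : Option (Fin (n + 1)) → F) (hx0 : x (some 0) = 1)
    (hgen : IntermediateField.adjoin K (Set.range x) = ⊤)
    (b : Fin n → F) (htb : IsTranscendenceBasis K b)
    (P : MvPolynomial (Option (Fin (n + 1))) K) (hP : Prime P) (N : ℕ)
    (hPN : P.IsWeightedHomogeneous (wt e) N) (hPx : aeval x P = 0)
    {B : Type} [CommRing B] [Algebra K B]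
    (j : B →ₐ[K] (MvPolynomial (Option (Fin (n + 1))) K ⧸ Ideal.span {P}))
    (hj : Function.Injective j) (ℬ : ℕ → Submodule K B)
    (hℬ : ∀ d, (ℬ d).map j.toLinearMap =
      (weightedHomogeneousSubmodule K (wt (ι := Fin (n + 1)) e) (d * e)).map
        (Ideal.Quotient.mkₐ K (Ideal.span {P})).toLinearMap) :
    ∃ ε : B →ₐ[K] F, (∀ d, ∀ a ∈ ℬ d, ε a = 0 → a = 0) ∧
      (∀ d, (ℬ d).map ε.toLinearMap = ((ℬ 1).map ε.toLinearMap) ^ d) ∧
      (ℬ 1).map ε.toLinearMap = Submodule.span K (Set.range (zz e x)) := by
  let ψ : (MvPolynomial (Option (Fin (n + 1))) K ⧸ Ideal.span {P}) →ₐ[K] F :=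
    Ideal.Quotient.liftₐ (Ideal.span {P}) (aeval x) (by
      intro a ha
      obtain ⟨c, rfl⟩ := Ideal.mem_span_singleton.1 ha
      rw [map_mul, hPx, zero_mul])
  have hψ : ∀ Q, ψ (Ideal.Quotient.mkₐ K (Ideal.span {P}) Q) = aeval x Q := fun Q => rfl
  have hmap : ∀ d, (ℬ d).map (ψ.comp j).toLinearMap = Submodule.span K (Set.range (zz e x)) ^ d := by
    intro d
    rw [← map_whom e he x d]
    have h1 : (ψ.comp j).toLinearMap = ψ.toLinearMap ∘ₗ j.toLinearMap := rfl
    rw [h1, Submodule.map_comp, hℬ, ← Submodule.map_comp]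
    rfl
  refine ⟨ψ.comp j, ?_, ?_, ?_⟩
  · intro d a ha hεa
    have h1 : j a ∈ (ℬ d).map j.toLinearMap := ⟨a, ha, rfl⟩
    rw [hℬ] at h1
    obtain ⟨Q, hQ, hQa⟩ := h1
    have h2 : aeval x Q = 0 := by
      rw [← hψ]
      have h3 : Ideal.Quotient.mkₐ K (Ideal.span {P}) Q = j a := hQa
      rw [h3]
      exact hεa
    have h3 := hyp_dvdW e x hx0 hgen b htb P hP N hPN hPx (d * e) Q hQ h2
    apply hj
    rw [map_zero]
    have h4 : Ideal.Quotient.mkₐ K (Ideal.span {P}) Q = j a := hQa
    rw [← h4]
    exact Ideal.Quotient.eq_zero_iff_mem.2 (Ideal.mem_span_singleton.2 h3)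
  · intro d
    rw [hmap, hmap, pow_one]
  · rw [hmap, pow_one]

end Pool.Agent.R187.WC
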