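import Pool.Agent.R187.WC.Irr

/-! The function fields of weighted hypersurfaces. -/

set_option autoImplicit false
set_option linter.unusedSectionVars false
set_option linter.unusedVariables false

namespace Pool.Agent.R187.WC

open MvPolynomial Cardinal Pool.Agent.TH214.RM

theorem trdeg_lt {K F : Type} [Field K] [Field F] [Algebra K F] {n : ℕ} (e N : ℕ)
    (P : MvPolynomial (Option (Fin (n + 1))) K) (hP0 : P ≠ 0)
    (hPd : P.IsWeightedHomogeneous (wt e) N)
    (x : Option (Fin (n + 1)) → F) (hx0 : x (some 0) = 1) (hxG : aeval x P = 0)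
    (hgen : IntermediateField.adjoin K (Set.range x) = ⊤) :
    Algebra.trdeg K F < ((n + 1 : ℕ) : Cardinal.{0}) := by
  classical
  by_contra hcon
  push Not at hcon
  let y : Option {i : Fin (n + 1) // i ≠ 0} → F := fun i => x (i.map Subtype.val)
  have hy : IntermediateField.adjoin K (Set.range y) = ⊤ := by
    rw [eq_top_iff, ← hgen, IntermediateField.adjoin_le_iff]
    rintro _ ⟨i, rfl⟩
    rcases i with _ | i
    · exact IntermediateField.subset_adjoin K _ ⟨none, rfl⟩
    · by_cases hi : i = 0
      · rw [hi, hx0]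
        exact one_mem _
      · exact IntermediateField.subset_adjoin K _ ⟨some ⟨i, hi⟩, rfl⟩
  have halg := Pool.Agent.H918R2.Quad.isAlgebraic_of_adjoin_eq_top (Set.range y) hy
  have hcard : #(Option {i : Fin (n + 1) // i ≠ 0}) = ((n + 1 : ℕ) : Cardinal.{0}) := by
    rw [Cardinal.mk_fintype, Fintype.card_option, Fintype.card_subtype_compl,
      Fintype.card_subtype_eq, Fintype.card_fin]
    rfl
  have hb := Algebra.IsAlgebraic.isTranscendenceBasis_of_le_trdeg_of_finite K y (by
    rw [hcard]
    exact hcon)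
  have h3 : aeval y (dehW 0 P) = 0 := by
    have h4 := aeval_dehW (0 : Fin (n + 1)) x hx0 P
    rw [hxG] at h4
    exact h4
  exact dehW_ne_zero e 0 P hP0 _ hPd (hb.1.eq_zero_of_aeval_eq_zero _ h3)

theorem trdeg_le_one {F Ω : Type} [Field F] [Field Ω] [Algebra F Ω] (w : Ω)
    (htop : IntermediateField.adjoin F ({w} : Set Ω) = ⊤) : Algebra.trdeg F Ω ≤ 1 := by
  have halg := Pool.Agent.H918R2.Quad.isAlgebraic_of_adjoin_eq_top ({w} : Set Ω) htop
  have h1 := Algebra.IsAlgebraic.trdeg_le_cardinalMk F ({w} : Set Ω)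
  simpa using h1

theorem trdeg_eq {K F Ω : Type} [Field K] [Field F] [Field Ω] [Algebra K F] [Algebra K Ω]
    [Algebra F Ω] [IsScalarTower K F Ω] (n : ℕ)
    (h1 : ((n + 1 : ℕ) : Cardinal.{0}) ≤ Algebra.trdeg K Ω)
    (h2 : Algebra.trdeg K F < ((n + 1 : ℕ) : Cardinal.{0})) (h3 : Algebra.trdeg F Ω ≤ 1) :
    Algebra.trdeg K F = (n : Cardinal.{0}) := by
  have hadd : Algebra.trdeg K F + Algebra.trdeg F Ω = Algebra.trdeg K Ω := trdeg_add_eq K F
  obtain ⟨m, hm⟩ := Cardinal.lt_aleph0.1 (h2.trans (Cardinal.natCast_lt_aleph0))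
  rw [hm] at h2 hadd ⊢
  have h4 : m < n + 1 := by exact_mod_cast h2
  have h5 : ((n + 1 : ℕ) : Cardinal.{0}) ≤ ((m + 1 : ℕ) : Cardinal.{0}) := by
    calc ((n + 1 : ℕ) : Cardinal.{0}) ≤ Algebra.trdeg K Ω := h1
      _ = (m : Cardinal.{0}) + Algebra.trdeg F Ω := hadd.symm
      _ ≤ (m : Cardinal.{0}) + 1 := by gcongr
      _ = ((m + 1 : ℕ) : Cardinal.{0}) := by push_cast; rfl
  have h6 : n + 1 ≤ m + 1 := by exact_mod_cast h5
  have h7 : m = n := by omega
  rw [h7]

theorem ff_abs {K Ω : Type} [Field K] [Field Ω] [Algebra K Ω] {n : ℕ} (e N : ℕ)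
    (P : MvPolynomial (Option (Fin (n + 1))) K) (hP0 : P ≠ 0)
    (hPd : P.IsWeightedHomogeneous (wt e) N)
    (w : Option (Fin (n + 1)) → Ω) (htopΩ : IntermediateField.adjoin K (Set.range w) = ⊤)
    (hw0 : w (some 0) ≠ 0) (hwP : aeval w P = 0)
    (hind : AlgebraicIndependent K (fun i : {i : Option (Fin (n + 1)) // i ≠ none} => w i)) :
    ∃ (F : Type) (_ : Field F) (_ : Algebra K F) (x : Option (Fin (n + 1)) → F) (b : Fin n → F),
      x (some 0) = 1 ∧ aeval x P = 0 ∧ IntermediateField.adjoin K (Set.range x) = ⊤ ∧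
      IsTranscendenceBasis K b := by
  classical
  have htrΩ : ((n + 1 : ℕ) : Cardinal.{0}) ≤ Algebra.trdeg K Ω := by
    have h1 := hind.cardinalMk_le_trdeg
    have h2 : #{i : Option (Fin (n + 1)) // i ≠ none} = ((n + 1 : ℕ) : Cardinal.{0}) := by
      rw [Cardinal.mk_fintype, Fintype.card_subtype_compl, Fintype.card_subtype_eq,
        Fintype.card_option, Fintype.card_fin]
      rfl
    rwa [h2] at h1
  -- the function field
  obtain ⟨z, hz⟩ : ∃ z : Option (Fin (n + 1)) → Ω,
      ∀ i, z i = w i * ((w (some 0))⁻¹) ^ wt e i := ⟨_, fun _ => rfl⟩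
  obtain ⟨L, hL⟩ : ∃ L : IntermediateField K Ω, L = IntermediateField.adjoin K (Set.range z) :=
    ⟨_, rfl⟩
  have hzL : ∀ i, z i ∈ L := fun i => by
    rw [hL]
    exact IntermediateField.subset_adjoin K _ ⟨i, rfl⟩
  obtain ⟨x, hx⟩ : ∃ x : Option (Fin (n + 1)) → L, ∀ i, algebraMap L Ω (x i) = z i :=
    ⟨fun i => ⟨z i, hzL i⟩, fun _ => rfl⟩
  have hx0 : x (some 0) = 1 := by
    apply (algebraMap L Ω).injective
    rw [hx, hz, map_one, wt_some, pow_one, mul_inv_cancel₀ hw0]
  have hxG : aeval x P = 0 := by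
    apply (algebraMap L Ω).injective
    rw [map_zero, ← MvPolynomial.aeval_algebraMap_apply]
    have h1 : (algebraMap L Ω ∘ x) = fun i => w i * ((w (some 0))⁻¹) ^ wt e i := by
      funext i
      rw [Function.comp_apply, hx, hz]
    rw [h1, aeval_scaleW e w _ _ P hPd, hwP, zero_mul]
  have hgen : IntermediateField.adjoin K (Set.range x) = ⊤ := by
    have h1 : (IntermediateField.adjoin K (Set.range x)).map L.val = L := by
      rw [IntermediateField.adjoin_map, ← Set.range_comp]
      have hr : (⇑L.val ∘ x) = z := funext hx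
      rw [hr]
      exact hL.symm
    rw [eq_top_iff]
    intro a _
    have h2 : (a : Ω) ∈ (IntermediateField.adjoin K (Set.range x)).map L.val := by
      rw [h1]
      exact a.2
    obtain ⟨a', ha', h3⟩ := (IntermediateField.mem_map _).1 h2
    have h4 : a' = a := Subtype.ext h3
    rw [← h4]
    exact ha'
  have htrL := trdeg_lt e N P hP0 hPd x hx0 hxG hgen
  have htop : IntermediateField.adjoin L ({w (some 0)} : Set Ω) = ⊤ := by
    have hm : w (some 0) ∈ IntermediateField.adjoin L ({w (some 0)} : Set Ω) :=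
      IntermediateField.mem_adjoin_simple_self L _
    have hw : ∀ i, w i ∈ IntermediateField.adjoin L ({w (some 0)} : Set Ω) := by
      intro i
      have h1 : w i = algebraMap L Ω (x i) * w (some 0) ^ wt e i := by
        rw [hx, hz, mul_assoc, ← mul_pow, inv_mul_cancel₀ hw0, one_pow, mul_one]
      rw [h1]
      exact mul_mem (IntermediateField.algebraMap_mem _ _) (pow_mem hm _)
    have hle : IntermediateField.adjoin K (Set.range w) ≤
        (IntermediateField.adjoin L ({w (some 0)} : Set Ω)).restrictScalars K := by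
      rw [IntermediateField.adjoin_le_iff]
      rintro _ ⟨i, rfl⟩
      exact hw i
    rw [eq_top_iff]
    intro a _
    have ha : a ∈ IntermediateField.adjoin K (Set.range w) := by
      rw [htopΩ]
      trivial
    exact hle ha
  have htr := trdeg_eq (K := K) (F := L) (Ω := Ω) n htrΩ htrL (trdeg_le_one _ htop)
  obtain ⟨ι, b, hb⟩ := exists_isTranscendenceBasis' K L
  have hι : #ι = (n : Cardinal.{0}) := by rw [hb.cardinalMk_eq_trdeg, htr]
  have hι' : #ι = #(Fin n) := by rw [hι, Cardinal.mk_fin]
  obtain ⟨e⟩ := Cardinal.eq.1 hι'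
  exact ⟨L, inferInstance, inferInstance, x, b ∘ e.symm, hx0, hxG, hgen,
    hb.comp_equiv e.symm⟩

/-- The function field of the weighted hypersurface `P = 0`, its coordinates and a transcendence
basis. -/
theorem exists_ffW {K : Type} [Field K] {n : ℕ} (e m : ℕ) (he : 1 ≤ e) (hm : 1 ≤ m)
    (P : MvPolynomial (Option (Fin (n + 1))) K)
    (hPd : P.IsWeightedHomogeneous (wt e) (m * e)) (hc : coeff (Finsupp.single none m) P ≠ 0)
    (hP : Irreducible P) :
    ∃ (F : Type) (_ : Field F) (_ : Algebra K F) (x : Option (Fin (n + 1)) → F) (b : Fin n → F),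
      x (some 0) = 1 ∧ aeval x P = 0 ∧ IntermediateField.adjoin K (Set.range x) = ⊤ ∧
      IsTranscendenceBasis K b := by
  classical
  let I : Ideal (MvPolynomial (Option (Fin (n + 1))) K) := Ideal.span {P}
  have hI : I.IsPrime := (Ideal.span_singleton_prime hP.ne_zero).2 hP.prime
  let B := MvPolynomial (Option (Fin (n + 1))) K ⧸ I
  let Ω := FractionRing B
  let w : Option (Fin (n + 1)) → Ω := fun i => algebraMap B Ω (Ideal.Quotient.mk I (X i))
  have hinj : Function.Injective (algebraMap B Ω) := IsFractionRing.injective B Ω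
  have haw : ∀ P : MvPolynomial (Option (Fin (n + 1))) K,
      aeval w P = algebraMap B Ω (Ideal.Quotient.mk I P) := by
    intro P
    have h1 : (aeval w : MvPolynomial (Option (Fin (n + 1))) K →ₐ[K] Ω) =
        (IsScalarTower.toAlgHom K B Ω).comp (Ideal.Quotient.mkₐ K I) := by
      apply MvPolynomial.algHom_ext
      intro j
      rw [aeval_X]
      rfl
    rw [h1]
    rfl
  have haw0 : ∀ Q : MvPolynomial (Option (Fin (n + 1))) K, aeval w Q = 0 ↔ P ∣ Q := by
    intro Q
    rw [haw, map_eq_zero_iff _ hinj, Ideal.Quotient.eq_zero_iff_mem, Ideal.mem_span_singleton]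
  have hj : 0 < degreeOf none P := by
    have h1 := monomial_le_degreeOf none (mem_support_iff.2 hc)
    rw [Finsupp.single_eq_same] at h1
    omega
  have hw0 : w (some 0) ≠ 0 := by
    intro h
    refine not_dvd_of_degreeOf P (X (some 0)) none hj ?_ (X_ne_zero _) ?_
    · rw [degreeOf_X, if_neg (by simp)]
    · rw [← haw0, aeval_X, h]
  have hind : AlgebraicIndependent K (fun i : {i : Option (Fin (n + 1)) // i ≠ none} => w i) := by
    rw [algebraicIndependent_iff]
    intro Q hQ
    by_contra hQ0
    have h1 : aeval w (rename (Subtype.val : {i : Option (Fin (n + 1)) // i ≠ none} →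
        Option (Fin (n + 1))) Q) = 0 := by
      rw [aeval_rename]
      exact hQ
    rw [haw0] at h1
    refine not_dvd_of_degreeOf P _ none hj ?_ ?_ h1
    · have h2 : none ∉ (rename (Subtype.val : {i : Option (Fin (n + 1)) // i ≠ none} →
          Option (Fin (n + 1))) Q).vars := by
        intro h
        obtain ⟨i, _, hi⟩ := mem_vars_rename _ _ h
        exact i.2 hi
      by_contra h3
      apply h2
      rw [mem_vars_iff_mem_support]
      have h4 : 0 < degreeOf none (rename (Subtype.val : {i : Option (Fin (n + 1)) // i ≠ none} →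
        Option (Fin (n + 1))) Q) := Nat.pos_of_ne_zero h3
      by_contra h5
      push Not at h5
      have h6 : degreeOf none (rename (Subtype.val : {i : Option (Fin (n + 1)) // i ≠ none} →
        Option (Fin (n + 1))) Q) ≤ 0 := by
        rw [degreeOf_le_iff]
        intro m hm
        have := h5 m hm
        rw [Finsupp.notMem_support_iff] at this
        omega
      omega
    · intro h
      exact hQ0 (rename_injective _ Subtype.val_injective (by rw [h, map_zero]))
  have htopΩ : IntermediateField.adjoin K (Set.range w) = ⊤ := by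
    have hmem : ∀ Q : MvPolynomial (Option (Fin (n + 1))) K,
        aeval w Q ∈ IntermediateField.adjoin K (Set.range w) := by
      intro Q
      induction Q using MvPolynomial.induction_on with
      | C a =>
        rw [aeval_C]
        exact IntermediateField.algebraMap_mem _ _
      | add p q hp hq => rw [map_add]; exact add_mem hp hq
      | mul_X p i hp =>
        rw [map_mul, aeval_X]
        exact mul_mem hp (IntermediateField.subset_adjoin K _ ⟨i, rfl⟩)
    rw [eq_top_iff]
    intro a _
    obtain ⟨b, c, hc, rfl⟩ := IsFractionRing.div_surjective (A := B) a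
    obtain ⟨b, rfl⟩ := Ideal.Quotient.mk_surjective b
    obtain ⟨c, rfl⟩ := Ideal.Quotient.mk_surjective c
    rw [← haw, ← haw]
    exact div_mem (hmem b) (hmem c)
  exact ff_abs e (m * e) P hP.ne_zero hPd w htopΩ hw0 ((haw0 P).2 dvd_rfl) hind

end Pool.Agent.R187.WC
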