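import Pool.Agent.R187.WC.Loc
import Pool.Agent.R187.WC.FF
import Pool.Agent.R187.WC.Eps
import Pool.Agent.TH214.RM.Fin

/-! Regular models of smooth weighted hypersurfaces which are regular in suitable local
coordinates. -/

set_option autoImplicit false
set_option linter.unusedSectionVars false
set_option linter.unusedVariables false

open AlgebraicGeometry CategoryTheory CategoryTheory.Limits MvPolynomial NumberField
open scoped Pointwise

namespace Pool.Agent.R187.WC

open Pool.Agent.H918R2.Quad Pool.Agent.W418 Pool.Agent.TH214.RM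

theorem model_ZW {K : Type} [Field K] [NumberField K] {n : ℕ} (hn : 1 ≤ n) (e m : ℕ) (he : 1 ≤ e)
    (hm : 1 ≤ m) (P : MvPolynomial (Option (Fin (n + 1))) K)
    (hPd : P.IsWeightedHomogeneous (wt e) (m * e)) (hc : coeff (Finsupp.single none m) P ≠ 0)
    (hsm : SmoothW P) (hloc : LocRegW (𝓞 K) e m P) {B : Type} [CommRing B] [Algebra K B]
    (j : B →ₐ[K] (MvPolynomial (Option (Fin (n + 1))) K ⧸ Ideal.span {P}))
    (hj : Function.Injective j) (ℬ : ℕ → Submodule K B) [GradedAlgebra ℬ]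
    (hℬ : ∀ d, (ℬ d).map j.toLinearMap =
      (weightedHomogeneousSubmodule K (wt (ι := Fin (n + 1)) e) (d * e)).map
        (Ideal.Quotient.mkₐ K (Ideal.span {P})).toLinearMap)
    (Y : Scheme.{0}) (hY : Nonempty (Y ≅ Proj ℬ)) : HasRegularModel Y := by
  have hirr := irreducible_of_smoothW hn e m he hm P hPd hc hsm
  obtain ⟨F, _, _, x, b, hx0, hrel, hgen, htb⟩ := exists_ffW e m he hm P hPd hc hirr
  let _ : Algebra (𝓞 K) F := ((algebraMap K F).comp (algebraMap (𝓞 K) K)).toAlgebra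
  have hst : IsScalarTower (𝓞 K) K F := IsScalarTower.of_algebraMap_eq fun _ => rfl
  have hM : GoodModule (𝓞 K) (zz e x) :=
    goodModule_of_locRegW (K := K) he P hPd hc hsm hloc x hx0 hrel hgen b htb
  obtain ⟨ε, hε, hεgen, hε1⟩ := exists_epsW e he x hx0 hgen b htb P hirr.prime _ hPd hrel j hj ℬ hℬ
  exact hasRegularModel_of_goodModule (O := 𝓞 K) ℬ ε hε hεgen (zz e x) hε1 hM Y hY

theorem model_OW {K : Type} [Field K] [NumberField K] {n : ℕ} (hn : 1 ≤ n) (e m : ℕ) (he : 1 ≤ e)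
    (hm : 1 ≤ m) (P : MvPolynomial (Option (Fin (n + 1))) K)
    (hPd : P.IsWeightedHomogeneous (wt e) (m * e)) (hc : coeff (Finsupp.single none m) P ≠ 0)
    (hsm : SmoothW P) (hloc : LocRegW (𝓞 K) e m P) {B : Type} [CommRing B] [Algebra K B]
    (j : B →ₐ[K] (MvPolynomial (Option (Fin (n + 1))) K ⧸ Ideal.span {P}))
    (hj : Function.Injective j) (ℬ : ℕ → Submodule K B) [GradedAlgebra ℬ]
    (hℬ : ∀ d, (ℬ d).map j.toLinearMap =
      (weightedHomogeneousSubmodule K (wt (ι := Fin (n + 1)) e) (d * e)).map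
        (Ideal.Quotient.mkₐ K (Ideal.span {P})).toLinearMap)
    {Y : Scheme.{0}} (f : Y ⟶ Spec (CommRingCat.of K)) (i : Y ≅ Proj ℬ)
    (hi : i.hom ≫ GO.projStr ℬ = f) : GO.HasModel (𝓞 K) K f := by
  have hirr := irreducible_of_smoothW hn e m he hm P hPd hc hsm
  obtain ⟨F, _, _, x, b, hx0, hrel, hgen, htb⟩ := exists_ffW e m he hm P hPd hc hirr
  let _ : Algebra (𝓞 K) F := ((algebraMap K F).comp (algebraMap (𝓞 K) K)).toAlgebra
  have hst : IsScalarTower (𝓞 K) K F := IsScalarTower.of_algebraMap_eq fun _ => rfl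
  have hM : GoodModule (𝓞 K) (zz e x) :=
    goodModule_of_locRegW (K := K) he P hPd hc hsm hloc x hx0 hrel hgen b htb
  obtain ⟨ε, hε, hεgen, hε1⟩ := exists_epsW e he x hx0 hgen b htb P hirr.prime _ hPd hrel j hj ℬ hℬ
  exact hasModel_of_goodModule (O := 𝓞 K) ℬ ε hε hεgen (zz e x) hε1 hM f i hi

end Pool.Agent.R187.WC
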