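import Pool.Agent.R187.WC.Ded

/-! Monogenic extensions of number fields. -/

set_option autoImplicit false
set_option linter.unusedSectionVars false
set_option linter.unusedVariables false

open Polynomial NumberField

namespace Pool.Agent.R187.WC

variable {K L : Type} [Field K] [NumberField K] [Field L] [NumberField L] [Algebra K L]

theorem reg_minpoly (θ : 𝓞 L) (hθ : Algebra.adjoin (𝓞 K) {θ} = ⊤)
    (𝔮 : Ideal (Polynomial (𝓞 K))) (hq : 𝔮.IsPrime) (hg : minpoly (𝓞 K) θ ∈ 𝔮)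
    (h : Polynomial (𝓞 K)) (hh : h ∉ 𝔮) : h * minpoly (𝓞 K) θ ∉ 𝔮 ^ 2 := by
  have hint : IsIntegral (𝓞 K) θ := Algebra.IsIntegral.isIntegral θ
  refine reg_of_dedekind (B := 𝓞 L) (minpoly (𝓞 K) θ) (minpoly.monic hint)
    (aeval θ : Polynomial (𝓞 K) →ₐ[𝓞 K] 𝓞 L).toRingHom ?_ ?_ 𝔮 hq hg h hh
  · intro x
    have h1 : x ∈ Algebra.adjoin (𝓞 K) {θ} := by rw [hθ]; trivial
    rw [Algebra.adjoin_singleton_eq_range_aeval] at h1
    exact h1
  · ext f
    rw [RingHom.mem_ker, Ideal.mem_span_singleton]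
    exact minpoly.isIntegrallyClosed_dvd_iff hint f

theorem separable_minpoly (θ : 𝓞 L) :
    ((minpoly (𝓞 K) θ).map (algebraMap (𝓞 K) K)).Separable := by
  have hint : IsIntegral (𝓞 K) θ := Algebra.IsIntegral.isIntegral θ
  have hinj : Function.Injective (algebraMap (𝓞 L) L) := IsFractionRing.injective (𝓞 L) L
  have h1 : minpoly (𝓞 K) (algebraMap (𝓞 L) L θ) = minpoly (𝓞 K) θ :=
    minpoly.algebraMap_eq hinj θ
  have hint' : IsIntegral (𝓞 K) (algebraMap (𝓞 L) L θ) := hint.map (IsScalarTower.toAlgHom (𝓞 K) (𝓞 L) L)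
  have h2 := minpoly.isIntegrallyClosed_eq_field_fractions' K hint'
  rw [← h1, ← h2]
  exact (minpoly.irreducible (Algebra.IsIntegral.isIntegral _)).separable

end Pool.Agent.R187.WC
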