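import Pool.Agent.R187.WC.Qua
import Pool.Agent.R187.WC.Mon
import Pool.Agent.R187.WC.Fin

/-! Summary of the towers over weighted forms. -/

set_option autoImplicit false
set_option linter.unusedSectionVars false
set_option linter.unusedVariables false

open MvPolynomial NumberField

namespace Pool.Agent.R187.WC

theorem secW_map {O K : Type} [CommRing O] [CommRing K] (φ : O →+* K) {r : ℕ}
    (F : MvPolynomial (Option (Fin (r + 1))) O) (h : SecW F) : SecW (map φ F) := by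
  intro P₀ hP₀ h0 hF hp j
  have h1 := h (P₀.comap (map φ)) (Ideal.comap_isPrime _ _)
    (by rw [Ideal.mem_comap, map_X]; exact h0) hF
    (fun i hi => by
      rw [Ideal.mem_comap, ← pderiv_map]
      exact hp i hi) j
  rwa [Ideal.mem_comap, map_X] at h1

section

variable {K : Type} [Field K] [NumberField K]

theorem base_of_admW (e m : ℕ) (he : 1 ≤ e) (hm : 1 ≤ m) (hd : 3 ≤ m * e) {r : ℕ}
    (F : MvPolynomial (Option (Fin (r + 1))) (𝓞 K))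
    (hF : F.IsWeightedHomogeneous (wt e) (m * e))
    (hsm : SmoothW (map (algebraMap (𝓞 K) K) F)) (hsec : SecW F)
    (hreg : ∀ 𝔭 : Ideal (𝓞 K), 𝔭.IsPrime → 𝔭 ≠ ⊥ → CritW 𝔭 F ∧ WildW 𝔭 (m * e) F) :
    SmoothW (upW (m * e) (map (algebraMap (𝓞 K) K) F)) ∧
      ∀ 𝔭 : Ideal (𝓞 K), 𝔭.IsPrime → 𝔭 ≠ ⊥ → CritW 𝔭 (upW (m * e) F) := by
  refine ⟨smooth_suspW e _ hd _ (whom_map _ hF) hsm (secW_map _ F hsec), fun 𝔭 hp h0 => ?_⟩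
  exact crit_suspW 𝔭 e (m * e) hd (Nat.le_mul_of_pos_left e hm) F hF hsec (hreg 𝔭 hp h0).1
    (hreg 𝔭 hp h0).2

theorem data_quaW (e : ℕ) (he : 2 ≤ e) (A b : 𝓞 K) (hD : A ^ 2 - 4 * b ≠ 0)
    (hb : ∀ 𝔭 : Ideal (𝓞 K), 𝔭.IsPrime → 𝔭 ≠ ⊥ → A ^ 2 - 4 * b ∉ 𝔭 ^ 2 ∧ (2 ∈ 𝔭 → A ∉ 𝔭) ∧
      ∀ p : ℕ, p.Prime → p ∣ 2 * e - 1 → (p : 𝓞 K) ∈ 𝔭 →
        ∀ t : 𝓞 K, A ^ 2 - 4 * b - 4 * t ^ p ∉ 𝔭 ^ 2) :
    SmoothW (upW (2 * e) (map (algebraMap (𝓞 K) K) (ordW e 2 (quaP A b)))) ∧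
      ∀ 𝔭 : Ideal (𝓞 K), 𝔭.IsPrime → 𝔭 ≠ ⊥ → CritW 𝔭 (upW (2 * e) (ordW e 2 (quaP A b))) := by
  refine data_ordW e 2 (by omega) le_rfl (by omega) (quaP A b) (monic_quaP A b)
    (natDegree_quaP A b) ?_ ?_ ?_
  · rw [map_quaP]
    refine separable_quaP _ _ ?_
    intro h
    apply hD
    apply IsFractionRing.injective (𝓞 K) K
    rw [map_sub, map_pow, map_mul, map_ofNat, map_zero]
    exact h
  · exact reg_quaP A b hD fun 𝔭 hp h0 => ⟨(hb 𝔭 hp h0).1, (hb 𝔭 hp h0).2.1⟩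
  · intro p hp' hpe 𝔮 hq hpq hd a
    exact wild_quaP A b e (by omega) (fun 𝔭 hp h0 => (hb 𝔭 hp h0).2.2) p hp' hpe 𝔮 hq hpq hd a

end

end Pool.Agent.R187.WC
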