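import Pool.Agent.R187.WC.Twu
import Pool.Agent.TH214.RM.ChartC

/-! Change of charts for weighted hypersurfaces. -/

set_option autoImplicit false
set_option linter.unusedSectionVars false
set_option linter.unusedVariables false

namespace Pool.Agent.R187.WC

open Pool.Agent.H918R2.Quad MvPolynomial Pool.Agent.TH214.RM

theorem exists_whom {O ι : Type} [CommRing O] [DecidableEq ι] (e : ℕ) (s : ι)
    (f : MvPolynomial (Option {j // j ≠ s}) O) :
    ∃ (N : ℕ) (P : MvPolynomial (Option ι) O), P.IsWeightedHomogeneous (wt e) N ∧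
      dehW s P = f := by
  induction f using MvPolynomial.induction_on with
  | C a => exact ⟨0, C a, isWeightedHomogeneous_C _ _, dehW_C s a⟩
  | add p q hp hq =>
    obtain ⟨N, P, hP, rfl⟩ := hp
    obtain ⟨M, Q, hQ, rfl⟩ := hq
    refine ⟨N + M, X (some s) ^ M * P + X (some s) ^ N * Q, ?_, ?_⟩
    · have h1 := ((isWeightedHomogeneous_X O (wt (ι := ι) e) (some s)).pow M).mul hP
      have h2 := ((isWeightedHomogeneous_X O (wt (ι := ι) e) (some s)).pow N).mul hQ
      rw [wt_some, smul_eq_mul, mul_one] at h1 h2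
      refine IsWeightedHomogeneous.add ?_ h2
      rwa [add_comm M N] at h1
    · rw [dehW_add, dehW_mul, dehW_mul, dehW_pow, dehW_pow, dehW_X, tauW_self, one_pow, one_pow,
        one_mul, one_mul]
  | mul_X p i hp =>
    obtain ⟨N, P, hP, rfl⟩ := hp
    refine ⟨N + wt e (i.map Subtype.val), P * X (i.map Subtype.val),
      hP.mul (isWeightedHomogeneous_X O (wt e) (i.map Subtype.val)), ?_⟩
    rw [dehW_mul, dehW_X]
    congr 1
    rcases i with _ | i
    · rfl
    · exact tauW_ne s i i.2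

/-- The ring homomorphism from one chart to a ring where the other coordinate is invertible. -/
theorem aeval_chartW {O ι S : Type} [CommRing O] [CommRing S] [Algebra O S] [DecidableEq ι]
    (e : ℕ) (a : Option ι → S) (s : ι) (v : S) (hv : a (some s) * v = 1)
    (P : MvPolynomial (Option ι) O) (N : ℕ) (hP : P.IsWeightedHomogeneous (wt e) N) :
    aeval (fun j : Option {j // j ≠ s} => a (j.map Subtype.val) * v ^ wt e (j.map Subtype.val))
      (dehW s P) = aeval a P * v ^ N := by
  rw [← aeval_scaleW e a v N P hP]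
  refine aeval_dehW s (fun j => a j * v ^ wt e j) ?_ P
  rw [wt_some, pow_one]
  exact hv

/-- Change of charts. -/
theorem chart_changeW {O ι : Type} [CommRing O] [DecidableEq ι] (e : ℕ) (𝔭 : Ideal O) (s t : ι)
    (Q : Ideal (MvPolynomial (Option {j // j ≠ s}) O)) (hQ : Q.IsPrime)
    (hCQ : ∀ r : O, C r ∈ Q ↔ r ∈ 𝔭)
    (ht : (tauW s (some t) : MvPolynomial (Option {j // j ≠ s}) O) ∉ Q) :
    ∃ Q' : Ideal (MvPolynomial (Option {j // j ≠ t}) O), Q'.IsPrime ∧
      (∀ r : O, C r ∈ Q' ↔ r ∈ 𝔭) ∧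
      (∀ (P : MvPolynomial (Option ι) O) (N : ℕ), P.IsWeightedHomogeneous (wt e) N →
        (dehW t P ∈ Q' ↔ dehW s P ∈ Q)) ∧
      ∀ (G : MvPolynomial (Option ι) O) (d : ℕ), G.IsWeightedHomogeneous (wt e) d →
        (∀ h, h ∉ Q' → h * dehW t G ∉ Q' ^ 2) → ∀ h, h ∉ Q → h * dehW s G ∉ Q ^ 2 := by
  let L := Localization.AtPrime Q
  let a : Option ι → L :=
    fun j => algebraMap (MvPolynomial (Option {j // j ≠ s}) O) L (tauW s j)
  have hat : IsUnit (a (some t)) :=
    (IsLocalization.AtPrime.isUnit_to_map_iff L Q _).2 ht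
  obtain ⟨u, hu⟩ := hat
  let v : L := ((u⁻¹ : Lˣ) : L)
  have hv : a (some t) * v = 1 := by rw [← hu]; exact Units.mul_inv u
  let θ : MvPolynomial (Option {j // j ≠ t}) O →ₐ[O] L :=
    aeval (fun j => a (j.map Subtype.val) * v ^ wt e (j.map Subtype.val))
  let Q' : Ideal (MvPolynomial (Option {j // j ≠ t}) O) :=
    (IsLocalRing.maximalIdeal L).comap θ.toRingHom
  have hQ' : Q'.IsPrime := Ideal.comap_isPrime _ _
  have hmem : ∀ f, f ∈ Q' ↔ θ f ∈ IsLocalRing.maximalIdeal L := fun f => Iff.rfl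
  have haP : ∀ P : MvPolynomial (Option ι) O, aeval a P = algebraMap _ L (dehW s P) := by
    intro P
    have h1 : (aeval a : MvPolynomial (Option ι) O →ₐ[O] L) =
        (IsScalarTower.toAlgHom O (MvPolynomial (Option {j // j ≠ s}) O) L).comp
          (aeval (tauW s)) := by
      apply MvPolynomial.algHom_ext
      intro j
      rw [aeval_X, AlgHom.comp_apply, aeval_X]
      rfl
    rw [h1]
    rfl
  have hθ : ∀ (P : MvPolynomial (Option ι) O) (N : ℕ), P.IsWeightedHomogeneous (wt e) N →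
      θ (dehW t P) = algebraMap _ L (dehW s P) * v ^ N := by
    intro P N hP
    rw [← haP]
    exact aeval_chartW e a t v hv P N hP
  have hvu : IsUnit v := Units.isUnit _
  have hmax : ∀ f : MvPolynomial (Option {j // j ≠ s}) O,
      algebraMap _ L f ∈ IsLocalRing.maximalIdeal L ↔ f ∈ Q :=
    fun f => IsLocalization.AtPrime.to_map_mem_maximal_iff L Q f
  have hiff : ∀ (P : MvPolynomial (Option ι) O) (N : ℕ), P.IsWeightedHomogeneous (wt e) N →
      (dehW t P ∈ Q' ↔ dehW s P ∈ Q) := by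
    intro P N hP
    rw [hmem, hθ P N hP, Ideal.mul_unit_mem_iff_mem _ (hvu.pow N), hmax]
  have hCQ' : ∀ r : O, C r ∈ Q' ↔ r ∈ 𝔭 := by
    intro r
    rw [← hCQ]
    have h1 := hiff (C r) 0 (isWeightedHomogeneous_C _ _)
    rwa [dehW_C, dehW_C] at h1
  refine ⟨Q', hQ', hCQ', hiff, ?_⟩
  intro G d hG hcrit h hh hhG
  -- the other direction
  have hs' : (tauW t (some s) : MvPolynomial (Option {j // j ≠ t}) O) ∉ Q' := by
    have h1 := hiff (X (some s)) 1 (isWeightedHomogeneous_X O (wt e) (some s))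
    rw [dehW_X, dehW_X, tauW_self] at h1
    rw [h1]
    exact (Ideal.ne_top_iff_one Q).1 hQ.ne_top
  let L' := Localization.AtPrime Q'
  let a' : Option ι → L' :=
    fun j => algebraMap (MvPolynomial (Option {j // j ≠ t}) O) L' (tauW t j)
  have has' : IsUnit (a' (some s)) := (IsLocalization.AtPrime.isUnit_to_map_iff L' Q' _).2 hs'
  obtain ⟨u', hu'⟩ := has'
  let v' : L' := ((u'⁻¹ : L'ˣ) : L')
  have hv' : a' (some s) * v' = 1 := by rw [← hu']; exact Units.mul_inv u'
  have hvu' : IsUnit v' := Units.isUnit _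
  let θ' : MvPolynomial (Option {j // j ≠ s}) O →ₐ[O] L' :=
    aeval (fun j => a' (j.map Subtype.val) * v' ^ wt e (j.map Subtype.val))
  have haP' : ∀ P : MvPolynomial (Option ι) O, aeval a' P = algebraMap _ L' (dehW t P) := by
    intro P
    have h1 : (aeval a' : MvPolynomial (Option ι) O →ₐ[O] L') =
        (IsScalarTower.toAlgHom O (MvPolynomial (Option {j // j ≠ t}) O) L').comp
          (aeval (tauW t)) := by
      apply MvPolynomial.algHom_ext
      intro j
      rw [aeval_X, AlgHom.comp_apply, aeval_X]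
      rfl
    rw [h1]
    rfl
  have hθ' : ∀ (P : MvPolynomial (Option ι) O) (N : ℕ), P.IsWeightedHomogeneous (wt e) N →
      θ' (dehW s P) = algebraMap _ L' (dehW t P) * v' ^ N := by
    intro P N hP
    rw [← haP']
    exact aeval_chartW e a' s v' hv' P N hP
  have hmax' : ∀ f : MvPolynomial (Option {j // j ≠ t}) O,
      algebraMap _ L' f ∈ IsLocalRing.maximalIdeal L' ↔ f ∈ Q' :=
    fun f => IsLocalization.AtPrime.to_map_mem_maximal_iff L' Q' f
  have hθQ : ∀ f, θ' f ∈ IsLocalRing.maximalIdeal L' ↔ f ∈ Q := by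
    intro f
    obtain ⟨N, P, hP, rfl⟩ := exists_whom e s f
    rw [hθ' P N hP, Ideal.mul_unit_mem_iff_mem _ (hvu'.pow N), hmax', hiff P N hP]
  have h1 : θ' (h * dehW s G) ∈ IsLocalRing.maximalIdeal L' ^ 2 := by
    have h2 : (Q ^ 2).map θ'.toRingHom ≤ IsLocalRing.maximalIdeal L' ^ 2 := by
      rw [Ideal.map_pow]
      refine Ideal.pow_right_mono ?_ 2
      rw [Ideal.map_le_iff_le_comap]
      intro g hg
      exact (hθQ g).2 hg
    exact h2 (Ideal.mem_map_of_mem _ hhG)
  have hunit : IsUnit (θ' h) := by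
    by_contra hcon
    exact hh ((hθQ h).1 ((IsLocalRing.mem_maximalIdeal _).2 hcon))
  rw [map_mul, Ideal.unit_mul_mem_iff_mem _ hunit, hθ' G d hG,
    Ideal.mul_unit_mem_iff_mem _ (hvu'.pow d)] at h1
  have h2 : algebraMap _ L' (dehW t G) ∈ (Q' ^ 2).map (algebraMap _ L') := by
    rw [Ideal.map_pow, Localization.AtPrime.map_eq_maximalIdeal]
    exact h1
  obtain ⟨c, hc, hcG⟩ := exists_mul_mem_of_loc Q' (Q' ^ 2) _ h2
  exact hcrit c hc hcG

/-- The wild case, in the chart `y_0 = 1`. -/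
theorem crit_wildW {O : Type} [CommRing O] [IsNoetherianRing O] (𝔭 : Ideal O) [𝔭.IsPrime]
    (d : ℕ) (hd : 3 ≤ d) {r : ℕ} (F : MvPolynomial (Option (Fin (r + 1))) O) (p : ℕ)
    (hp : p.Prime)
    (hpd : p ∣ d - 1) (hp𝔭 : (p : O) ∈ 𝔭)
    (hw : ∀ q : Ideal (MvPolynomial (Option {j : Fin (r + 1) // j ≠ 0}) O), q.IsPrime →
      (∀ r, C r ∈ q ↔ r ∈ 𝔭) → (∀ j, pderiv j (dehW 0 F) ∈ q) →
      Finite (MvPolynomial (Option {j : Fin (r + 1) // j ≠ 0}) O ⧸ q) ∧
        ∀ g, dehW 0 F + g ^ p ∉ q ^ 2)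
    (Q : Ideal (MvPolynomial (Option {j // j ≠ (0 : Fin (r + 1)).succ}) O)) (hQ : Q.IsPrime)
    (hCQ : ∀ r : O, C r ∈ Q ↔ r ∈ 𝔭) (hGQ : dehW (0 : Fin (r + 1)).succ (upW d F) ∈ Q)
    (hall : ∀ j, dehW (0 : Fin (r + 1)).succ (pderiv j (upW d F)) ∈ Q)
    (h : MvPolynomial (Option {i // i ≠ (0 : Fin (r + 1)).succ}) O) (hh : h ∉ Q) :
    h * dehW (0 : Fin (r + 1)).succ (upW d F) ∉ Q ^ 2 := by
  intro hcon
  let t : Fin (r + 2) := (0 : Fin (r + 1)).succ
  let A := MvPolynomial (Option {j : Fin (r + 1) // j ≠ 0}) O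
  let ι : A →ₐ[O] MvPolynomial (Option {j // j ≠ t}) O := iotW 0
  have h0t : (0 : Fin (r + 2)) ≠ t := (Fin.succ_ne_zero _).symm
  let x : MvPolynomial (Option {j // j ≠ t}) O := X (some ⟨0, h0t⟩)
  let f : A := dehW 0 F
  have hG : dehW t (upW d F) = x ^ (d - 1) + ι f := by
    unfold upW
    rw [dehW_add, dehW_mul, dehW_pow, dehW_X, dehW_X, tauW_ne t 0 h0t]
    have h1 : (tauW t (some 1) : MvPolynomial (Option {j // j ≠ t}) O) = 1 := tauW_self t
    rw [h1, mul_one]
    congr 1
    exact (iotW_dehW 0 F).symm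
  let q : Ideal A := Q.comap ι.toRingHom
  have hq : q.IsPrime := Ideal.comap_isPrime _ _
  have hmem : ∀ P, P ∈ q ↔ ι P ∈ Q := fun P => Iff.rfl
  have hCq : ∀ r : O, C r ∈ q ↔ r ∈ 𝔭 := by
    intro r
    rw [hmem]
    change rename _ (C r) ∈ Q ↔ _
    rw [rename_C]
    exact hCQ r
  have hpq : ∀ j, pderiv j (dehW 0 F) ∈ q := by
    intro j
    rw [pderiv_dehW, hmem]
    change iotW 0 (dehW 0 _) ∈ Q
    rw [iotW_dehW, ← pderiv_succ_upW d F _ (by
      rcases j with _ | j
      · simp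
      · intro h1
        exact j.2 (Option.some.inj h1))]
    exact hall _
  obtain ⟨hfin, hg⟩ := hw q hq hCq hpq
  have hpA : (p : A) ∈ q := by
    have h1 := (hCq (p : O)).2 hp𝔭
    rwa [map_natCast] at h1
  have hpQ : (p : MvPolynomial (Option {j // j ≠ t}) O) ∈ Q := by
    have h1 := (hCQ (p : O)).2 hp𝔭
    rwa [map_natCast] at h1
  have hqmax : q.IsMaximal := by
    have : IsDomain (A ⧸ q) := Ideal.Quotient.isDomain q
    exact Ideal.Quotient.maximal_of_isField q (Finite.isField_of_domain (A ⧸ q))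
  -- `-f` is a `p`-th power modulo `q`
  obtain ⟨g, hgq⟩ : ∃ g : A, f + g ^ p ∈ q := by
    have : IsDomain (A ⧸ q) := Ideal.Quotient.isDomain q
    have : Fact p.Prime := ⟨hp⟩
    have : CharP (A ⧸ q) p := by
      rw [CharP.charP_iff_prime_eq_zero hp]
      have h1 := Ideal.Quotient.eq_zero_iff_mem.2 hpA
      rwa [map_natCast] at h1
    have hs : Function.Surjective (frobenius (A ⧸ q) p) :=
      Finite.injective_iff_surjective.1 (frobenius_inj (A ⧸ q) p)
    obtain ⟨gb, hgb⟩ := hs (Ideal.Quotient.mk q (-f))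
    obtain ⟨g, rfl⟩ := Ideal.Quotient.mk_surjective gb
    refine ⟨g, ?_⟩
    rw [← Ideal.Quotient.eq_zero_iff_mem, map_add, map_pow]
    rw [frobenius_def] at hgb
    rw [hgb, map_neg, add_neg_cancel]
  obtain ⟨e', he'⟩ := hpd
  let z : MvPolynomial (Option {j // j ≠ t}) O := x ^ e'
  have hz : x ^ (d - 1) = z ^ p := by
    rw [he', mul_comm, pow_mul]
  set w := z - ι g with hw'
  obtain ⟨ρ, hρ⟩ := exists_add_pow_prime_eq hp (ι g) w
  have hzw : ι g + w = z := by rw [hw']; ring
  rw [hzw] at hρ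
  have hwQ : w ∈ Q := by
    apply hQ.mem_of_pow_mem p
    have h1 : z ^ p + ι f ∈ Q := by rw [← hz, ← hG]; exact hGQ
    have h2 : ι (f + g ^ p) ∈ Q := hgq
    rw [map_add, map_pow] at h2
    have h3 : w ^ p = (z ^ p + ι f) - (ι f + ι g ^ p) -
        (p : MvPolynomial (Option {j // j ≠ t}) O) * ι g * w * ρ := by
      rw [hρ]
      ring
    rw [h3]
    refine Q.sub_mem (Q.sub_mem h1 h2) ?_
    rw [mul_assoc, mul_assoc]
    exact Q.mul_mem_right _ hpQ
  have hdiff : z ^ p + ι f - ι (f + g ^ p) ∈ Q ^ 2 := by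
    have h3 : z ^ p + ι f - ι (f + g ^ p) = w ^ p +
        (p : MvPolynomial (Option {j // j ≠ t}) O) * w * (ι g * ρ) := by
      rw [hρ, map_add, map_pow]
      ring
    rw [h3]
    refine Ideal.add_mem _ ?_ (Ideal.mul_mem_right _ _ ?_)
    · exact Ideal.pow_le_pow_right hp.two_le (Ideal.pow_mem_pow hwQ p)
    · rw [pow_two]
      exact Ideal.mul_mem_mul hpQ hwQ
  have hcon2 : h * ι (f + g ^ p) ∈ Q ^ 2 := by
    rw [hG, hz] at hcon
    have h3 : h * ι (f + g ^ p) = h * (z ^ p + ι f) - h * (z ^ p + ι f - ι (f + g ^ p)) := by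
      ring
    rw [h3]
    exact Ideal.sub_mem _ hcon (Ideal.mul_mem_left _ _ hdiff)
  -- transport to the polynomial ring over `A`
  let e : MvPolynomial (Option {j // j ≠ t}) O →ₐ[O] Polynomial A :=
    aeval (fun o => o.elim (Polynomial.C (X none))
      (fun j => Fin.cases (motive := fun _ => Polynomial A) Polynomial.X
      (fun i => Polynomial.C (tauW 0 (some i))) j.1))
  let ψ : Polynomial A →+* MvPolynomial (Option {j // j ≠ t}) O :=
    Polynomial.eval₂RingHom ι.toRingHom x
  have hψC : ∀ a : A, ψ (Polynomial.C a) = ι a := fun a => Polynomial.eval₂_C _ _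
  have hψX : ψ Polynomial.X = x := Polynomial.eval₂_X _ _
  have hιn : ι (X none) = X none := iotW_tauW (0 : Fin (r + 1)) none
  have hψe : ∀ w, ψ (e w) = w := by
    intro w
    induction w using MvPolynomial.induction_on with
    | C a =>
      change ψ (aeval _ (C a)) = _
      rw [aeval_C]
      change ψ (Polynomial.C (C a)) = _
      rw [hψC]
      change rename _ (C a) = _
      rw [rename_C]
    | add p q hp hq => rw [map_add, map_add, hp, hq]
    | mul_X p i hp =>
      rw [map_mul, map_mul, hp]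
      congr 1
      change ψ (aeval _ (X i)) = _
      rw [aeval_X]
      rcases i with _ | ⟨j, hj⟩
      · change ψ (Polynomial.C (X none)) = _
        rw [hψC, hιn]
      · revert hj
        refine Fin.cases ?_ (fun i => ?_) j
        · intro hj
          exact hψX
        · intro hj
          have hi : i ≠ 0 := fun h2 => hj (by rw [h2])
          change ψ (Polynomial.C (tauW 0 (some i))) = _
          rw [hψC]
          change iotW 0 (tauW 0 (some i)) = _
          rw [iotW_tauW, Option.map_some, tauW_ne]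
  have heι : ∀ a : A, e (ι a) = Polynomial.C a := by
    intro a
    induction a using MvPolynomial.induction_on with
    | C a =>
      change e (rename _ (C a)) = _
      rw [rename_C]
      change aeval _ (C a) = _
      rw [aeval_C]
      rfl
    | add p q hp hq => rw [map_add, map_add, hp, hq, map_add]
    | mul_X p i hp =>
      rw [map_mul, map_mul, hp, map_mul]
      congr 1
      rcases i with _ | i
      · rw [hιn]
        change aeval _ (X none) = _
        rw [aeval_X]
        rfl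
      · change e (rename _ (X _)) = _
        rw [rename_X]
        change aeval _ (X _) = _
        rw [aeval_X]
        change Polynomial.C (tauW 0 (some (i : Fin (r + 1)))) = _
        rw [tauW_ne (0 : Fin (r + 1)) (i : Fin (r + 1)) i.2]
  let Qh : Ideal (Polynomial A) := Q.comap ψ
  have hQh : Qh.IsPrime := Ideal.comap_isPrime _ _
  have hA : ∀ a, Polynomial.C a ∈ Qh ↔ a ∈ q := by
    intro a
    rw [Ideal.mem_comap, hψC, hmem]
  have heh : e h ∉ Qh := by
    rw [Ideal.mem_comap, hψe]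
    exact hh
  apply lemL q hqmax (f + g ^ p) hgq (hg g) Qh hQh hA (e h) heh
  rw [← heι, ← map_mul]
  have h2 : (Q ^ 2).map e.toRingHom ≤ Qh ^ 2 := by
    rw [Ideal.map_pow]
    refine Ideal.pow_right_mono ?_ 2
    rw [Ideal.map_le_iff_le_comap]
    intro g hg
    change ψ (e g) ∈ Q
    rw [hψe]
    exact hg
  exact h2 (Ideal.mem_map_of_mem _ hcon2)

end Pool.Agent.R187.WC
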