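import Pool.Agent.R187.WC.Loc
import Pool.Agent.TH214.RM.Cyc2

/-! Cyclic coverings `w ^ m + F(x) = 0` of projective spaces, `m` dividing the degree of `F`. -/

set_option autoImplicit false
set_option linter.unusedSectionVars false
set_option linter.unusedVariables false

open MvPolynomial

namespace Pool.Agent.R187.WC

open Pool.Agent.H918R2.Quad Pool.Agent.TH214.RM

/-- The form `w ^ m + F(x)`. -/
noncomputable def cycW {O ι : Type} [CommRing O] (m : ℕ) (F : MvPolynomial ι O) :
    MvPolynomial (Option ι) O :=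
  X none ^ m + rename some F

theorem rename_cyc {O : Type} [CommRing O] (m : ℕ) {r : ℕ} (F : MvPolynomial (Fin (r + 1)) O) :
    rename (_root_.finSuccEquiv (r + 1)) (cyc m F) = cycW m F := by
  unfold cyc cycW
  rw [map_add, map_pow, rename_X, rename_rename]
  congr 2

theorem whom_cycW {O ι : Type} [CommRing O] [Fintype ι] (m e : ℕ) (F : MvPolynomial ι O)
    (hF : F.IsHomogeneous (m * e)) : (cycW m F).IsWeightedHomogeneous (wt e) (m * e) := by
  classical
  unfold cycW
  refine IsWeightedHomogeneous.add ?_ ?_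
  · have h1 := (isWeightedHomogeneous_X O (wt (ι := ι) e) none).pow m
    exact h1
  · intro s hs
    obtain ⟨t, rfl, ht⟩ := coeff_rename_ne_zero _ _ _ hs
    have h1 : t.degree = m * e := by
      by_contra hne
      exact ht (hF.coeff_eq_zero hne)
    rw [← h1, weight_eq]
    have h2 : (Finsupp.mapDomain some t) none = 0 :=
      Finsupp.mapDomain_notin_range _ _ (by simp)
    have h3 : ∀ j, (Finsupp.mapDomain some t) (some j) = t j := fun j =>
      Finsupp.mapDomain_apply (Option.some_injective _) t j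
    rw [h2, zero_mul, zero_add, Finset.sum_congr rfl fun j _ => h3 j, Finsupp.degree_eq_sum]

theorem coeff_cycW {O ι : Type} [CommRing O] (m : ℕ) (hm : 1 ≤ m) (F : MvPolynomial ι O) :
    coeff (Finsupp.single none m) (cycW m F) = 1 := by
  classical
  unfold cycW
  rw [coeff_add, coeff_X_pow, if_pos rfl]
  have h1 : coeff (Finsupp.single none m) (rename some F) = 0 := by
    by_contra h
    obtain ⟨t, ht, _⟩ := coeff_rename_ne_zero _ _ _ h
    have h2 : (Finsupp.mapDomain some t) none = 0 :=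
      Finsupp.mapDomain_notin_range _ _ (by simp)
    rw [ht, Finsupp.single_eq_same] at h2
    omega
  rw [h1, add_zero]

theorem crit_at {O : Type} [CommRing O] [IsNoetherianRing O] (𝔭 : Ideal O) [𝔭.IsPrime]
    (m : ℕ) (hm : 2 ≤ m) {r : ℕ} (F : MvPolynomial (Fin (r + 1)) O)
    (hreg : Crit 𝔭 F) (hw : WildCyc 𝔭 m F) (j : Fin (r + 1))
    (Q' : Ideal (MvPolynomial {i // i ≠ j.succ} O)) (hQ' : Q'.IsPrime)
    (hCQ' : ∀ r : O, C r ∈ Q' ↔ r ∈ 𝔭)
    (hG' : deh j.succ (cyc m F) ∈ Q') (hall' : ∀ i, deh j.succ (pderiv i (cyc m F)) ∈ Q')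
    (h : MvPolynomial {i // i ≠ j.succ} O) (hh : h ∉ Q') : h * deh j.succ (cyc m F) ∉ Q' ^ 2 := by
  by_cases ha0 : (tau j.succ 0 : MvPolynomial {i // i ≠ j.succ} O) ∈ Q'
  · rw [deh_cyc] at hG' ⊢
    refine cyc_retract 𝔭 m hm j (deh j F) Q' hQ' hCQ' hG' ha0 ?_ h hh
    intro q hq hCq hfq hιq
    rcases hreg j q hq hCq hfq with ⟨i, hi⟩ | h2
    · exfalso
      apply hi
      rw [pderiv_deh, ← hιq, iot_deh, ← pderiv_succ_cyc m F]
      exact hall' _
    · exact h2
  · have hd1 : (m : O) ∈ 𝔭 := by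
      have h0 := hall' 0
      rw [pderiv_zero_cyc, deh_mul, deh_pow, deh_natCast, deh_X] at h0
      have h1 := (hQ'.mem_or_mem h0).resolve_right (fun h => ha0 (hQ'.mem_of_pow_mem _ h))
      rw [← hCQ', map_natCast]
      exact h1
    obtain ⟨p, hp, hpdvd, hp𝔭⟩ := exists_prime_mem 𝔭 m (by omega) hd1
    exact cyc_wild 𝔭 m j F p hp hpdvd hp𝔭 (hw p hp hpdvd hp𝔭 j) Q' hQ' hCQ' hG' hall' h hh

/-- Regularity of `w ^ m + F(x) = 0`. -/
theorem crit_cycW {O : Type} [CommRing O] [IsNoetherianRing O] (𝔭 : Ideal O) [𝔭.IsPrime]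
    (m e : ℕ) (hm : 2 ≤ m) {r : ℕ} (F : MvPolynomial (Fin (r + 1)) O)
    (hF : F.IsHomogeneous (m * e))
    (hreg : Crit 𝔭 F) (hw : WildCyc 𝔭 m F) : CritW 𝔭 (cycW m F) := by
  classical
  intro s Q hQ hCQ hGQ
  by_contra hcon
  push Not at hcon
  obtain ⟨hpd, f, hf, hfG⟩ := hcon
  have hall := all_pderiv_memW e _ _ (whom_cycW m e F hF) s Q hGQ hpd
  let Ρ : Fin (r + 2) ≃ Option (Fin (r + 1)) := _root_.finSuccEquiv (r + 1)
  have hΡ0 : Ρ 0 = none := rfl
  have hΡs : ∀ i : Fin (r + 1), Ρ i.succ = some i := fun i => rfl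
  let α : MvPolynomial {j : Fin (r + 2) // j ≠ s.succ} O →ₐ[O]
      MvPolynomial (Option {j : Fin (r + 1) // j ≠ s}) O := aeval (fun j => tauW s (Ρ j.1))
  let β : MvPolynomial (Option {j : Fin (r + 1) // j ≠ s}) O →ₐ[O]
      MvPolynomial {j : Fin (r + 2) // j ≠ s.succ} O :=
    aeval (fun o => tau s.succ (Ρ.symm (o.map Subtype.val)))
  have hα : ∀ i : Fin (r + 2), α (tau s.succ i) = tauW s (Ρ i) := by
    intro i
    by_cases hi : i = s.succ
    · subst hi
      rw [Pool.Agent.TH214.RM.tau_self, map_one, hΡs, tauW_self]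
    · rw [tau_ne s.succ i hi]
      exact aeval_X _ _
  have hβ : ∀ i : Fin (r + 2), β (tauW s (Ρ i)) = tau s.succ i := by
    intro i
    refine Fin.cases ?_ (fun i => ?_) i
    · rw [hΡ0]
      change aeval _ (X none) = _
      rw [aeval_X]
      rfl
    · rw [hΡs]
      by_cases hi : i = s
      · subst hi
        rw [tauW_self, map_one, Pool.Agent.TH214.RM.tau_self]
      · have h1 : tauW (R := O) s (some i) = X (some ⟨i, hi⟩) := by simp [tauW, hi]
        rw [h1]
        change aeval _ (X _) = _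
        rw [aeval_X]
        rfl
  have hαd : ∀ G : MvPolynomial (Fin (r + 2)) O, α (deh s.succ G) = dehW s (rename Ρ G) := by
    intro G
    have h1 : α.comp (aeval (tau s.succ)) = (aeval (tauW s)).comp (rename Ρ) := by
      apply MvPolynomial.algHom_ext
      intro i
      rw [AlgHom.comp_apply, AlgHom.comp_apply, aeval_X, rename_X, aeval_X]
      exact hα i
    exact congrArg (fun g => g G) h1
  have hβd : ∀ G : MvPolynomial (Fin (r + 2)) O, β (dehW s (rename Ρ G)) = deh s.succ G := by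
    intro G
    have h1 : (β.comp (aeval (tauW s))).comp (rename Ρ) = aeval (tau s.succ) := by
      apply MvPolynomial.algHom_ext
      intro i
      rw [AlgHom.comp_apply, AlgHom.comp_apply, rename_X, aeval_X, aeval_X]
      exact hβ i
    exact congrArg (fun g => g G) h1
  have hαβ : ∀ x, α (β x) = x := by
    intro x
    have h1 : α.comp β = AlgHom.id O _ := by
      apply MvPolynomial.algHom_ext
      intro o
      rw [AlgHom.comp_apply, AlgHom.id_apply]
      change α (aeval _ (X o)) = X o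
      rw [aeval_X, hα, Equiv.apply_symm_apply]
      rcases o with _ | ⟨i, hi⟩
      · rfl
      · simp [tauW, hi]
    exact congrArg (fun g => g x) h1
  let Q' : Ideal (MvPolynomial {j : Fin (r + 2) // j ≠ s.succ} O) := Q.comap α.toRingHom
  have hmem : ∀ x, x ∈ Q' ↔ α x ∈ Q := fun x => Iff.rfl
  have hQ' : Q'.IsPrime := Ideal.comap_isPrime _ _
  have hCQ' : ∀ r : O, C r ∈ Q' ↔ r ∈ 𝔭 := by
    intro r
    rw [hmem, ← hCQ]
    have h1 : α (C r) = C r := aeval_C _ r
    rw [h1]
  have hP : rename Ρ (cyc m F) = cycW m F := rename_cyc m F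
  refine crit_at 𝔭 m hm F hreg hw s Q' hQ' hCQ' ?_ ?_ (β f) ?_ ?_
  · rw [hmem, hαd, hP]
    exact hGQ
  · intro i
    rw [hmem, hαd, ← pderiv_rename Ρ.injective, hP]
    exact hall _
  · rw [hmem, hαβ]
    exact hf
  · rw [← hβd, hP, ← map_mul]
    have h1 : Q.map β.toRingHom ≤ Q' := by
      rw [Ideal.map_le_iff_le_comap]
      intro x hx
      change α (β x) ∈ Q
      rw [hαβ]
      exact hx
    have h2 : (Q ^ 2).map β.toRingHom ≤ Q' ^ 2 := by
      rw [Ideal.map_pow]
      exact Ideal.pow_right_mono h1 2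
    exact h2 (Ideal.mem_map_of_mem β.toRingHom hfG)

/-- Smoothness of `w ^ m + F(x) = 0`. -/
theorem smooth_cycW {K : Type} [Field K] (m : ℕ) {r : ℕ}
    (F : MvPolynomial (Fin (r + 1)) K) (hsm : Smooth F) : SmoothW (cycW m F) := by
  intro i
  obtain ⟨k, hk⟩ := hsm i
  refine ⟨k, ?_⟩
  have h1 := Ideal.mem_map_of_mem (rename some : MvPolynomial (Fin (r + 1)) K →ₐ[K]
    MvPolynomial (Option (Fin (r + 1))) K) hk
  rw [map_pow, rename_X, Ideal.map_span] at h1
  refine Ideal.span_mono ?_ h1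
  rintro _ ⟨_, ⟨j, rfl⟩, rfl⟩
  refine ⟨some j, ?_⟩
  change pderiv (some j) (cycW m F) = rename some (pderiv j F)
  unfold cycW
  rw [map_add, pderiv_rename (Option.some_injective _), Derivation.leibniz_pow,
    pderiv_X_of_ne (by simp)]
  simp

theorem map_cycW {O K ι : Type} [CommRing O] [CommRing K] (φ : O →+* K) (m : ℕ)
    (F : MvPolynomial ι O) : map φ (cycW m F) = cycW m (map φ F) := by
  unfold cycW
  rw [map_add, map_pow, map_X, map_rename]

/-- Over each nonzero prime the branch divisor of the cyclic covering of degree `m` has a suitable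
equation in suitable coordinates. -/
def LocCyc (O : Type) {K : Type} [CommRing O] [Field K] [Algebra O K] {n : ℕ} (m : ℕ)
    (F : MvPolynomial (Fin (n + 1)) K) : Prop :=
  ∀ 𝔭 : Ideal O, 𝔭.IsPrime → 𝔭 ≠ ⊥ →
    ∃ (H : MvPolynomial (Fin (n + 1)) O) (a : K) (T T' : Matrix (Fin (n + 1)) (Fin (n + 1)) K),
      a ≠ 0 ∧ T * T' = 1 ∧
      map (algebraMap O K) H = C (a ^ m) * aeval (fun i => ∑ j, C (T i j) * X j) F ∧
      Crit 𝔭 H ∧ WildCyc 𝔭 m H

theorem locRegW_cyc {O K : Type} [CommRing O] [IsDedekindDomain O] [Field K] [Algebra O K]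
    [IsFractionRing O K] {n : ℕ} (e m : ℕ) (hm : 2 ≤ m)
    (F : MvPolynomial (Fin (n + 1)) K) (hF : F.IsHomogeneous (m * e)) (h : LocCyc O m F) :
    LocRegW O e m (cycW m F) := by
  have hOK : Function.Injective (algebraMap O K) := IsFractionRing.injective O K
  intro 𝔭 hp h0
  obtain ⟨H, a, T, T', ha, hT, hH, hc, hw⟩ := h 𝔭 hp h0
  have hHd : H.IsHomogeneous (m * e) := by
    refine IsHomogeneous.of_map (f := algebraMap O K) hOK ?_
    rw [hH]
    have h1 : ((aeval (fun i => ∑ j, C (T i j) * X j) :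
        MvPolynomial (Fin (n + 1)) K →ₐ[K] MvPolynomial (Fin (n + 1)) K) F).IsHomogeneous
          (1 * (m * e)) := by
      refine hF.aeval _ fun i => ?_
      refine IsHomogeneous.sum _ _ _ fun j _ => ?_
      have h2 := (isHomogeneous_C (Fin (n + 1)) (T i j)).mul (isHomogeneous_X K j)
      rwa [zero_add] at h2
    have h2 := (isHomogeneous_C (Fin (n + 1)) (a ^ m)).mul h1
    rwa [zero_add, one_mul] at h2
  refine ⟨cycW m H, a ^ m, a⁻¹, T, T', 0, inv_ne_zero ha, hT, isHomogeneous_zero _ _ _, ?_,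
    whom_cycW m e H hHd, ?_, crit_cycW 𝔭 m e hm H hHd hc hw⟩
  · have h1 : aeval (subW T a⁻¹ 0) (cycW m F) = (C a⁻¹ * X none) ^ m +
        rename some (aeval (fun i => ∑ j, C (T i j) * X j :
          Fin (n + 1) → MvPolynomial (Fin (n + 1)) K) F) := by
      unfold cycW
      rw [map_add, map_pow, aeval_X]
      congr 1
      · simp [subW]
      · rw [aeval_rename]
        have h2 : (rename some : MvPolynomial (Fin (n + 1)) K →ₐ[K] _).comp
            (aeval (fun i => ∑ j, C (T i j) * X j :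
              Fin (n + 1) → MvPolynomial (Fin (n + 1)) K)) =
            aeval (subW T a⁻¹ 0 ∘ some) := by
          apply MvPolynomial.algHom_ext
          intro i
          rw [AlgHom.comp_apply, aeval_X, aeval_X]
          simp only [map_sum, map_mul, rename_X, rename_C]
          rfl
        exact (congrArg (fun g => g F) h2).symm
    rw [map_cycW, hH, h1]
    unfold cycW
    rw [mul_add]
    congr 1
    · rw [mul_pow, ← C_pow, ← mul_assoc, ← C_mul, ← mul_pow, mul_inv_cancel₀ ha, one_pow, C_1,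
        one_mul]
    · rw [map_mul, rename_C]
  · rw [coeff_cycW m (by omega)]
    exact (Ideal.ne_top_iff_one 𝔭).1 hp.ne_top

end Pool.Agent.R187.WC
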