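import Pool.Agent.R187.WC.Gd
import Pool.Agent.TH214.RM.Glob

/-! The criterion for weighted hypersurfaces over a Dedekind ring and its localizations. -/

set_option autoImplicit false
set_option linter.unusedSectionVars false
set_option linter.unusedVariables false

open scoped Pointwise

namespace Pool.Agent.R187.WC

open Pool.Agent.H918R2.Quad Pool.Agent.H945R2.D MvPolynomial Pool.Agent.TH214.RM
  Pool.Agent.H945R2.E Pool.Agent.W418

/-- `P = 0` is regular at the points over `𝔭`. -/
def CritW {O ι : Type} [CommRing O] [DecidableEq ι] (𝔭 : Ideal O) (P : MvPolynomial (Option ι) O) :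
    Prop :=
  ∀ (s : ι) (Q : Ideal (MvPolynomial (Option {j : ι // j ≠ s}) O)), Q.IsPrime →
    (∀ r : O, C r ∈ Q ↔ r ∈ 𝔭) → dehW s P ∈ Q → (∃ j, pderiv j (dehW s P) ∉ Q) ∨
      ∀ h, h ∉ Q → h * dehW s P ∉ Q ^ 2

theorem tauW_self {R ι : Type} [CommRing R] [DecidableEq ι] (s : ι) :
    (tauW s (some s) : MvPolynomial (Option {i : ι // i ≠ s}) R) = 1 := by
  simp [tauW]

theorem map_dehW {O R ι : Type} [CommRing O] [CommRing R] [DecidableEq ι] (φ : O →+* R) (s : ι)
    (P : MvPolynomial (Option ι) O) : map φ (dehW s P) = dehW s (map φ P) := by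
  induction P using MvPolynomial.induction_on with
  | C a => simp [dehW]
  | add p q hp hq => simp only [dehW, map_add] at hp hq ⊢; rw [hp, hq]
  | mul_X p i hp =>
    simp only [dehW, map_mul, aeval_X, map_X] at hp ⊢
    rw [hp]
    congr 1
    rcases i with _ | i
    · simp [tauW]
    · by_cases h : i = s <;> simp [tauW, h]

theorem pderiv_dehW {R ι : Type} [CommRing R] [DecidableEq ι] (s : ι)
    (j : Option {j : ι // j ≠ s}) (P : MvPolynomial (Option ι) R) :
    pderiv j (dehW s P) = dehW s (pderiv (j.map Subtype.val) P) := by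
  induction P using MvPolynomial.induction_on with
  | C a => simp [dehW]
  | add p q hp hq => simp only [dehW, map_add] at hp hq ⊢; rw [hp, hq]
  | mul_X p i hp =>
    simp only [dehW, map_mul, aeval_X] at hp ⊢
    rw [Derivation.leibniz, Derivation.leibniz, hp]
    simp only [smul_eq_mul, map_add, map_mul, aeval_X]
    congr 1
    rcases i with _ | i <;> rcases j with _ | j
    · simp [tauW]
    · rw [pderiv_X_of_ne (by simp)]
      simp [tauW]
    · rw [pderiv_X_of_ne (by simp)]
      simp only [tauW]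
      split_ifs with h'
      · simp
      · rw [pderiv_X_of_ne (by simp)]
        simp
    · simp only [Option.map_some, tauW]
      by_cases h : i = (j : ι)
      · subst h
        rw [dif_neg j.2]
        simp
      · rw [pderiv_X_of_ne (by simpa using h), map_zero]
        split_ifs with h'
        · simp
        · rw [pderiv_X_of_ne]
          intro h2
          apply h
          have h3 := Option.some.inj h2
          exact congrArg Subtype.val h3

/-- The criterion over the localization. -/
theorem crit_locW {O R ι : Type} [CommRing O] [CommRing R] [Algebra O R] [DecidableEq ι]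
    (𝔭 : Ideal O) [𝔭.IsPrime] [IsLocalization.AtPrime R 𝔭]
    (hinj : Function.Injective (algebraMap O R)) (P : MvPolynomial (Option ι) O) (h : CritW 𝔭 P)
    (s : ι) (Q : Ideal (MvPolynomial (Option {j : ι // j ≠ s}) R)) (hQ : Q.IsPrime)
    (hG : dehW s (map (algebraMap O R) P) ∈ Q) (hCQ : ∀ r : R, C r ∈ Q ↔ ¬ IsUnit r) :
    (∃ j, pderiv j (dehW s (map (algebraMap O R) P)) ∉ Q) ∨
      ∀ h, h ∉ Q → h * dehW s (map (algebraMap O R) P) ∉ Q ^ 2 := by
  set φ : MvPolynomial (Option {j : ι // j ≠ s}) O →+* MvPolynomial (Option {j : ι // j ≠ s}) R :=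
    map (algebraMap O R) with hφ
  have hφi : Function.Injective φ := map_injective _ hinj
  have hp : (Q.comap φ).IsPrime := Ideal.comap_isPrime _ _
  have hC : ∀ r : O, C r ∈ Q.comap φ ↔ r ∈ 𝔭 := by
    intro r
    rw [Ideal.mem_comap, hφ, map_C, hCQ, IsLocalization.AtPrime.isUnit_to_map_iff R 𝔭 r]
    simp
  have hs : ∀ r : O, r ∈ 𝔭.primeCompl → (C (algebraMap O R r) : MvPolynomial _ R) ∉ Q := by
    intro r hr h1
    rw [hCQ] at h1
    exact h1 (IsLocalization.map_units R (⟨r, hr⟩ : 𝔭.primeCompl))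
  have hdeh : φ (dehW s P) = dehW s (map (algebraMap O R) P) := map_dehW _ _ _
  have hE : dehW s P ∈ Q.comap φ := by
    rw [Ideal.mem_comap, hdeh]
    exact hG
  rcases h s (Q.comap φ) hp hC hE with ⟨j, hj⟩ | h1
  · left
    refine ⟨j, fun h2 => hj ?_⟩
    rw [Ideal.mem_comap, hφ, ← pderiv_map, ← hφ, hdeh]
    exact h2
  · right
    intro f hf hfQ
    obtain ⟨a, ha, y, hy⟩ := clear_poly 𝔭.primeCompl f
    obtain ⟨b, hb, z, hzQ, hz⟩ := clear_sq 𝔭.primeCompl Q _ hfQ
    have hyQ : y ∉ Q.comap φ := by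
      rw [Ideal.mem_comap, hφ, hy]
      intro h2
      exact (hQ.mem_or_mem h2).elim (hs a ha) hf
    have hbQ : C b ∉ Q.comap φ := by
      rw [hC]
      exact hb
    have h3 : C b * y ∉ Q.comap φ := fun h4 => (hp.mem_or_mem h4).elim hbQ hyQ
    apply h1 _ h3
    have h5 : C b * y * dehW s P = C a * z := by
      apply hφi
      have hy' : φ y = C (algebraMap O R a) * f := hy
      have hz' : φ z = C (algebraMap O R b) * (f * dehW s (map (algebraMap O R) P)) := hz
      have hCa : φ (C a) = C (algebraMap O R a) := map_C _ _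
      have hCb : φ (C b) = C (algebraMap O R b) := map_C _ _
      rw [map_mul, map_mul, map_mul, hdeh, hy', hz', hCa, hCb]
      ring
    rw [h5]
    exact Ideal.mul_mem_left _ _ hzQ

/-- All the partial derivatives are in `Q` if those in the chart are. -/
theorem all_pderiv_memW {O ι : Type} [CommRing O] [Fintype ι] [DecidableEq ι] (e : ℕ)
    (P : MvPolynomial (Option ι) O) (N : ℕ) (hP : P.IsWeightedHomogeneous (wt e) N) (s : ι)
    (Q : Ideal (MvPolynomial (Option {j : ι // j ≠ s}) O)) (hGQ : dehW s P ∈ Q)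
    (h : ∀ j : Option {j : ι // j ≠ s}, pderiv j (dehW s P) ∈ Q) (j : Option ι) :
    dehW s (pderiv j P) ∈ Q := by
  have hne : ∀ j : Option ι, j ≠ some s → dehW s (pderiv j P) ∈ Q := by
    intro j hj
    rcases j with _ | j
    · have h5 := h none
      rwa [pderiv_dehW] at h5
    · have hjs : j ≠ s := fun h => hj (by rw [h])
      have h5 := h (some ⟨j, hjs⟩)
      rwa [pderiv_dehW] at h5
  by_cases hj : j = some s
  · subst hj
    have h1 := congrArg (aeval (tauW s) : MvPolynomial (Option ι) O →ₐ[O] MvPolynomial _ O)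
      hP.sum_weight_X_mul_pderiv
    rw [map_sum, map_nsmul] at h1
    rw [Finset.sum_eq_add_sum_sdiff_singleton_of_mem (Finset.mem_univ (some s))] at h1
    simp only [map_nsmul, map_mul, aeval_X] at h1
    have h2 : (tauW s (some s) : MvPolynomial (Option {i : ι // i ≠ s}) O) = 1 := tauW_self s
    rw [h2, one_mul, wt_some, one_smul] at h1
    have h3 : dehW s (pderiv (some s) P) = N • dehW s P -
        ∑ i ∈ Finset.univ \ {some s}, wt e i • (tauW s i * dehW s (pderiv i P)) := by
      rw [eq_sub_iff_add_eq]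
      exact h1
    rw [h3]
    refine Ideal.sub_mem _ (Submodule.smul_of_tower_mem _ _ hGQ) (Ideal.sum_mem _ fun i hi => ?_)
    refine Submodule.smul_of_tower_mem _ _ (Ideal.mul_mem_left _ _ ?_)
    refine hne i fun h4 => ?_
    rw [h4] at hi
    simp at hi
  · exact hne j hj

theorem crit_of_smoothW {O ι : Type} [CommRing O] [Fintype ι] [DecidableEq ι] (e : ℕ)
    (𝔭 : Ideal O)
    (P : MvPolynomial (Option ι) O) (N : ℕ) (hP : P.IsWeightedHomogeneous (wt e) N)
    (h : ∀ i : ι, ∃ c : O, c ∉ 𝔭 ∧ ∃ k : ℕ,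
      C c * X (some i) ^ k ∈ Ideal.span (Set.range fun j => pderiv j P)) :
    CritW 𝔭 P := by
  intro s Q hQ hCQ hGQ
  left
  by_contra hcon
  push Not at hcon
  have hall := all_pderiv_memW e P N hP s Q hGQ hcon
  obtain ⟨c, hc, k, hk⟩ := h s
  have h1 : Ideal.span (Set.range fun j => pderiv j P) ≤ Q.comap
      ((aeval (tauW s) : MvPolynomial (Option ι) O →ₐ[O]
        MvPolynomial (Option {j : ι // j ≠ s}) O) : _ →+* _) := by
    rw [Ideal.span_le]
    rintro _ ⟨j, rfl⟩
    exact hall j
  have h2 : (aeval (tauW s) : MvPolynomial (Option ι) O →ₐ[O]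
      MvPolynomial (Option {j : ι // j ≠ s}) O) (C c * X (some s) ^ k) ∈ Q := h1 hk
  have h3 : (tauW s (some s) : MvPolynomial (Option {i : ι // i ≠ s}) O) = 1 := tauW_self s
  rw [map_mul, map_pow, aeval_X, h3, one_pow, mul_one, aeval_C] at h2
  exact hc ((hCQ c).1 h2)

end Pool.Agent.R187.WC
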