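import Mathlib

/-! A Dedekind domain of the form `O[X] / (g)` is regular in the sense of the other files. -/

set_option autoImplicit false
set_option linter.unusedSectionVars false
set_option linter.unusedVariables false

open Polynomial

namespace Pool.Agent.R187.WC

theorem reg_of_dedekind {O : Type} [CommRing O] [IsDomain O] [IsNoetherianRing O]
    (g : Polynomial O) (hg : g.Monic) {B : Type} [CommRing B] [IsDedekindDomain B]
    (π : Polynomial O →+* B) (hπ : Function.Surjective π) (hker : RingHom.ker π = Ideal.span {g})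
    (𝔮 : Ideal (Polynomial O)) (hq : 𝔮.IsPrime) (hgq : g ∈ 𝔮) (h : Polynomial O) (hh : h ∉ 𝔮) :
    h * g ∉ 𝔮 ^ 2 := by
  intro hcon
  have hkq : RingHom.ker π ≤ 𝔮 := by
    rw [hker, Ideal.span_singleton_le_iff_mem]
    exact hgq
  have hcomap : (𝔮.map π).comap π = 𝔮 := by
    rw [Ideal.comap_map_of_surjective π hπ]
    exact sup_eq_left.2 hkq
  have hmem : ∀ x, π x ∈ 𝔮.map π ↔ x ∈ 𝔮 := by
    intro x
    rw [← Ideal.mem_comap, hcomap]
  have hqb : (𝔮.map π).IsPrime := Ideal.map_isPrime_of_surjective hπ hkq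
  by_cases hbot : 𝔮.map π = ⊥
  · have h1 : 𝔮 ≤ Ideal.span {g} := by
      rw [← hker]
      intro x hx
      have h2 := (hmem x).2 hx
      rw [hbot, Ideal.mem_bot] at h2
      exact h2
    have h2 := Ideal.pow_right_mono h1 2 hcon
    rw [Ideal.span_singleton_pow, Ideal.mem_span_singleton] at h2
    obtain ⟨k, hk⟩ := h2
    have h3 : h = g * k := by
      have h4 : g * h = g * (g * k) := by
        rw [mul_comm g h, hk]
        ring
      exact mul_left_cancel₀ hg.ne_zero h4
    exact hh (h3 ▸ 𝔮.mul_mem_right _ hgq)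
  · -- a uniformizer
    obtain ⟨t, s, htq, hsq, hst⟩ : ∃ t s : Polynomial O, t ∈ 𝔮 ∧ s ∉ 𝔮 ∧
        ∀ x ∈ 𝔮, s * x ∈ Ideal.span {t} ⊔ Ideal.span {g} := by
      have hne : (𝔮.map π) ^ 2 ≠ 𝔮.map π := by
        intro h1
        have h2 : (𝔮.map π) ^ 2 < (𝔮.map π) ^ 1 :=
          Ideal.pow_right_strictAnti _ hbot hqb.ne_top (by norm_num)
        rw [pow_one, h1] at h2
        exact lt_irrefl _ h2
      obtain ⟨tb, htb, htb2⟩ : ∃ tb ∈ 𝔮.map π, tb ∉ (𝔮.map π) ^ 2 := by
        by_contra hcon2
        push Not at hcon2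
        exact hne (le_antisymm (Ideal.pow_le_self (by norm_num)) hcon2)
      obtain ⟨J, hJ⟩ : 𝔮.map π ∣ Ideal.span {tb} := by
        rw [Ideal.dvd_iff_le, Ideal.span_singleton_le_iff_mem]
        exact htb
      have hJn : ¬ J ≤ 𝔮.map π := by
        intro h1
        apply htb2
        rw [pow_two]
        refine Ideal.mul_mono_right h1 ?_
        rw [← hJ]
        exact Ideal.mem_span_singleton_self _
      obtain ⟨sb, hsb, hsbn⟩ := Set.not_subset.1 hJn
      obtain ⟨t, rfl⟩ := hπ tb
      obtain ⟨s, rfl⟩ := hπ sb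
      refine ⟨t, s, (hmem t).1 htb, fun h1 => hsbn ((hmem s).2 h1), fun x hx => ?_⟩
      have h1 : π s * π x ∈ Ideal.span {π t} := by
        rw [hJ, mul_comm (π s)]
        exact Ideal.mul_mem_mul ((hmem x).2 hx) hsb
      obtain ⟨y, hy⟩ := Ideal.mem_span_singleton'.1 h1
      obtain ⟨y, rfl⟩ := hπ y
      have h2 : s * x - y * t ∈ RingHom.ker π := by
        rw [RingHom.mem_ker, map_sub, map_mul, map_mul, hy, sub_self]
      rw [hker] at h2
      have h3 : s * x = y * t + (s * x - y * t) := by ring
      rw [h3]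
      exact Submodule.add_mem_sup (Ideal.mul_mem_left _ _ (Ideal.mem_span_singleton_self t)) h2
    -- the contraction to `O` is not zero
    let _ : Algebra O B := (π.comp C).toAlgebra
    have hXint : IsIntegral O (π X) := by
      refine ⟨g, hg, ?_⟩
      change eval₂ (π.comp C) (π X) g = 0
      rw [← hom_eval₂, eval₂_C_X]
      have h1 : g ∈ RingHom.ker π := by
        rw [hker]
        exact Ideal.mem_span_singleton_self g
      exact h1
    have hint : ∀ x : B, IsIntegral O x := by
      intro x
      obtain ⟨f, rfl⟩ := hπ x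
      have h1 : π f = aeval (π X) f := by
        change π f = eval₂ (π.comp C) (π X) f
        rw [← hom_eval₂, eval₂_C_X]
      rw [h1]
      exact adjoin_le_integralClosure hXint (aeval_mem_adjoin_singleton O (π X))
    have hp0 : (𝔮.map π).comap (algebraMap O B) ≠ ⊥ := by
      obtain ⟨x, hx, hx0⟩ := Submodule.exists_mem_ne_zero_of_ne_bot hbot
      exact Ideal.comap_ne_bot_of_integral_mem hx0 hx (hint x)
    let 𝔭 : Ideal O := 𝔮.comap (C : O →+* Polynomial O)
    have hp : 𝔭.IsPrime := Ideal.comap_isPrime _ _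
    have hpp : (𝔮.map π).comap (algebraMap O B) = 𝔭 := by
      ext r
      exact hmem (C r)
    rw [hpp] at hp0
    let P : Ideal (Polynomial O) := 𝔭.map C
    have hP : P.IsPrime := Ideal.isPrime_map_C_of_isPrime
    have hPq : P ≤ 𝔮 := Ideal.map_le_iff_le_comap.2 le_rfl
    have hgP : g ∉ P := by
      intro h1
      have h2 := Ideal.mem_map_C_iff.1 h1 g.natDegree
      rw [hg.coeff_natDegree] at h2
      exact (Ideal.ne_top_iff_one 𝔭).1 hp.ne_top h2
    have hP0 : P ≠ ⊥ := by
      intro h1
      apply hp0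
      rw [eq_bot_iff]
      intro r hr
      have h2 : C r ∈ P := Ideal.mem_map_of_mem C hr
      rw [h1, Ideal.mem_bot, C_eq_zero] at h2
      exact h2
    -- the local ring
    let L := Localization.AtPrime 𝔮
    have hinj : Function.Injective (algebraMap (Polynomial O) L) :=
      IsLocalization.injective L 𝔮.primeCompl_le_nonZeroDivisors
    have hm : 𝔮.map (algebraMap (Polynomial O) L) = IsLocalRing.maximalIdeal L :=
      Localization.AtPrime.map_eq_maximalIdeal
    have hunit : ∀ x, x ∉ 𝔮 → IsUnit (algebraMap (Polynomial O) L x) := fun x hx =>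
      (IsLocalization.AtPrime.isUnit_to_map_iff L 𝔮 x).2 hx
    have hgm : algebraMap (Polynomial O) L g ∈ IsLocalRing.maximalIdeal L ^ 2 := by
      rw [← hm, ← Ideal.map_pow]
      have h1 := Ideal.mem_map_of_mem (algebraMap (Polynomial O) L) hcon
      rw [map_mul] at h1
      exact (Ideal.unit_mul_mem_iff_mem _ (hunit h hh)).1 h1
    have hNak : IsLocalRing.maximalIdeal L ≤
        Ideal.span {algebraMap (Polynomial O) L t} ⊔
          IsLocalRing.maximalIdeal L • IsLocalRing.maximalIdeal L := by
      nth_rewrite 1 [← hm]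
      rw [Ideal.map_le_iff_le_comap]
      intro x hx
      rw [Ideal.mem_comap]
      have h1 := Ideal.mem_map_of_mem (algebraMap (Polynomial O) L) (hst x hx)
      rw [map_mul, Ideal.unit_mul_mem_iff_mem _ (hunit s hsq), Ideal.map_sup, Ideal.map_span,
        Ideal.map_span, Set.image_singleton, Set.image_singleton] at h1
      have h2 : Ideal.span {algebraMap (Polynomial O) L t} ⊔
          Ideal.span {algebraMap (Polynomial O) L g} ≤
          Ideal.span {algebraMap (Polynomial O) L t} ⊔
            IsLocalRing.maximalIdeal L • IsLocalRing.maximalIdeal L := by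
        refine sup_le_sup le_rfl ?_
        rw [Ideal.span_singleton_le_iff_mem, smul_eq_mul, ← pow_two]
        exact hgm
      exact h2 h1
    have hle : IsLocalRing.maximalIdeal L ≤ Ideal.span {algebraMap (Polynomial O) L t} := by
      refine Submodule.le_of_le_smul_of_le_jacobson_bot (IsNoetherian.noetherian _) ?_ hNak
      rw [IsLocalRing.jacobson_eq_maximalIdeal ⊥ bot_ne_top]
    have hprin : (IsLocalRing.maximalIdeal L).IsPrincipal := by
      refine ⟨⟨algebraMap (Polynomial O) L t, le_antisymm hle ?_⟩⟩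
      rw [Ideal.submodule_span_eq, Ideal.span_singleton_le_iff_mem, ← hm]
      exact Ideal.mem_map_of_mem _ htq
    have hdisj : Disjoint (𝔮.primeCompl : Set (Polynomial O)) (P : Set (Polynomial O)) := by
      rw [Set.disjoint_left]
      intro x hx hxP
      exact hx (hPq hxP)
    have hP' : (P.map (algebraMap (Polynomial O) L)).IsPrime :=
      IsLocalization.isPrime_of_isPrime_disjoint 𝔮.primeCompl L P hP hdisj
    have hP'0 : P.map (algebraMap (Polynomial O) L) ≠ ⊥ := by
      rw [Ne, Ideal.map_eq_bot_iff_of_injective hinj]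
      exact hP0
    have hnf : ¬ IsField L := by
      intro hf
      obtain ⟨x, hx, hx0⟩ := Submodule.exists_mem_ne_zero_of_ne_bot hP'0
      obtain ⟨y, hy⟩ := hf.mul_inv_cancel hx0
      refine hP'.ne_top ((Ideal.eq_top_iff_one _).2 ?_)
      rw [← hy]
      exact Ideal.mul_mem_right _ _ hx
    have hded : IsDedekindDomain L := ((IsDiscreteValuationRing.TFAE L hnf).out 4 2).1 hprin
    have hmax := hP'.isMaximal hP'0
    have heq := IsLocalRing.eq_maximalIdeal hmax
    have h1 : P = 𝔮 := by
      have h2 := IsLocalization.comap_map_of_isPrime_disjoint 𝔮.primeCompl L hP hdisj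
      rw [← h2, heq]
      exact Localization.AtPrime.comap_maximalIdeal
    exact hgP (h1 ▸ hgq)

end Pool.Agent.R187.WC
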