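import Pool.Agent.TH214.RM.Good

/-! Weighted hypersurfaces `P(x, w) = 0`, monic in the variable `w` of degree `e`: the local rings
of the charts. -/

set_option autoImplicit false
set_option linter.unusedSectionVars false
set_option linter.unusedVariables false

open scoped Pointwise

namespace Pool.Agent.R187.WC

open Pool.Agent.H918R2.Quad Pool.Agent.H945R2.D MvPolynomial

/-- The weights: the variable `none` has weight `e`, the others have weight one. -/
def wt {ι : Type} (e : ℕ) : Option ι → ℕ := fun o => o.elim e (fun _ => 1)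

theorem wt_none {ι : Type} (e : ℕ) : wt (ι := ι) e none = e := rfl
theorem wt_some {ι : Type} (e : ℕ) (i : ι) : wt e (some i) = 1 := rfl

theorem weight_eq {ι : Type} [Fintype ι] (e : ℕ) (s : Option ι →₀ ℕ) :
    Finsupp.weight (wt e) s = s none * e + ∑ j, s (some j) := by
  classical
  rw [Finsupp.weight_apply, Finsupp.sum_fintype _ _ (by simp), Fintype.sum_option]
  simp [wt_none, wt_some]

theorem aeval_scaleW {R A ι : Type} [CommRing R] [CommRing A] [Algebra R A] (e : ℕ)
    (v : Option ι → A) (T : A) (N : ℕ) (P : MvPolynomial (Option ι) R)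
    (hP : P.IsWeightedHomogeneous (wt e) N) :
    aeval (fun j => v j * T ^ wt e j) P = aeval v P * T ^ N := by
  classical
  rw [aeval_def, eval₂_eq, aeval_def, eval₂_eq, Finset.sum_mul]
  refine Finset.sum_congr rfl fun s hs => ?_
  have h1 : Finsupp.weight (wt e) s = N := by
    by_contra hne
    exact (mem_support_iff.1 hs) (hP.coeff_eq_zero s hne)
  simp only [mul_pow]
  rw [Finset.prod_mul_distrib, ← h1, Finsupp.weight_apply, Finsupp.sum]
  simp only [← pow_mul]
  rw [Finset.prod_pow_eq_pow_sum, mul_assoc]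
  congr 3
  refine Finset.sum_congr rfl fun i _ => ?_
  rw [smul_eq_mul, mul_comm]

/-- Substitution for the chart `X s = 1`. -/
noncomputable def tauW {ι R : Type} [CommRing R] [DecidableEq ι] (s : ι) :
    Option ι → MvPolynomial (Option {j : ι // j ≠ s}) R
  | none => X none
  | some j => if h : j = s then 1 else X (some ⟨j, h⟩)

/-- Substitute `X s = 1`. -/
noncomputable def dehW {ι R : Type} [CommRing R] [DecidableEq ι] (s : ι)
    (P : MvPolynomial (Option ι) R) : MvPolynomial (Option {j : ι // j ≠ s}) R :=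
  aeval (tauW s) P

theorem aeval_tauW {R A ι : Type} [CommRing R] [CommRing A] [Algebra R A] [DecidableEq ι] (s : ι)
    (t : Option ι → A) (hs : t (some s) = 1) (j : Option ι) :
    aeval (fun o : Option {j : ι // j ≠ s} => t (o.map Subtype.val)) (tauW (R := R) s j) = t j := by
  cases j with
  | none => simp [tauW]
  | some j =>
    unfold tauW
    by_cases h : j = s
    · subst h
      simp [hs]
    · simp [h]

theorem aeval_dehW {R A ι : Type} [CommRing R] [CommRing A] [Algebra R A] [DecidableEq ι] (s : ι)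
    (t : Option ι → A) (hs : t (some s) = 1) (P : MvPolynomial (Option ι) R) :
    aeval (fun o : Option {j : ι // j ≠ s} => t (o.map Subtype.val)) (dehW s P) = aeval t P := by
  unfold dehW
  rw [← AlgHom.comp_apply]
  congr 1
  apply MvPolynomial.algHom_ext
  intro j
  rw [AlgHom.comp_apply, aeval_X, aeval_X]
  exact aeval_tauW s t hs j

theorem dehW_ne_zero {R ι : Type} [CommRing R] [IsDomain R] [DecidableEq ι] (e : ℕ) (s : ι)
    (P : MvPolynomial (Option ι) R) (hP : P ≠ 0) (N : ℕ)
    (hPN : P.IsWeightedHomogeneous (wt e) N) : dehW s P ≠ 0 := by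
  intro h
  let L := MvPolynomial (Option ι) R
  let Ω := FractionRing L
  have hinj : Function.Injective (algebraMap L Ω) := IsFractionRing.injective L Ω
  let T : Ω := (algebraMap L Ω (X (some s)))⁻¹
  have hXs : algebraMap L Ω (X (some s)) ≠ 0 := by
    rw [Ne, map_eq_zero_iff _ hinj]
    exact X_ne_zero _
  let t : Option ι → Ω := fun i => algebraMap L Ω (X i) * T ^ wt e i
  have hts : t (some s) = 1 := by
    change algebraMap L Ω (X (some s)) * T ^ 1 = 1
    rw [pow_one]
    exact mul_inv_cancel₀ hXs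
  have h1 := aeval_dehW s t hts P
  rw [h, map_zero, aeval_scaleW e _ T N P hPN] at h1
  have h2 : aeval (fun i => algebraMap L Ω (X i)) P = algebraMap L Ω P := by
    have h3 : (aeval (fun i => algebraMap L Ω (X i)) : MvPolynomial (Option ι) R →ₐ[R] Ω) =
        (IsScalarTower.toAlgHom R L Ω) := by
      apply MvPolynomial.algHom_ext
      intro j
      rw [aeval_X]
      rfl
    rw [h3]
    rfl
  rw [h2] at h1
  have h4 : T ^ N ≠ 0 := pow_ne_zero _ (inv_ne_zero hXs)
  have h5 : algebraMap L Ω P = 0 := by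
    rcases mul_eq_zero.1 h1.symm with h | h
    · exact h
    · exact absurd h h4
  exact hP ((map_eq_zero_iff _ hinj).1 h5)

/-- The coordinates: the products of `e` of the coordinates of weight one, and the coordinate of
weight `e`. -/
def zz {ι F : Type} [CommMonoid F] (e : ℕ) (v : Option ι → F) : (Fin e → ι) ⊕ Unit → F
  | .inl φ => ∏ k, v (some (φ k))
  | .inr _ => v none

section

variable {ι F : Type} [Field F]

theorem prod_mem_range_pow (x : ι → F) (α : ι → ℕ) (T : Finset ι) :
    ∏ j ∈ T, x j ^ α j ∈ Set.range x ^ (∑ j ∈ T, α j) := by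
  classical
  induction T using Finset.induction_on with
  | empty => simp
  | insert a T ha ih =>
    rw [Finset.prod_insert ha, Finset.sum_insert ha, pow_add]
    exact Set.mul_mem_mul (Set.pow_mem_pow ⟨a, rfl⟩) ih

theorem range_prods (x : ι → F) (e : ℕ) :
    Set.range (fun φ : Fin e → ι => ∏ k, x (φ k)) = Set.range x ^ e := by
  ext g
  rw [Pool.Agent.H945R2.D.GD1aux.mem_range_pow]
  constructor
  · rintro ⟨φ, rfl⟩
    exact ⟨φ, rfl⟩
  · rintro ⟨φ, rfl⟩
    exact ⟨φ, rfl⟩

theorem mem_range_pow_mul (x : ι → F) (e D : ℕ) (g : F) :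
    g ∈ Set.range x ^ (e * D) ↔ ∃ ψ : Fin D → (Fin e → ι), g = ∏ i, ∏ k, x (ψ i k) := by
  rw [pow_mul, ← range_prods, Pool.Agent.H945R2.D.GD1aux.mem_range_pow]

variable {𝒪 : Subring F}

theorem U_prod {α : Type} (S : Finset α) (g : α → F) (h : ∀ a ∈ S, U 𝒪 (g a)) :
    U 𝒪 (∏ a ∈ S, g a) := by
  classical
  induction S using Finset.induction_on with
  | empty => simpa using U_one
  | insert a T ha ih =>
    rw [Finset.prod_insert ha]
    exact (h a (Finset.mem_insert_self _ _)).mul (ih fun b hb => h b (Finset.mem_insert_of_mem hb))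

theorem U_neg {x : F} (h : U 𝒪 x) : U 𝒪 (-x) :=
  ⟨neg_ne_zero.2 h.1, 𝒪.neg_mem h.2.1, by rw [inv_neg]; exact 𝒪.neg_mem h.2.2⟩

theorem not_U_sum (hloc : IsLoc 𝒪) {α : Type} (S : Finset α) (g : α → F)
    (hg : ∀ a ∈ S, g a ∈ 𝒪 ∧ ¬ U 𝒪 (g a)) : (∑ a ∈ S, g a) ∈ 𝒪 ∧ ¬ U 𝒪 (∑ a ∈ S, g a) := by
  classical
  induction S using Finset.induction_on with
  | empty => simpa using not_U_zero
  | insert a T ha ih =>
    rw [Finset.sum_insert ha]
    have h1 := hg a (Finset.mem_insert_self _ _)
    have h2 := ih fun b hb => hg b (Finset.mem_insert_of_mem hb)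
    exact ⟨𝒪.add_mem h1.1 h2.1, fun h => (hloc _ _ h1.1 h2.1 h).elim h1.2 h2.2⟩

theorem mem_of_prod {α : Type} (S : Finset α) (g : α → F) (hg : ∀ a ∈ S, g a ∈ 𝒪) :
    (∏ a ∈ S, g a) ∈ 𝒪 := 𝒪.prod_mem hg

/-- If the quotients of the products of `e` coordinates by `w` are in the local ring then one of
them is a unit. -/
theorem exists_phi {R : Type} [CommRing R] [Algebra R F] [Fintype ι] (hloc : IsLoc 𝒪)
    (hR : ∀ r : R, algebraMap R F r ∈ 𝒪) (e m : ℕ) (he : 1 ≤ e) (P : MvPolynomial (Option ι) R)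
    (hP : P.IsWeightedHomogeneous (wt e) (m * e)) (v : Option ι → F) (hv : v none ≠ 0)
    (hc : U 𝒪 (algebraMap R F (coeff (Finsupp.single none m) P))) (hrel : aeval v P = 0)
    (h : ∀ φ : Fin e → ι, (∏ k, v (some (φ k))) / v none ∈ 𝒪) :
    ∃ φ : Fin e → ι, U 𝒪 ((∏ k, v (some (φ k))) / v none) := by
  classical
  by_contra hcon
  push Not at hcon
  let s₀ : Option ι →₀ ℕ := Finsupp.single none m
  have hs₀ : ∏ i, v i ^ s₀ i = v none ^ m := by
    rw [Fintype.prod_option]
    simp [s₀]
  have hvm : v none ^ m ≠ 0 := pow_ne_zero m hv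
  -- the terms
  let g : (Option ι →₀ ℕ) → F := fun s => algebraMap R F (coeff s P) * (∏ i, v i ^ s i) / v none ^ m
  have hterm : ∀ s ∈ P.support.erase s₀, g s ∈ 𝒪 ∧ ¬ U 𝒪 (g s) := by
    intro s hs
    rw [Finset.mem_erase] at hs
    obtain ⟨hs1, hs2⟩ := hs
    have hw : s none * e + ∑ j, s (some j) = m * e := by
      rw [← weight_eq]
      by_contra hne
      exact (mem_support_iff.1 hs2) (hP.coeff_eq_zero s hne)
    have ha : s none < m := by
      by_contra hge
      push Not at hge
      have h1 : m * e ≤ s none * e := Nat.mul_le_mul_right e hge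
      have h2 : ∑ j, s (some j) = 0 := by omega
      have h3 : s none * e = m * e := by omega
      have h4 : s none = m := Nat.eq_of_mul_eq_mul_right (by omega) h3
      apply hs1
      ext o
      cases o with
      | none => simp [s₀, h4]
      | some j =>
        have h5 := (Finset.sum_eq_zero_iff.1 h2) j (Finset.mem_univ j)
        simp [s₀, h5]
    obtain ⟨c, hcm⟩ : ∃ c, m = s none + (c + 1) := ⟨m - s none - 1, by omega⟩
    have hsum : ∑ j, s (some j) = e * (c + 1) := by
      have h1 : m * e = s none * e + e * (c + 1) := by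
        rw [hcm]; ring
      omega
    have hmem := prod_mem_range_pow (fun j => v (some j)) (fun j => s (some j)) Finset.univ
    rw [hsum, mem_range_pow_mul] at hmem
    obtain ⟨ψ, hψ⟩ := hmem
    have hg : g s = algebraMap R F (coeff s P) * ∏ i, ((∏ k, v (some (ψ i k))) / v none) := by
      have h1 : ∏ i, v i ^ s i = v none ^ s none * ∏ j, v (some j) ^ s (some j) :=
        Fintype.prod_option _
      have h2 : v none ^ m = v none ^ s none * v none ^ (c + 1) := by rw [← pow_add, ← hcm]
      change algebraMap R F (coeff s P) * (∏ i, v i ^ s i) / v none ^ m = _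
      rw [h1, h2, hψ, Finset.prod_div_distrib, Finset.prod_const, Finset.card_univ,
        Fintype.card_fin]
      field_simp
    rw [hg]
    constructor
    · exact 𝒪.mul_mem (hR _) (𝒪.prod_mem fun i _ => h _)
    · intro hU
      have h1 := hU.of_mul_right (hR _) (𝒪.prod_mem fun i _ => h _)
      rw [Fin.prod_univ_succ] at h1
      exact hcon _ (h1.of_mul_left (h _) (𝒪.prod_mem fun i _ => h _))
  have hs := not_U_sum hloc _ g hterm
  -- the sum
  have htot : ∑ s ∈ P.support, g s = 0 := by
    have h1 : ∑ s ∈ P.support, g s = aeval v P / v none ^ m := by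
      rw [aeval_def, eval₂_eq', Finset.sum_div]
    rw [h1, hrel, zero_div]
  by_cases hmem : s₀ ∈ P.support
  · rw [← Finset.add_sum_erase _ _ hmem] at htot
    have h1 : g s₀ = algebraMap R F (coeff s₀ P) := by
      change algebraMap R F (coeff s₀ P) * (∏ i, v i ^ s₀ i) / v none ^ m = _
      rw [hs₀, mul_div_assoc, div_self hvm, mul_one]
    rw [h1] at htot
    have h2 : ∑ s ∈ P.support.erase s₀, g s = -algebraMap R F (coeff s₀ P) := by
      linear_combination htot
    rw [h2] at hs
    exact hs.2 (U_neg hc)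
  · rw [notMem_support_iff] at hmem
    change U 𝒪 (algebraMap R F (coeff s₀ P)) at hc
    rw [hmem, map_zero] at hc
    exact not_U_zero hc

theorem range_zz (e : ℕ) (v : Option ι → F) :
    Set.range (zz e v) = Set.range (fun j => v (some j)) ^ e ∪ {v none} := by
  rw [← range_prods]
  ext g
  constructor
  · rintro ⟨φ | u, rfl⟩
    · exact Or.inl ⟨φ, rfl⟩
    · exact Or.inr rfl
  · rintro (⟨φ, rfl⟩ | h)
    · exact ⟨.inl φ, rfl⟩
    · exact ⟨.inr (), h.symm⟩

theorem sub_zz (e D : ℕ) (v : Option ι → F) :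
    Set.range (fun j => v (some j)) ^ (e * D) ⊆ Set.range (zz e v) ^ D := by
  rw [pow_mul]
  apply Set.pow_subset_pow_left
  rw [range_zz]
  exact Set.subset_union_left

/-- A generator of the unit ideal among the products of the coordinates of weight one. -/
theorem exists_x_gen {R : Type} [CommRing R] [Algebra R F] [Fintype ι] (hloc : IsLoc 𝒪)
    (hR : ∀ r : R, algebraMap R F r ∈ 𝒪) (e m : ℕ) (he : 1 ≤ e) (P : MvPolynomial (Option ι) R)
    (hP : P.IsWeightedHomogeneous (wt e) (m * e)) (v : Option ι → F)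
    (hc : U 𝒪 (algebraMap R F (coeff (Finsupp.single none m) P))) (hrel : aeval v P = 0)
    (D : ℕ) (f : F) (hG : ∀ h ∈ Set.range (zz e v) ^ D, h / f ∈ 𝒪) (g : F)
    (hg : g ∈ Set.range (zz e v) ^ D) (hU : U 𝒪 (g / f)) :
    ∃ g' ∈ Set.range (fun j => v (some j)) ^ (e * D), U 𝒪 (g' / f) := by
  classical
  obtain ⟨ψ, rfl⟩ := (Pool.Agent.H945R2.D.GD1aux.mem_range_pow _ D g).1 hg
  have hf : f ≠ 0 := by
    rintro rfl
    rw [div_zero] at hU
    exact not_U_zero hU
  have hne : ∏ i, zz e v (ψ i) ≠ 0 := by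
    intro h
    rw [h, zero_div] at hU
    exact not_U_zero hU
  have hne' : ∀ i, zz e v (ψ i) ≠ 0 := fun i h => hne (Finset.prod_eq_zero (Finset.mem_univ i) h)
  have key : ∃ φ₀ : Fin D → (Fin e → ι), ∀ i, U 𝒪 (zz e v (.inl (φ₀ i)) / zz e v (ψ i)) := by
    have hi : ∀ i, ∃ φ : Fin e → ι, U 𝒪 (zz e v (.inl φ) / zz e v (ψ i)) := by
      intro i
      rcases hψ : ψ i with φ | u
      · refine ⟨φ, ?_⟩
        have h1 := hne' i
        rw [hψ] at h1
        rw [div_self h1]
        exact U_one
      · have hv : v none ≠ 0 := by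
          have h1 := hne' i
          rw [hψ] at h1
          exact h1
        refine exists_phi hloc hR e m he P hP v hv hc hrel fun φ => ?_
        have h1 : (∏ k, zz e v (Function.update ψ i (.inl φ) k)) / f ∈ 𝒪 :=
          hG _ ((Pool.Agent.H945R2.D.GD1aux.mem_range_pow _ D _).2 ⟨_, rfl⟩)
        rw [Pool.Agent.H945R2.D.GD1aux.prod_update (zz e v) ψ i (.inl φ) (hne' i)] at h1
        have h2 : zz e v (.inl φ) / zz e v (ψ i) =
            ((∏ i, zz e v (ψ i)) * (zz e v (.inl φ) / zz e v (ψ i)) / f) *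
              ((∏ i, zz e v (ψ i)) / f)⁻¹ := by
          rw [inv_div]
          field_simp
        have h3 : zz e v (.inl φ) / zz e v (ψ i) ∈ 𝒪 := by
          rw [h2]
          exact 𝒪.mul_mem h1 hU.2.2
        rw [hψ] at h3
        exact h3
    choose φ₀ hφ₀ using hi
    exact ⟨φ₀, hφ₀⟩
  obtain ⟨φ₀, hφ₀⟩ := key
  refine ⟨∏ i, zz e v (.inl (φ₀ i)), ?_, ?_⟩
  · rw [mem_range_pow_mul]
    exact ⟨φ₀, rfl⟩
  · have h1 : (∏ i, zz e v (.inl (φ₀ i))) / f =
        ((∏ i, zz e v (ψ i)) / f) * ∏ i, (zz e v (.inl (φ₀ i)) / zz e v (ψ i)) := by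
      rw [Finset.prod_div_distrib]
      field_simp
    rw [h1]
    exact hU.mul (U_prod _ _ fun i _ => hφ₀ i)

end

/-- Regularity of the local rings of the weighted hypersurface `P = 0` over `R`. -/
theorem gdgW {R F ι : Type} [CommRing R] [IsDomain R] [IsRegularRing R] [Field F]
    [Algebra R F] [Fintype ι] [DecidableEq ι] (𝒪 : Subring F) (hloc : IsLoc 𝒪)
    (hR : ∀ r : R, algebraMap R F r ∈ 𝒪) (hRU : ∀ r : R, U 𝒪 (algebraMap R F r) → IsUnit r)
    (e m : ℕ) (he : 1 ≤ e)
    (P : MvPolynomial (Option ι) R) (hP0 : P ≠ 0)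
    (hPd : P.IsWeightedHomogeneous (wt e) (m * e))
    (hc : IsUnit (coeff (Finsupp.single none m) P))
    (hreg : ∀ (s : ι) (Q : Ideal (MvPolynomial (Option {j : ι // j ≠ s}) R)), Q.IsPrime →
      dehW s P ∈ Q → (∀ r : R, C r ∈ Q ↔ ¬ IsUnit r) → (∃ j, pderiv j (dehW s P) ∉ Q) ∨
        ∀ h, h ∉ Q → h * dehW s P ∉ Q ^ 2)
    (v : Option ι → F) (hrel : aeval v P = 0)
    (hind : ∀ s, v (some s) ≠ 0 → ∃ j₀ : Option {i : ι // i ≠ s},
      AlgebraicIndependent R (fun i : {i : Option {i : ι // i ≠ s} // i ≠ j₀} =>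
        v ((i : Option {i : ι // i ≠ s}).map Subtype.val) /
          v (some s) ^ wt e (i : Option {i : ι // i ≠ s})))
    (D : ℕ) (hD : 1 ≤ D) (f : F) (hf : f ≠ 0)
    (hfG : f ∈ Submodule.span R (Set.range (zz e v) ^ D))
    (hG : ∀ h ∈ Set.range (zz e v) ^ D, h / f ∈ 𝒪)
    (hloc2 : IsLocOf 𝒪 (chart R (Submodule.span R (Set.range (zz e v) ^ D)) f)) :
    IsRegularLocalRing 𝒪 := by
  have hcU : U 𝒪 (algebraMap R F (coeff (Finsupp.single none m) P)) := by
    obtain ⟨u, hu⟩ := hc
    rw [← hu]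
    have h1 : algebraMap R F (u : R) * algebraMap R F ((u⁻¹ : Rˣ) : R) = 1 := by
      rw [← map_mul, Units.mul_inv, map_one]
    refine ⟨left_ne_zero_of_mul_eq_one h1, hR _, ?_⟩
    rw [inv_eq_of_mul_eq_one_right h1]
    exact hR _
  obtain ⟨g₀, hg₀, hU₀⟩ := exists_U_gen hloc hR _ f hf hG hfG
  obtain ⟨g, hg, hU⟩ := exists_x_gen hloc hR e m he P hPd v hcU hrel D f hG g₀ hg₀ hU₀
  have hG2 : ∀ h ∈ Set.range (fun j => v (some j)) ^ (e * D), h / f ∈ 𝒪 :=
    fun h hh => hG h (sub_zz e D v hh)
  have heD : 1 ≤ e * D := Nat.mul_pos he hD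
  obtain ⟨s, hs, hz, hfh⟩ := Pool.Agent.H945R2.D.GD1aux.exists_coord 𝒪 (fun j => v (some j))
    (e * D) heD f hG2 g hg hU
  obtain ⟨j₀, hj₀⟩ := hind s hs
  set t : Option ι → F := fun j => v j / v (some s) ^ wt e j with ht
  have hts : t (some s) = 1 := by
    simp only [ht, wt_some, pow_one]
    exact div_self hs
  have htO : ∀ j, t j ∈ 𝒪 := by
    intro j
    cases j with
    | none =>
      -- `w / x_s ^ e`
      obtain ⟨D', rfl⟩ : ∃ D', D = D' + 1 := ⟨D - 1, by omega⟩
      have h1 : v none * v (some s) ^ (e * D') ∈ Set.range (zz e v) ^ (D' + 1) := by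
        rw [pow_succ', pow_mul]
        refine Set.mul_mem_mul ⟨.inr (), rfl⟩ ?_
        refine Set.pow_mem_pow ⟨.inl fun _ => s, ?_⟩
        simp [zz]
      have h2 := hG _ h1
      have h3 : t none = (v none * v (some s) ^ (e * D') / f) * (f / v (some s) ^ (e * (D' + 1))) := by
        simp only [ht, wt_none]
        rw [mul_add, mul_one, pow_add]
        field_simp
      rw [h3]
      exact 𝒪.mul_mem h2 hfh.2.1
    | some j =>
      simp only [ht, wt_some, pow_one]
      exact hz j
  set E : MvPolynomial (Option {j : ι // j ≠ s}) R := dehW s P with hE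
  let I : Ideal (MvPolynomial (Option {j : ι // j ≠ s}) R) := Ideal.span {E}
  let eW : MvPolynomial (Option {j : ι // j ≠ s}) R →ₐ[R] F :=
    aeval (fun o : Option {j : ι // j ≠ s} => t (o.map Subtype.val))
  have heC : ∀ r, eW (C r) = algebraMap R F r := fun r => aeval_C _ r
  have heX : ∀ j, eW (X j) = t (j.map Subtype.val) := fun j => aeval_X _ j
  have heW : ∀ w, eW w ∈ 𝒪 := by
    intro w
    induction w using MvPolynomial.induction_on with
    | C r => rw [heC]; exact hR r
    | add p q hp hq => rw [map_add]; exact 𝒪.add_mem hp hq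
    | mul_X p j hp => rw [map_mul, heX]; exact 𝒪.mul_mem hp (htO _)
  have hmap : ∀ j, eW (tauW s j) = t j := fun j => aeval_tauW s t hts j
  have hEt : eW E = 0 := by
    rw [hE]
    change aeval _ (dehW s P) = 0
    rw [aeval_dehW s t hts P]
    have h1 : t = fun j => v j * ((v (some s))⁻¹) ^ wt e j := by
      funext j
      simp only [ht]
      rw [div_eq_mul_inv, inv_pow]
    rw [h1, aeval_scaleW e v _ _ P hPd, hrel, zero_mul]
  have hI : ∀ w ∈ I, eW w = 0 := by
    intro w hw
    obtain ⟨c, rfl⟩ := Ideal.mem_span_singleton.1 hw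
    rw [map_mul, hEt, zero_mul]
  have hzt : ∀ j, v j = v (some s) ^ wt e j * eW (tauW s j) := by
    intro j
    rw [hmap]
    simp only [ht]
    field_simp
  have hzz : ∀ a, ∃ w, zz e v a = v (some s) ^ e * eW w := by
    intro a
    rcases a with φ | u
    · refine ⟨∏ k, tauW s (some (φ k)), ?_⟩
      rw [map_prod]
      change ∏ k, v (some (φ k)) = _
      have h1 : ∏ k, v (some (φ k)) = ∏ k, (v (some s) * eW (tauW s (some (φ k)))) :=
        Finset.prod_congr rfl fun k _ => by
          have := hzt (some (φ k))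
          rwa [wt_some, pow_one] at this
      rw [h1, Finset.prod_mul_distrib, Finset.prod_const, Finset.card_univ, Fintype.card_fin]
    · exact ⟨tauW s none, hzt none⟩
  have hG' : ∀ g ∈ Set.range (zz e v) ^ D, ∃ w, g = v (some s) ^ (e * D) * eW w := by
    intro g hg
    obtain ⟨φ, rfl⟩ := (Pool.Agent.H945R2.D.GD1aux.mem_range_pow _ D g).1 hg
    choose w hw using hzz
    refine ⟨∏ i, w (φ i), ?_⟩
    rw [map_prod]
    have h1 : ∏ i, zz e v (φ i) = ∏ i, (v (some s) ^ e * eW (w (φ i))) :=
      Finset.prod_congr rfl fun i _ => hw (φ i)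
    rw [h1, Finset.prod_mul_distrib, Finset.prod_const, Finset.card_univ, Fintype.card_fin, pow_mul]
  have hfrac := frac_of_chart eW heW (Set.range (zz e v) ^ D) f (v (some s) ^ (e * D))
    (pow_ne_zero _ hs) hG' hfG hfh hloc2
  have hEne : E ≠ 0 := dehW_ne_zero e s P hP0 _ hPd
  obtain ⟨A, _, _, pr, hpr, hprk, hpr0⟩ := exists_quot (R := R) I
  have haev : ∀ p : MvPolynomial (Option {j : ι // j ≠ s}) R,
      aeval (fun j : Option {j : ι // j ≠ s} =>
        (X j : MvPolynomial (Option {j : ι // j ≠ s}) R)) p = p := by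
    intro p
    rw [aeval_X_left_apply]
  refine regular_of_pres 𝒪 hloc pr hpr eW ?_ heW hfrac ?_
    (fun j : Option {j : ι // j ≠ s} => X j) E hEne ?_ j₀ ?_ ?_
  · intro w hw
    exact hI w ((hpr0 w).1 hw)
  · intro q hq hqm
    have hEq : pr E = 0 := (hpr0 E).2 (Ideal.mem_span_singleton_self _)
    let Q : Ideal (MvPolynomial (Option {j : ι // j ≠ s}) R) := q.comap (pr : _ →+* A)
    have hQ : Q.IsPrime := Ideal.comap_isPrime _ _
    have hEQ : E ∈ Q := by
      change pr E ∈ q
      rw [hEq]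
      exact q.zero_mem
    have hCQ : ∀ r : R, C r ∈ Q ↔ ¬ IsUnit r := by
      intro r
      change pr (C r) ∈ q ↔ _
      rw [hqm, heC]
      refine not_congr ⟨hRU r, fun h => ?_⟩
      obtain ⟨u, rfl⟩ := h
      have h1 : algebraMap R F (u : R) * algebraMap R F ((u⁻¹ : Rˣ) : R) = 1 := by
        rw [← map_mul, Units.mul_inv, map_one]
      refine ⟨left_ne_zero_of_mul_eq_one h1, hR _, ?_⟩
      rw [inv_eq_of_mul_eq_one_right h1]
      exact hR _
    rcases hreg s Q hQ hEQ hCQ with ⟨j, hj⟩ | h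
    · exact regular_of_pderiv E (pr : _ →+* A) hpr hprk q j hj
    · have hid : (q.comap (pr : _ →+* A)).map (RingHom.id _) = Q := Ideal.map_id _
      refine reg_crit_one (W := MvPolynomial (Option {j : ι // j ≠ s}) R) (pr : _ →+* A) hpr {E}
        (by rw [Finset.coe_singleton]; exact hprk) q (RingHom.id _)
        (fun z => ⟨z, rfl⟩) ?_ ∅ (by simp) ?_ E hEq ?_ ?_
      · intro z hz
        have h0 : z = 0 := by simpa using hz
        rw [h0]
        exact Ideal.zero_mem _
      · intro z hz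
        have h0 : z = 0 := by simpa using hz
        refine ⟨1, ?_, ?_⟩
        · rw [map_one]
          exact (Ideal.ne_top_iff_one q).1 hq.ne_top
        · rw [h0, mul_zero, map_zero]
          exact Ideal.zero_mem _
      · intro c hc
        rw [hid] at hc ⊢
        exact h c hc
      · simp
  · rw [haev, hpr0]
    exact Ideal.mem_span_singleton_self _
  · convert hj₀ using 2 with j
    rw [heX]
    simp only [ht]
    congr 1
    rcases j with ⟨_ | j, hj⟩ <;> rfl
  · intro w
    refine ⟨w, 1, by simp, ?_⟩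
    rw [haev 1, one_mul, haev]

end Pool.Agent.R187.WC
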