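import Pool.Agent.R187.WC.Crit
import Pool.Agent.TH214.RM.FF
import Pool.Agent.W418.Hyp1

/-! Smooth weighted hypersurfaces of positive dimension are irreducible; their function fields. -/

set_option autoImplicit false
set_option linter.unusedSectionVars false
set_option linter.unusedVariables false

namespace Pool.Agent.R187.WC

open MvPolynomial Cardinal Pool.Agent.TH214.RM

theorem unit_of_constW {K ι : Type} [Field K] (e : ℕ) (he : 1 ≤ e)
    (G A B : MvPolynomial (Option ι) K) (hG0 : G ≠ 0) (d : ℕ)
    (hGd : G.IsWeightedHomogeneous (wt e) d) (hAB : A * B = G) (hB : constantCoeff B ≠ 0) :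
    IsUnit B := by
  have hwt : ∀ j : Option ι, wt e j ≠ 0 := by
    intro j
    rcases j with _ | j
    · rw [wt_none]; omega
    · rw [wt_some]; omega
  let φ : MvPolynomial (Option ι) K →ₐ[K] Polynomial (MvPolynomial (Option ι) K) :=
    aeval (fun j => Polynomial.C (X j) * Polynomial.X ^ wt e j)
  have hφG : φ G = Polynomial.C G * Polynomial.X ^ d := by
    change aeval (fun j => Polynomial.C (X j) * Polynomial.X ^ wt e j) G = _
    rw [aeval_scaleW e _ Polynomial.X d G hGd]
    congr 1
    have h1 : (aeval (fun j => (Polynomial.C (X j) : Polynomial (MvPolynomial (Option ι) K))) :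
        MvPolynomial (Option ι) K →ₐ[K] Polynomial (MvPolynomial (Option ι) K)) =
        IsScalarTower.toAlgHom K (MvPolynomial (Option ι) K)
          (Polynomial (MvPolynomial (Option ι) K)) := by
      apply MvPolynomial.algHom_ext
      intro j
      rw [aeval_X]
      rfl
    rw [h1]
    rfl
  have h0 : ∀ P : MvPolynomial (Option ι) K, (φ P).eval 0 = C (constantCoeff P) := by
    intro P
    induction P using MvPolynomial.induction_on with
    | C a =>
      change ((aeval _ (C a) : Polynomial (MvPolynomial (Option ι) K))).eval 0 = _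
      rw [aeval_C, constantCoeff_C]
      change (Polynomial.C (C a)).eval 0 = _
      rw [Polynomial.eval_C]
    | add p q hp hq => rw [map_add, Polynomial.eval_add, hp, hq, map_add, map_add]
    | mul_X p i hp =>
      rw [map_mul, Polynomial.eval_mul, hp, map_mul, map_mul, constantCoeff_X, map_zero, mul_zero]
      change _ * ((aeval _ (X i) : Polynomial (MvPolynomial (Option ι) K))).eval 0 = _
      rw [aeval_X, Polynomial.eval_mul, Polynomial.eval_pow, Polynomial.eval_X,
        zero_pow (hwt i), mul_zero, mul_zero]
  have h1 : ∀ P : MvPolynomial (Option ι) K, (φ P).eval 1 = P := by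
    intro P
    induction P using MvPolynomial.induction_on with
    | C a =>
      change ((aeval _ (C a) : Polynomial (MvPolynomial (Option ι) K))).eval 1 = _
      rw [aeval_C]
      change (Polynomial.C (C a)).eval 1 = _
      rw [Polynomial.eval_C]
    | add p q hp hq => rw [map_add, Polynomial.eval_add, hp, hq]
    | mul_X p i hp =>
      rw [map_mul, Polynomial.eval_mul, hp]
      change _ * ((aeval _ (X i) : Polynomial (MvPolynomial (Option ι) K))).eval 1 = _
      rw [aeval_X, Polynomial.eval_mul, Polynomial.eval_pow, Polynomial.eval_X,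
        Polynomial.eval_C, one_pow, mul_one]
  have hC : (C (constantCoeff B) : MvPolynomial (Option ι) K) ≠ 0 := by
    rwa [Ne, C_eq_zero]
  have hXB : ¬ Polynomial.X ∣ φ B := by
    rw [Polynomial.X_dvd_iff, Polynomial.coeff_zero_eq_eval_zero, h0]
    exact hC
  have hdvd : Polynomial.X ^ d ∣ φ A * φ B := by
    rw [← map_mul, hAB, hφG]
    exact Dvd.intro_left _ rfl
  have hdvd2 : Polynomial.X ^ d ∣ φ A :=
    Polynomial.prime_X.pow_dvd_of_dvd_mul_right d hXB hdvd
  obtain ⟨A', hA'⟩ := hdvd2
  have h2 : A' * φ B = Polynomial.C G := by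
    have h3 : Polynomial.X ^ d * (A' * φ B) = Polynomial.X ^ d * Polynomial.C G := by
      rw [← mul_assoc, ← hA', ← map_mul, hAB, hφG, mul_comm]
    exact mul_left_cancel₀ (pow_ne_zero d Polynomial.X_ne_zero) h3
  have h3 : A' ≠ 0 ∧ φ B ≠ 0 := by
    constructor
    · rintro rfl
      rw [zero_mul] at h2
      exact hG0 (Polynomial.C_eq_zero.1 h2.symm)
    · intro h
      rw [h, mul_zero] at h2
      exact hG0 (Polynomial.C_eq_zero.1 h2.symm)
  have h4 := Polynomial.natDegree_mul h3.1 h3.2
  rw [h2, Polynomial.natDegree_C] at h4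
  have h5 : (φ B).natDegree = 0 := by omega
  obtain ⟨c, hc⟩ := Polynomial.natDegree_eq_zero.1 h5
  have h6 := h0 B
  have h7 := h1 B
  rw [← hc, Polynomial.eval_C] at h6 h7
  rw [← h7, h6]
  exact (Ne.isUnit hB).map C

/-- The maximal ideal of the origin is not the radical of an ideal with two generators. -/
theorem no_two {K : Type} [Field K] {n : ℕ} (hn : 1 ≤ n)
    (A B : MvPolynomial (Fin (n + 2)) K) (hA0 : constantCoeff A = 0) (hB0 : constantCoeff B = 0)
    (hX : ∀ i, X i ∈ (Ideal.span {A, B}).radical) : False := by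
  classical
  let m : Ideal (MvPolynomial (Fin (n + 2)) K) :=
    RingHom.ker (constantCoeff (σ := Fin (n + 2)) (R := K))
  have hm : m.IsPrime := RingHom.ker_isPrime _
  let φ : ℕ → (MvPolynomial (Fin (n + 2)) K →ₐ[K] MvPolynomial (Fin (n + 2)) K) := fun k =>
    aeval (fun j => if (j : ℕ) < k then 0 else X j)
  let J : ℕ → Ideal (MvPolynomial (Fin (n + 2)) K) := fun k => RingHom.ker (φ k)
  have hJp : ∀ k, (J k).IsPrime := fun k => RingHom.ker_isPrime _
  have hφX : ∀ k (j : Fin (n + 2)), φ k (X j) = if (j : ℕ) < k then 0 else X j :=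
    fun k j => aeval_X _ j
  have hcomp : ∀ k l, k ≤ l → (φ l).comp (φ k) = φ l := by
    intro k l hkl
    apply MvPolynomial.algHom_ext
    intro j
    rw [AlgHom.comp_apply, hφX]
    split_ifs with h
    · rw [map_zero, hφX, if_pos (by omega)]
    · rfl
  have hJle : ∀ k l, k ≤ l → J k ≤ J l := by
    intro k l hkl P hP
    have h1 : φ k P = 0 := hP
    change φ l P = 0
    rw [← hcomp k l hkl, AlgHom.comp_apply, h1, map_zero]
  have hJlt : ∀ k, (hk : k < n + 2) → J k < J (k + 1) := by
    intro k hk
    refine lt_of_le_of_ne (hJle _ _ (by omega)) ?_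
    intro h
    have h1 : (X ⟨k, hk⟩ : MvPolynomial (Fin (n + 2)) K) ∈ J (k + 1) := by
      change φ (k + 1) (X ⟨k, hk⟩) = 0
      rw [hφX, if_pos (by simp)]
    rw [← h] at h1
    have h2 : φ k (X ⟨k, hk⟩) = 0 := h1
    rw [hφX, if_neg (by simp)] at h2
    exact X_ne_zero _ h2
  have hJm : J 3 ≤ m := by
    intro P hP
    have h1 : φ 3 P = 0 := hP
    change constantCoeff P = 0
    have h2 : (constantCoeff (σ := Fin (n + 2)) (R := K)).comp (φ 3).toRingHom =
        constantCoeff := by
      apply MvPolynomial.ringHom_ext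
      · intro r
        rw [RingHom.comp_apply]
        change constantCoeff (φ 3 (C r)) = _
        change constantCoeff (aeval _ (C r)) = _
        rw [aeval_C]
        rfl
      · intro j
        rw [RingHom.comp_apply]
        change constantCoeff (φ 3 (X j)) = _
        rw [hφX]
        split_ifs
        · rw [map_zero, constantCoeff_X]
        · rfl
    rw [← h2, RingHom.comp_apply]
    change constantCoeff (φ 3 P) = 0
    rw [h1, map_zero]
  have hh : (3 : ℕ∞) ≤ m.height := by
    have h1 := Ideal.height_add_one_le_of_lt_of_isPrime (hJlt 0 (by omega))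
    have h2 := Ideal.height_add_one_le_of_lt_of_isPrime (hJlt 1 (by omega))
    have h3 := Ideal.height_add_one_le_of_lt_of_isPrime (hJlt 2 (by omega))
    have h4 := Ideal.height_mono hJm
    calc (3 : ℕ∞) = 0 + 1 + 1 + 1 := by norm_num
      _ ≤ (J 0).height + 1 + 1 + 1 := by gcongr; exact zero_le
      _ ≤ (J 1).height + 1 + 1 := by gcongr
      _ ≤ (J 2).height + 1 := by gcongr
      _ ≤ (J 3).height := h3
      _ ≤ m.height := h4
  have hmle : m ≤ (Ideal.span {A, B}).radical := by
    intro P hP
    have h2 : constantCoeff P = 0 := hP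
    have h3 : ∀ P : MvPolynomial (Fin (n + 2)) K,
        P - C (constantCoeff P) ∈ (Ideal.span {A, B}).radical := by
      intro P
      induction P using MvPolynomial.induction_on with
      | C a => simp
      | add p q hp hq =>
        rw [map_add, map_add]
        have h4 : p + q - (C (constantCoeff p) + C (constantCoeff q)) =
          (p - C (constantCoeff p)) + (q - C (constantCoeff q)) := by ring
        rw [h4]
        exact Ideal.add_mem _ hp hq
      | mul_X p i hp =>
        rw [map_mul, constantCoeff_X, mul_zero, map_zero, sub_zero]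
        exact Ideal.mul_mem_left _ _ (hX i)
    have h4 := h3 P
    rwa [h2, map_zero, sub_zero] at h4
  have hmin : m ∈ (Ideal.span {A, B}).minimalPrimes := by
    refine ⟨⟨hm, ?_⟩, ?_⟩
    · rw [Ideal.span_le]
      rintro P (rfl | rfl)
      · exact hA0
      · exact hB0
    · rintro q ⟨hq, hqAB⟩ hqm
      exact hmle.trans ((Ideal.IsPrime.radical_le_iff hq).2 hqAB)
  have h5 := Ideal.height_le_card_of_mem_minimalPrimes_span (Set.toFinite {A, B}) hmin
  have h6 : ({A, B} : Set (MvPolynomial (Fin (n + 2)) K)).ncard ≤ 2 := by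
    have := Set.ncard_insert_le A ({B} : Set (MvPolynomial (Fin (n + 2)) K))
    rwa [Set.ncard_singleton] at this
  have h7 : (3 : ℕ∞) ≤ 2 := hh.trans (h5.trans (by exact_mod_cast h6))
  exact absurd h7 (by decide)

/-- The coordinate of weight `e` is in the radical of an ideal with the equation and all other
coordinates. -/
theorem none_mem_radical {K ι : Type} [Field K] [Fintype ι] (e m : ℕ) (he : 1 ≤ e) (hm : 1 ≤ m)
    (P : MvPolynomial (Option ι) K) (hPd : P.IsWeightedHomogeneous (wt e) (m * e))
    (hc : coeff (Finsupp.single none m) P ≠ 0) (I : Ideal (MvPolynomial (Option ι) K))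
    (hP : P ∈ I) (hX : ∀ i : ι, X (some i) ∈ I.radical) : X none ∈ I.radical := by
  classical
  have h1 : P - monomial (Finsupp.single none m) (coeff (Finsupp.single none m) P) ∈ I.radical := by
    have h2 : P - monomial (Finsupp.single none m) (coeff (Finsupp.single none m) P) =
        ∑ s ∈ P.support.erase (Finsupp.single none m), monomial s (coeff s P) := by
      have h3 : ∑ s ∈ P.support, monomial s (coeff s P) = P := support_sum_monomial_coeff P
      rw [← Finset.add_sum_erase _ _ (mem_support_iff.2 hc)] at h3
      linear_combination - h3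
    rw [h2]
    refine Ideal.sum_mem _ fun s hs => ?_
    rw [Finset.mem_erase] at hs
    have hw : s none * e + ∑ j, s (some j) = m * e := by
      rw [← weight_eq]
      by_contra hne
      exact (mem_support_iff.1 hs.2) (hPd.coeff_eq_zero s hne)
    have hex : ∃ j, s (some j) ≠ 0 := by
      by_contra hcon
      push Not at hcon
      apply hs.1
      have h4 : ∑ j, s (some j) = 0 := Finset.sum_eq_zero fun j _ => hcon j
      have h5 : s none = m := Nat.eq_of_mul_eq_mul_right (by omega : 0 < e) (by omega)
      ext o
      rcases o with _ | j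
      · simp [h5]
      · simp [hcon j]
    obtain ⟨j, hj⟩ := hex
    have h4 : (X (some j) : MvPolynomial (Option ι) K) ∣ monomial s (coeff s P) := by
      rw [X_dvd_monomial]
      exact Or.inr hj
    exact Ideal.mem_of_dvd _ h4 (hX j)
  have h2 : monomial (Finsupp.single none m) (coeff (Finsupp.single none m) P) ∈ I.radical := by
    have h3 := I.radical.sub_mem (Ideal.le_radical hP) h1
    rwa [sub_sub_cancel] at h3
  have h3 : (X none : MvPolynomial (Option ι) K) ^ m ∈ I.radical := by
    have h4 := I.radical.mul_mem_left (C (coeff (Finsupp.single none m) P)⁻¹) h2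
    rw [C_mul_monomial, inv_mul_cancel₀ hc] at h4
    rwa [X_pow_eq_monomial]
  exact (Ideal.radical_isRadical I) ⟨m, h3⟩

theorem irreducible_of_smoothW {K : Type} [Field K] {n : ℕ} (hn : 1 ≤ n) (e m : ℕ) (he : 1 ≤ e)
    (hm : 1 ≤ m) (P : MvPolynomial (Option (Fin (n + 1))) K)
    (hPd : P.IsWeightedHomogeneous (wt e) (m * e)) (hc : coeff (Finsupp.single none m) P ≠ 0)
    (hsm : ∀ i : Fin (n + 1),
      X (some i) ∈ (Ideal.span (Set.range fun j => pderiv j P)).radical) :
    Irreducible P := by
  classical
  have hP0 : P ≠ 0 := by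
    rintro rfl
    rw [coeff_zero] at hc
    exact hc rfl
  have hme : m * e ≠ 0 := Nat.mul_ne_zero (by omega) (by omega)
  have hPc : constantCoeff P = 0 := by
    rw [constantCoeff_eq]
    by_contra h
    have h1 := hPd h
    simp only [map_zero] at h1
    exact hme h1.symm
  refine ⟨?_, ?_⟩
  · intro hu
    have h1 := hu.map (constantCoeff (σ := Option (Fin (n + 1))) (R := K))
    rw [hPc] at h1
    exact not_isUnit_zero h1
  · intro A B hAB
    by_contra hcon
    push Not at hcon
    obtain ⟨hA, hB⟩ := hcon
    have hB0 : constantCoeff B = 0 := by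
      by_contra h
      exact hB (unit_of_constW e he P A B hP0 _ hPd hAB.symm h)
    have hA0 : constantCoeff A = 0 := by
      by_contra h
      exact hA (unit_of_constW e he P B A hP0 _ hPd (by rw [mul_comm]; exact hAB.symm) h)
    have hpd : Ideal.span (Set.range fun j => pderiv j P) ≤ Ideal.span {A, B} := by
      rw [Ideal.span_le]
      rintro _ ⟨j, rfl⟩
      change pderiv j P ∈ _
      rw [hAB, Derivation.leibniz, smul_eq_mul, smul_eq_mul]
      exact Ideal.add_mem _ (Ideal.mul_mem_right _ _ (Ideal.subset_span (by simp)))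
        (Ideal.mul_mem_right _ _ (Ideal.subset_span (by simp)))
    have hX1 : ∀ i : Fin (n + 1), X (some i) ∈ (Ideal.span {A, B}).radical := fun i =>
      Ideal.radical_mono hpd (hsm i)
    have hPI : P ∈ Ideal.span {A, B} := by
      rw [hAB]
      exact Ideal.mul_mem_right _ _ (Ideal.subset_span (by simp))
    have hX2 := none_mem_radical e m he hm P hPd hc _ hPI hX1
    have hX3 : ∀ o : Option (Fin (n + 1)), X o ∈ (Ideal.span {A, B}).radical := by
      intro o
      rcases o with _ | i
      · exact hX2
      · exact hX1 i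
    let σ : Option (Fin (n + 1)) ≃ Fin (n + 2) := (_root_.finSuccEquiv (n + 1)).symm
    refine no_two hn (rename σ A) (rename σ B) ?_ ?_ fun i => ?_
    · rw [constantCoeff_rename, hA0]
    · rw [constantCoeff_rename, hB0]
    · obtain ⟨k, hk⟩ := hX3 (σ.symm i)
      refine ⟨k, ?_⟩
      have h1 : (rename σ (X (σ.symm i) ^ k : MvPolynomial (Option (Fin (n + 1))) K)) ∈
          (Ideal.span {A, B}).map (rename σ : MvPolynomial (Option (Fin (n + 1))) K →ₐ[K] _) :=
        Ideal.mem_map_of_mem _ hk
      rw [Ideal.map_span, Set.image_pair, map_pow, rename_X, Equiv.apply_symm_apply] at h1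
      exact h1

end Pool.Agent.R187.WC
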