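import Pool.Agent.R187.WC.Crit
import Pool.Agent.TH214.RM.Smooth

/-! The global module of a weighted hypersurface with regular local equations. -/

set_option autoImplicit false
set_option linter.unusedSectionVars false
set_option linter.unusedVariables false

open scoped Pointwise

namespace Pool.Agent.R187.WC

open Pool.Agent.H918R2.Quad Pool.Agent.H945R2.D MvPolynomial Pool.Agent.TH214.RM
  Pool.Agent.H945R2.E Pool.Agent.W418 Pool.Agent.H945R2.S Pool.Agent.H945R2.R

section

variable {O K F : Type} [CommRing O] [IsDedekindDomain O] [Field K] [Algebra O K]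
  [IsFractionRing O K] [Field F] [Algebra K F] [Algebra O F] [IsScalarTower O K F]

theorem whom_map {A B σ : Type} [CommRing A] [CommRing B] (φ : A →+* B) {w : σ → ℕ} {N : ℕ}
    {P : MvPolynomial σ A} (hP : P.IsWeightedHomogeneous w N) :
    (map φ P).IsWeightedHomogeneous w N := by
  intro s hs
  apply hP
  intro h
  apply hs
  rw [coeff_map, h, map_zero]

/-- All but one of the coordinates of a chart are independent. -/
theorem hindW {n e : ℕ} (x : Option (Fin (n + 1)) → F) (hx0 : x (some 0) = 1)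
    (hgen : IntermediateField.adjoin K (Set.range x) = ⊤)
    (b : Fin n → F) (htb : IsTranscendenceBasis K b)
    (v : Option (Fin (n + 1)) → F) (u : Fin (n + 1) → Fin (n + 1) → K)
    (hu : ∀ i, x (some i) = ∑ j, algebraMap K F (u i j) * v (some j))
    (hw : x none ∈ IntermediateField.adjoin K (Set.range v)) (s : Fin (n + 1))
    (hs : v (some s) ≠ 0) : ∃ j₀ : Option {i : Fin (n + 1) // i ≠ s},
      AlgebraicIndependent K (fun i : {i : Option {i : Fin (n + 1) // i ≠ s} // i ≠ j₀} =>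
        v ((i : Option {i : Fin (n + 1) // i ≠ s}).map Subtype.val) /
          v (some s) ^ wt e (i : Option {i : Fin (n + 1) // i ≠ s})) := by
  classical
  refine exists_omit b htb (ρ := Option {j : Fin (n + 1) // j ≠ s}) ?_
    (fun j => v (j.map Subtype.val) / v (some s) ^ wt e j) ?_
  · rw [Fintype.card_option, Fintype.card_subtype_compl, Fintype.card_subtype_eq, Fintype.card_fin]
    rfl
  · set L := IntermediateField.adjoin K (Set.range fun j : Option {j : Fin (n + 1) // j ≠ s} =>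
      v (j.map Subtype.val) / v (some s) ^ wt e j) with hL
    have h1 : ∀ j, v (some j) / v (some s) ∈ L := by
      intro j
      by_cases hj : j = s
      · rw [hj, div_self hs]; exact L.one_mem
      · have h2 : v (some j) / v (some s) ^ 1 ∈ L :=
          IntermediateField.subset_adjoin K _ ⟨some ⟨j, hj⟩, rfl⟩
        rwa [pow_one] at h2
    have h2 : ∀ i, x (some i) / v (some s) ∈ L := by
      intro i
      rw [hu, Finset.sum_div]
      refine L.sum_mem fun j _ => ?_
      rw [mul_div_assoc]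
      exact L.mul_mem (L.algebraMap_mem _) (h1 j)
    have h3 : v (some s) ∈ L := by
      have h4 := L.inv_mem (h2 0)
      rwa [hx0, one_div, inv_inv] at h4
    have h4 : ∀ j, v (some j) ∈ L := by
      intro j
      have h5 := L.mul_mem (h1 j) h3
      rwa [div_mul_cancel₀ _ hs] at h5
    have h5 : v none ∈ L := by
      have h6 : v none / v (some s) ^ e ∈ L := IntermediateField.subset_adjoin K _ ⟨none, rfl⟩
      have h7 := L.mul_mem h6 (pow_mem h3 e)
      rwa [div_mul_cancel₀ _ (pow_ne_zero e hs)] at h7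
    have h6 : ∀ o, v o ∈ L := by
      intro o
      rcases o with _ | j
      · exact h5
      · exact h4 j
    have h7 : IntermediateField.adjoin K (Set.range v) ≤ L := by
      rw [IntermediateField.adjoin_le_iff]
      rintro _ ⟨o, rfl⟩
      exact h6 o
    rw [eq_top_iff, ← hgen, IntermediateField.adjoin_le_iff]
    rintro _ ⟨o, rfl⟩
    rcases o with _ | i
    · exact h7 hw
    · have h8 := L.mul_mem (h2 i) h3
      rwa [div_mul_cancel₀ _ hs] at h8

include K in
theorem regAt_of_critW (𝔭 : Ideal O) [𝔭.IsPrime] {n e m : ℕ} (he : 1 ≤ e)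
    (P : MvPolynomial (Option (Fin (n + 1))) O)
    (hPd : P.IsWeightedHomogeneous (wt e) (m * e))
    (hc : coeff (Finsupp.single none m) P ∉ 𝔭) (hcrit : CritW 𝔭 P)
    (x : Option (Fin (n + 1)) → F) (hx0 : x (some 0) = 1)
    (hgen : IntermediateField.adjoin K (Set.range x) = ⊤)
    (b : Fin n → F) (htb : IsTranscendenceBasis K b)
    (v : Option (Fin (n + 1)) → F) (u : Fin (n + 1) → Fin (n + 1) → K)
    (hu : ∀ i, x (some i) = ∑ j, algebraMap K F (u i j) * v (some j))
    (hw : x none ∈ IntermediateField.adjoin K (Set.range v)) (hrel : aeval v P = 0)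
    (D : ℕ) (hD : 1 ≤ D)
    (M : Submodule O F) (hM : M ≤ Submodule.span O (Set.range (zz e v) ^ D))
    (hM2 : ∀ y ∈ Submodule.span O (Set.range (zz e v) ^ D), ∃ s, s ∉ 𝔭 ∧ s • y ∈ M) :
    RegAt 𝔭 M := by
  intro f hfM hf q hqp hq
  let R := Localization.subalgebra.ofField K 𝔭.primeCompl 𝔭.primeCompl_le_nonZeroDivisors
  have : IsLocalization.AtPrime R 𝔭 := Localization.subalgebra.isLocalization_ofField K _ _
  have : IsFractionRing R K := Localization.subalgebra.isFractionRing_ofField K _ _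
  have : IsDedekindDomain R := IsLocalization.isDedekindDomain O
    𝔭.primeCompl_le_nonZeroDivisors R
  have : IsScalarTower O R F := IsScalarTower.of_algebraMap_eq fun r => by
    rw [IsScalarTower.algebraMap_apply O K F]; rfl
  have : IsScalarTower R K F := IsScalarTower.of_algebraMap_eq fun r => rfl
  have hMG : ∀ y ∈ M, y ∈ Submodule.span R (Set.range (zz e v) ^ D) := by
    intro y hy
    have h3 := hM hy
    exact Submodule.span_subset_span O R _ h3
  have hGM : ∀ y ∈ Submodule.span R (Set.range (zz e v) ^ D), ∃ s, s ∉ 𝔭 ∧ s • y ∈ M := by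
    intro y hy
    obtain ⟨s, hs, hsy⟩ := clear_denom 𝔭 (Set.range (zz e v) ^ D) y hy
    obtain ⟨t, ht, hty⟩ := hM2 _ hsy
    refine ⟨t * s, fun h => (Ideal.IsPrime.mem_or_mem ‹𝔭.IsPrime› h).elim ht hs, ?_⟩
    rw [mul_smul]
    exact hty
  obtain ⟨𝒪, hloc, hR, hRU, hloc2, hG, hreg⟩ :=
    transfer (R := R) 𝔭 M (Set.range (zz e v) ^ D) hMG hGM f q hq
  apply hreg
  have hinjOR : Function.Injective (algebraMap O R) :=
    IsLocalization.injective R 𝔭.primeCompl_le_nonZeroDivisors
  have hinj : Function.Injective (algebraMap R K) := IsFractionRing.injective R K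
  have hrel' : aeval v (map (algebraMap O R) P) = 0 := by
    rw [aeval_map_algebraMap, hrel]
  have hind : ∀ s, v (some s) ≠ 0 → ∃ j₀ : Option {i : Fin (n + 1) // i ≠ s},
      AlgebraicIndependent R (fun i : {i : Option {i : Fin (n + 1) // i ≠ s} // i ≠ j₀} =>
        v ((i : Option {i : Fin (n + 1) // i ≠ s}).map Subtype.val) /
          v (some s) ^ wt e (i : Option {i : Fin (n + 1) // i ≠ s})) := by
    intro s hs
    obtain ⟨j₀, hj₀⟩ := hindW (K := K) (e := e) x hx0 hgen b htb v u hu hw s hs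
    exact ⟨j₀, hj₀.restrictScalars hinj⟩
  have hcR : IsUnit (coeff (Finsupp.single none m) (map (algebraMap O R) P)) := by
    rw [coeff_map]
    exact IsLocalization.map_units R (⟨_, hc⟩ : 𝔭.primeCompl)
  have hP0' : map (algebraMap O R) P ≠ 0 := by
    intro h
    rw [h, coeff_zero] at hcR
    exact not_isUnit_zero hcR
  exact gdgW 𝒪 hloc hR hRU e m he (map (algebraMap O R) P) hP0' (whom_map _ hPd) hcR
    (fun s Q hQ hGQ hC => crit_locW 𝔭 hinjOR P hcrit s Q hQ hGQ hC) v hrel' hind D hD f hf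
    (hMG f hfM) hG hloc2

include K in
/-- The local module at a prime with a regular equation. -/
theorem locMod_of_critW (𝔭 : Ideal O) [𝔭.IsPrime] (h0 : 𝔭 ≠ ⊥) {n e m : ℕ} (he : 1 ≤ e)
    (P : MvPolynomial (Option (Fin (n + 1))) O)
    (hPd : P.IsWeightedHomogeneous (wt e) (m * e))
    (hc : coeff (Finsupp.single none m) P ∉ 𝔭) (hcrit : CritW 𝔭 P)
    (x : Option (Fin (n + 1)) → F) (hx0 : x (some 0) = 1)
    (hgen : IntermediateField.adjoin K (Set.range x) = ⊤)
    (b : Fin n → F) (htb : IsTranscendenceBasis K b)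
    (v : Option (Fin (n + 1)) → F) (u u' : Fin (n + 1) → Fin (n + 1) → K)
    (hu : ∀ i, x (some i) = ∑ j, algebraMap K F (u i j) * v (some j))
    (hu' : ∀ i, v (some i) = ∑ j, algebraMap K F (u' i j) * x (some j))
    (hw : x none ∈ Submodule.span K (Set.range (zz e v)))
    (hw' : v none ∈ Submodule.span K (Set.range (zz e x))) (hrel : aeval v P = 0) :
    LocMod 𝔭 (zz e x) := by
  have key : ∀ (x v : Option (Fin (n + 1)) → F) (u : Fin (n + 1) → Fin (n + 1) → K),
      (∀ i, x (some i) = ∑ j, algebraMap K F (u i j) * v (some j)) →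
      x none ∈ Submodule.span K (Set.range (zz e v)) →
      ∀ i, zz e x i ∈ Submodule.span K (Set.range (zz e v)) := by
    intro x v u hu hw i
    rcases i with φ | _
    · have h1 : ∀ i, x (some i) ∈ Submodule.span K (Set.range fun j => v (some j)) := by
        intro i
        rw [hu]
        refine Submodule.sum_mem _ fun j _ => ?_
        rw [← Algebra.smul_def]
        exact Submodule.smul_mem _ _ (Submodule.subset_span ⟨j, rfl⟩)
      have h2 : zz e x (.inl φ) ∈ Submodule.span K (Set.range fun j => x (some j)) ^ e := by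
        rw [Submodule.span_pow]
        refine Submodule.subset_span ?_
        rw [Pool.Agent.H945R2.D.GD1aux.mem_range_pow]
        exact ⟨φ, rfl⟩
      have h3 : Submodule.span K (Set.range fun j => x (some j)) ^ e ≤
          Submodule.span K (Set.range fun j => v (some j)) ^ e := by
        refine pow_le_pow_left' ?_ e
        rw [Submodule.span_le]
        rintro _ ⟨i, rfl⟩
        exact h1 i
      have h4 := h3 h2
      rw [Submodule.span_pow] at h4
      refine Submodule.span_mono ?_ h4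
      rw [range_zz]
      exact Set.subset_union_left
    · exact hw
  have hw2 : x none ∈ IntermediateField.adjoin K (Set.range v) := by
    have h1 : ∀ i, zz e v i ∈ IntermediateField.adjoin K (Set.range v) := by
      intro i
      rcases i with φ | _
      · exact prod_mem fun k _ => IntermediateField.subset_adjoin K _ ⟨_, rfl⟩
      · exact IntermediateField.subset_adjoin K _ ⟨_, rfl⟩
    have h2 : Submodule.span K (Set.range (zz e v)) ≤
        Subalgebra.toSubmodule (IntermediateField.adjoin K (Set.range v)).toSubalgebra := by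
      rw [Submodule.span_le]
      rintro _ ⟨i, rfl⟩
      exact h1 i
    exact h2 hw
  refine locMod_lin (K := K) 𝔭 h0 (zz e x) (zz e v) (key v x u' hu' hw') (key x v u hu hw) ?_
  have h1𝔭 : (1 : O) ∉ 𝔭 := (Ideal.ne_top_iff_one 𝔭).1 Ideal.IsPrime.ne_top'
  refine ⟨1, fun D hD => ⟨Submodule.span O (Set.range (zz e v) ^ D), ?_, ⟨0, ?_⟩, ?_⟩⟩
  · intro y hy
    exact ⟨1, h1𝔭, by rw [one_smul]; exact hy⟩
  · intro c _ y hy
    exact Submodule.smul_mem _ _ hy
  · intro M hM hM2
    exact regAt_of_critW (K := K) 𝔭 he P hPd hc hcrit x hx0 hgen b htb v u hu hw2 hrel D hD M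
      hM hM2

include K in
theorem goodModule_of_locι {ι : Type} [Finite ι] (x : ι → F) (i₀ : ι) (hx0 : x i₀ = 1)
    (S : Finset (Ideal O)) (hSm : ∀ 𝔭 ∈ S, 𝔭.IsMaximal ∧ 𝔭 ≠ ⊥) (hloc : ∀ 𝔭 ∈ S, LocMod 𝔭 x)
    (hout : ∀ 𝔭 : Ideal O, 𝔭.IsPrime → 𝔭 ∉ S → ∀ D : ℕ, 1 ≤ D → ∀ M : Submodule O F,
      M ≤ Submodule.span O (Set.range x ^ D) →
      (∀ y ∈ Submodule.span O (Set.range x ^ D), ∃ s, s ∉ 𝔭 ∧ s • y ∈ M) → RegAt 𝔭 M) :
    GoodModule O x := by
  classical
  have hOK : Function.Injective (algebraMap O K) := IsFractionRing.injective O K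
  have hOF : Function.Injective (algebraMap O F) := by
    rw [IsScalarTower.algebraMap_eq O K F]
    exact (algebraMap K F).injective.comp hOK
  have hS0 : ∀ 𝔭 ∈ S, 𝔭 ≠ ⊥ := fun 𝔭 h𝔭 => (hSm 𝔭 h𝔭).2
  have hSmax : ∀ 𝔭 ∈ S, 𝔭.IsMaximal := fun 𝔭 h𝔭 => (hSm 𝔭 h𝔭).1
  have hdeg : ∀ 𝔭 : Ideal O, ∃ D₀ : ℕ, 𝔭 ∈ S → ∀ D, D₀ ≤ D → ∃ P : Submodule O F,
      (∀ y ∈ P, ∃ s, s ∉ 𝔭 ∧ s • y ∈ Submodule.span O (Set.range x ^ D)) ∧
      (∃ k : ℕ, ∀ c ∈ 𝔭 ^ k, ∀ y ∈ Submodule.span O (Set.range x ^ D), c • y ∈ P) ∧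
      ∀ M : Submodule O F, M ≤ P → (∀ y ∈ P, ∃ s, s ∉ 𝔭 ∧ s • y ∈ M) → RegAt 𝔭 M := by
    intro 𝔭
    by_cases h𝔭 : 𝔭 ∈ S
    · obtain ⟨D₀, hD₀⟩ := hloc 𝔭 h𝔭
      exact ⟨D₀, fun _ => hD₀⟩
    · exact ⟨0, fun h => absurd h h𝔭⟩
  choose D₀ hD₀ using hdeg
  set D : ℕ := max 1 (S.sup D₀) with hD
  have hD1 : 1 ≤ D := le_max_left _ _
  have hDS : ∀ 𝔭 ∈ S, D₀ 𝔭 ≤ D := fun 𝔭 h𝔭 => (Finset.le_sup h𝔭).trans (le_max_right _ _)
  have hbad : ∀ 𝔭 : Ideal O, ∃ P : Submodule O F, 𝔭 ∈ S →
      ((∀ y ∈ P, ∃ s, s ∉ 𝔭 ∧ s • y ∈ Submodule.span O (Set.range x ^ D)) ∧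
      (∃ k : ℕ, ∀ c ∈ 𝔭 ^ k, ∀ y ∈ Submodule.span O (Set.range x ^ D), c • y ∈ P) ∧
      ∀ M : Submodule O F, M ≤ P → (∀ y ∈ P, ∃ s, s ∉ 𝔭 ∧ s • y ∈ M) → RegAt 𝔭 M) := by
    intro 𝔭
    by_cases h𝔭 : 𝔭 ∈ S
    · obtain ⟨P, hP⟩ := hD₀ 𝔭 h𝔭 D (hDS 𝔭 h𝔭)
      exact ⟨P, fun _ => hP⟩
    · exact ⟨⊥, fun h => absurd h h𝔭⟩
  choose P hP using hbad
  obtain ⟨M, hMN, hMP, hM1, hM2⟩ := glue (Submodule.span O (Set.range x ^ D)) S hSmax P
    (fun 𝔭 h𝔭 => (hP 𝔭 h𝔭).1) (fun 𝔭 h𝔭 => (hP 𝔭 h𝔭).2.1)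
  have hbotS : (⊥ : Ideal O) ∉ S := fun h => hS0 ⊥ h rfl
  have hMbot : ∀ y ∈ Submodule.span O (Set.range x ^ D), ∃ s : O, s ≠ 0 ∧ s • y ∈ M := by
    intro y hy
    obtain ⟨s, hs, hsy⟩ := hM2 ⊥ Ideal.isPrime_bot hbotS y hy
    exact ⟨s, fun h => hs (by rw [h]; exact Ideal.zero_mem _), hsy⟩
  have h1G : (1 : F) ∈ Submodule.span O (Set.range x ^ D) := by
    apply Submodule.subset_span
    have h0 : (1 : F) ∈ Set.range x := ⟨i₀, hx0⟩
    have h1 : (1 : F) ^ D ∈ Set.range x ^ D := Set.pow_mem_pow h0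
    rwa [one_pow] at h1
  obtain ⟨t, ht0, htM⟩ := hMbot 1 h1G
  have htF : algebraMap O F t ≠ 0 := fun h => ht0 (hOF (by rw [h, map_zero]))
  refine ⟨D, M, hD1, ?_, ⟨t • 1, htM, ?_⟩, hMN, hMbot, ?_⟩
  · have hG3 : (Set.range x ^ D).Finite := by
      generalize D = k
      induction k with
      | zero => rw [pow_zero]; exact Set.finite_one
      | succ k ih => rw [pow_succ]; exact ih.mul (Set.finite_range x)
    exact Submodule.FG.of_le (Submodule.fg_span hG3) hMN
  · rw [Algebra.smul_def, mul_one]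
    exact htF
  · intro f hfM hf0 q hq
    have hpp : (q.comap (algebraMap O (chart O M f))).IsPrime := inferInstance
    by_cases h𝔭 : q.comap (algebraMap O (chart O M f)) ∈ S
    · exact (hP _ h𝔭).2.2 M (hMP _ h𝔭) (hM1 _ h𝔭) f hfM hf0 q rfl
    · exact hout _ hpp h𝔭 D hD1 M hMN (hM2 _ hpp h𝔭) f hfM hf0 q rfl

/-- The partial derivatives of `P` have no common zero but the origin (over an algebraic closure):
the variables of weight one have powers in the ideal they generate. -/
def SmoothW {K ι : Type} [Field K] (P : MvPolynomial (Option ι) K) : Prop :=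
  ∀ i : ι, X (some i) ∈ (Ideal.span (Set.range fun j => pderiv j P)).radical

/-- The weighted change of coordinates `x_i = ∑ T_ij x'_j`, `w = a w' + B(x')`. -/
noncomputable def subW {K : Type} [Field K] {n : ℕ} (T : Matrix (Fin n) (Fin n) K)
    (a : K) (B : MvPolynomial (Fin n) K) : Option (Fin n) → MvPolynomial (Option (Fin n)) K
  | none => C a * X none + rename some B
  | some i => ∑ j, C (T i j) * X (some j)

/-- Over each nonzero prime the weighted hypersurface has a regular equation in suitable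
coordinates. -/
def LocRegW (O : Type) {K : Type} [CommRing O] [Field K] [Algebra O K] {n : ℕ} (e m : ℕ)
    (P : MvPolynomial (Option (Fin (n + 1))) K) : Prop :=
  ∀ 𝔭 : Ideal O, 𝔭.IsPrime → 𝔭 ≠ ⊥ →
    ∃ (H : MvPolynomial (Option (Fin (n + 1))) O) (l a : K)
      (T T' : Matrix (Fin (n + 1)) (Fin (n + 1)) K) (B : MvPolynomial (Fin (n + 1)) K),
      a ≠ 0 ∧ T * T' = 1 ∧ B.IsHomogeneous e ∧
      map (algebraMap O K) H = C l * aeval (subW T a B) P ∧
      H.IsWeightedHomogeneous (wt e) (m * e) ∧ coeff (Finsupp.single none m) H ∉ 𝔭 ∧ CritW 𝔭 H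

theorem aeval_mem_span {n e : ℕ} (v : Option (Fin n) → F) (B : MvPolynomial (Fin n) K)
    (hB : B.IsHomogeneous e) :
    aeval (fun j => v (some j)) B ∈ Submodule.span K (Set.range (zz e v)) := by
  classical
  rw [aeval_def, eval₂_eq']
  refine Submodule.sum_mem _ fun s hs => ?_
  rw [← Algebra.smul_def]
  refine Submodule.smul_mem _ _ (Submodule.subset_span ?_)
  rw [range_zz]
  left
  have h1 : s.degree = e := by
    by_contra hne
    exact (mem_support_iff.1 hs) (hB.coeff_eq_zero hne)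
  have h2 := prod_mem_range_pow (fun j => v (some j)) (fun j => s j) Finset.univ
  have h3 : ∑ j, s j = e := by
    rw [← h1, Finsupp.degree_eq_sum]
  rwa [h3] at h2

include K in
theorem goodModule_of_locRegW {n e m : ℕ} (he : 1 ≤ e)
    (P : MvPolynomial (Option (Fin (n + 1))) K)
    (hPd : P.IsWeightedHomogeneous (wt e) (m * e)) (hc : coeff (Finsupp.single none m) P ≠ 0)
    (hsm : SmoothW P) (hloc : LocRegW O e m P)
    (x : Option (Fin (n + 1)) → F) (hx0 : x (some 0) = 1) (hrel : aeval x P = 0)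
    (hgen : IntermediateField.adjoin K (Set.range x) = ⊤)
    (b : Fin n → F) (htb : IsTranscendenceBasis K b) : GoodModule O (zz e x) := by
  classical
  have hOK : Function.Injective (algebraMap O K) := IsFractionRing.injective O K
  obtain ⟨s₀, hs₀, P₀, hP₀⟩ := clear_poly (R := K) (nonZeroDivisors O) P
  have hs₀0 : s₀ ≠ 0 := nonZeroDivisors.ne_zero hs₀
  have hs₀K : algebraMap O K s₀ ≠ 0 := fun h => hs₀0 (hOK (by rw [h, map_zero]))
  have hP₀d : P₀.IsWeightedHomogeneous (wt e) (m * e) := by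
    intro s hs
    apply hPd
    intro h
    apply hs
    apply hOK
    rw [map_zero, ← coeff_map, hP₀, coeff_C_mul, h, mul_zero]
  have hc₀ : coeff (Finsupp.single none m) P₀ ≠ 0 := by
    intro h
    have h1 := congrArg (coeff (Finsupp.single none m)) hP₀
    rw [coeff_map, h, map_zero, coeff_C_mul] at h1
    exact (mul_ne_zero hs₀K hc) h1.symm
  have hrelP₀ : aeval x P₀ = 0 := by
    rw [← aeval_map_algebraMap K x P₀, hP₀, map_mul, hrel, mul_zero]
  have hspan : Ideal.span (Set.range fun j => pderiv j P) =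
      Ideal.span (map (algebraMap O K) '' (Set.range fun j => pderiv j P₀)) := by
    apply le_antisymm
    · rw [Ideal.span_le]
      rintro _ ⟨j, rfl⟩
      change pderiv j P ∈ Ideal.span _
      have h1 : pderiv j P = C (algebraMap O K s₀)⁻¹ * map (algebraMap O K) (pderiv j P₀) := by
        rw [← pderiv_map, hP₀, pderiv_C_mul, ← mul_assoc, ← C_mul, inv_mul_cancel₀ hs₀K, C_1,
          one_mul]
      rw [h1]
      exact Ideal.mul_mem_left _ _ (Ideal.subset_span ⟨_, ⟨j, rfl⟩, rfl⟩)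
    · rw [Ideal.span_le]
      rintro _ ⟨_, ⟨j, rfl⟩, rfl⟩
      have h1 : map (algebraMap O K) (pderiv j P₀) = C (algebraMap O K s₀) * pderiv j P := by
        rw [← pderiv_map, hP₀, pderiv_C_mul]
      rw [SetLike.mem_coe]
      change map (algebraMap O K) (pderiv j P₀) ∈ _
      rw [h1]
      exact Ideal.mul_mem_left _ _ (Ideal.subset_span ⟨j, rfl⟩)
  have hex : ∀ i : Fin (n + 1), ∃ c : O, c ≠ 0 ∧ ∃ k : ℕ,
      C c * X (some i) ^ k ∈ Ideal.span (Set.range fun j => pderiv j P₀) := by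
    intro i
    obtain ⟨k, hk⟩ := hsm i
    rw [hspan] at hk
    obtain ⟨c, hc, y, hy, hyc⟩ := clear_span (R := K) (nonZeroDivisors O) _ _ hk
    refine ⟨c, nonZeroDivisors.ne_zero hc, k, ?_⟩
    have h1 : y = C c * X (some i) ^ k := by
      apply map_injective _ hOK
      rw [hyc, map_mul, map_C, map_pow, map_X]
    rwa [← h1]
  choose c hcc k hk using hex
  set c₀ := coeff (Finsupp.single none m) P₀ with hc₀def
  have hc0 : c₀ * ∏ i, c i ≠ 0 := by
    refine mul_ne_zero hc₀ ?_
    rw [Finset.prod_ne_zero_iff]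
    exact fun i _ => hcc i
  have hDspan : Ideal.span {c₀ * ∏ i, c i} ≠ ⊥ := by
    rw [Ne, Ideal.span_singleton_eq_bot]
    exact hc0
  let S : Finset (Ideal O) :=
    (UniqueFactorizationMonoid.normalizedFactors (Ideal.span {c₀ * ∏ i, c i})).toFinset
  have hS : ∀ 𝔭, 𝔭 ∈ S ↔ 𝔭.IsPrime ∧ c₀ * ∏ i, c i ∈ 𝔭 := by
    intro 𝔭
    rw [Multiset.mem_toFinset, Ideal.mem_normalizedFactors_iff hDspan,
      Ideal.span_singleton_le_iff_mem]
  have hS0 : ∀ 𝔭 ∈ S, 𝔭 ≠ ⊥ := by
    intro 𝔭 h𝔭 h
    have h1 := ((hS 𝔭).1 h𝔭).2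
    rw [h] at h1
    exact hc0 h1
  refine goodModule_of_locι (K := K) (zz e x) (.inl fun _ => 0) ?_ S (fun 𝔭 h𝔭 =>
    ⟨Ideal.IsPrime.isMaximal ((hS 𝔭).1 h𝔭).1 (hS0 𝔭 h𝔭), hS0 𝔭 h𝔭⟩) ?_ ?_
  · simp [zz, hx0]
  · intro 𝔭 h𝔭
    have hpp := ((hS 𝔭).1 h𝔭).1
    have h0 := hS0 𝔭 h𝔭
    obtain ⟨H, l, a, T, T', B, ha, hTT, hB, hH, hHd, hHc, hcrit⟩ := hloc 𝔭 hpp h0
    let y : Fin (n + 1) → F := fun i => ∑ j, algebraMap K F (T' i j) * x (some j)
    let v : Option (Fin (n + 1)) → F := fun o => o.elim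
      (algebraMap K F a⁻¹ * (x none - aeval y B)) y
    have hvs : ∀ i, v (some i) = y i := fun i => rfl
    have hvn : v none = algebraMap K F a⁻¹ * (x none - aeval y B) := rfl
    have hxx' : ∀ i, x (some i) = ∑ j, algebraMap K F (T i j) * v (some j) := by
      intro i
      have h1 : ∑ j, algebraMap K F (T i j) * v (some j) =
          ∑ m, (∑ j, algebraMap K F (T i j) * algebraMap K F (T' j m)) * x (some m) := by
        simp only [hvs, y, Finset.mul_sum, Finset.sum_mul]
        rw [Finset.sum_comm]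
        refine Finset.sum_congr rfl fun m _ => Finset.sum_congr rfl fun j _ => ?_
        ring
      have h2 : ∀ m, ∑ j, algebraMap K F (T i j) * algebraMap K F (T' j m) =
          if i = m then 1 else 0 := by
        intro m
        have h3 : (T * T') i m = (1 : Matrix (Fin (n + 1)) (Fin (n + 1)) K) i m := by rw [hTT]
        rw [Matrix.mul_apply, Matrix.one_apply] at h3
        have h4 := congrArg (algebraMap K F) h3
        rw [map_sum] at h4
        simp only [map_mul] at h4
        rw [h4]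
        split_ifs <;> simp
      rw [h1]
      simp only [h2, ite_mul, one_mul, zero_mul, Finset.sum_ite_eq, Finset.mem_univ, if_true]
    have hxn : x none = algebraMap K F a * v none + aeval (fun j => v (some j)) B := by
      rw [hvn, ← mul_assoc, ← map_mul, mul_inv_cancel₀ ha, map_one, one_mul]
      change x none = x none - aeval y B + aeval y B
      ring
    have hrelH : aeval v H = 0 := by
      rw [← aeval_map_algebraMap K v H, hH, map_mul]
      have h1 : aeval v (aeval (subW T a B) P) = aeval x P := by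
        rw [← AlgHom.comp_apply]
        congr 1
        apply MvPolynomial.algHom_ext
        intro o
        rw [AlgHom.comp_apply, aeval_X, aeval_X]
        rcases o with _ | i
        · rw [hxn]
          simp only [subW, map_add, map_mul, aeval_X, aeval_C, aeval_rename]
          rfl
        · rw [hxx' i]
          simp only [subW, map_sum, map_mul, aeval_X, aeval_C]
      rw [h1, hrel, mul_zero]
    refine locMod_of_critW (K := K) 𝔭 h0 he H hHd hHc hcrit x hx0 hgen b htb v (fun i j => T i j)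
      (fun i j => T' i j) hxx' (fun i => rfl) ?_ ?_ hrelH
    · rw [hxn]
      refine Submodule.add_mem _ ?_ (aeval_mem_span v B hB)
      rw [← Algebra.smul_def]
      exact Submodule.smul_mem _ _ (Submodule.subset_span ⟨.inr (), rfl⟩)
    · rw [hvn, ← Algebra.smul_def]
      refine Submodule.smul_mem _ _ (Submodule.sub_mem _ (Submodule.subset_span ⟨.inr (), rfl⟩) ?_)
      have h1 : aeval y B = aeval (fun j => x (some j))
          (aeval (fun i => ∑ j, C (T' i j) * X j : Fin (n + 1) → MvPolynomial (Fin (n + 1)) K) B) := by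
        rw [← AlgHom.comp_apply]
        congr 1
        apply MvPolynomial.algHom_ext
        intro i
        rw [AlgHom.comp_apply, aeval_X, aeval_X]
        simp only [y, map_sum, map_mul, aeval_X, aeval_C]
      rw [h1]
      refine aeval_mem_span x _ ?_
      have h2 : ((aeval (fun i => ∑ j, C (T' i j) * X j :
          Fin (n + 1) → MvPolynomial (Fin (n + 1)) K)) B).IsHomogeneous (1 * e) := by
        refine hB.aeval _ fun i => ?_
        refine IsHomogeneous.sum _ _ _ fun j _ => ?_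
        have h2 := (isHomogeneous_C (Fin (n + 1)) (T' i j)).mul (isHomogeneous_X K j)
        rwa [zero_add] at h2
      rwa [one_mul] at h2
  · intro 𝔭 hpp h𝔭 D hD M hM hM2
    have hprod : c₀ * ∏ i, c i ∉ 𝔭 := fun h => h𝔭 ((hS 𝔭).2 ⟨hpp, h⟩)
    have hc0p : c₀ ∉ 𝔭 := fun h => hprod (𝔭.mul_mem_right _ h)
    have hcp : ∀ i, c i ∉ 𝔭 := fun i h => hprod (𝔭.mul_mem_left _
      (Ideal.mem_of_dvd 𝔭 (Finset.dvd_prod_of_mem c (Finset.mem_univ i)) h))
    refine regAt_of_critW (K := K) 𝔭 he P₀ hP₀d hc0p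
      (crit_of_smoothW e 𝔭 P₀ _ hP₀d fun i => ⟨c i, hcp i, k i, hk i⟩) x hx0 hgen b htb x
      (fun i j => if i = j then 1 else 0) ?_ (IntermediateField.subset_adjoin K _ ⟨none, rfl⟩)
      hrelP₀ D hD M hM hM2
    intro i
    simp only [apply_ite (algebraMap K F), map_one, map_zero, ite_mul, one_mul, zero_mul,
      Finset.sum_ite_eq, Finset.mem_univ, if_true]

end

end Pool.Agent.R187.WC
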