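import Pool.Agent.R187.WC.Susw

/-! Towers over the weighted forms given by monic polynomials. -/

set_option autoImplicit false
set_option linter.unusedSectionVars false
set_option linter.unusedVariables false

open MvPolynomial NumberField

namespace Pool.Agent.R187.WC

open Pool.Agent.H918R2.Quad Pool.Agent.TH214.RM

/-- The form `y ^ (m e) g (w / y ^ e)`. -/
noncomputable def ordW {R : Type} [CommRing R] (e m : ℕ) (g : Polynomial R) :
    MvPolynomial (Option (Fin (0 + 1))) R :=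
  ∑ i ∈ Finset.range (m + 1), C (g.coeff i) * X none ^ i * X (some 0) ^ ((m - i) * e)

section

variable {R : Type} [CommRing R]

theorem whom_ordW (e m : ℕ) (g : Polynomial R) :
    (ordW e m g).IsWeightedHomogeneous (wt e) (m * e) := by
  unfold ordW
  rw [← mem_weightedHomogeneousSubmodule]
  refine Submodule.sum_mem _ fun i hi => ?_
  rw [mem_weightedHomogeneousSubmodule]
  rw [Finset.mem_range] at hi
  have h1 := ((isWeightedHomogeneous_C (wt (ι := Fin (0 + 1)) e) (g.coeff i)).mul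
    ((isWeightedHomogeneous_X R (wt (ι := Fin (0 + 1)) e) none).pow i)).mul
    ((isWeightedHomogeneous_X R (wt (ι := Fin (0 + 1)) e) (some 0)).pow ((m - i) * e))
  rw [wt_none, wt_some, smul_eq_mul, smul_eq_mul, mul_one, zero_add (i * e), ← add_mul] at h1
  have h2 : i + (m - i) = m := by omega
  rwa [h2] at h1

theorem coeff_ordW (e m : ℕ) (he : 1 ≤ e) (g : Polynomial R) :
    coeff (Finsupp.single none m) (ordW e m g) = g.coeff m := by
  classical
  unfold ordW
  rw [coeff_sum, Finset.sum_eq_single m]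
  · rw [Nat.sub_self, zero_mul, pow_zero, mul_one, coeff_C_mul, coeff_X_pow, if_pos rfl, mul_one]
  · intro i hi him
    rw [Finset.mem_range] at hi
    rw [mul_assoc, coeff_C_mul]
    have h1 : (X none ^ i * X (some 0) ^ ((m - i) * e) : MvPolynomial (Option (Fin (0 + 1))) R) =
        monomial (Finsupp.single none i + Finsupp.single (some 0) ((m - i) * e)) 1 := by
      rw [X_pow_eq_monomial, X_pow_eq_monomial, monomial_mul, one_mul]
    rw [h1, coeff_monomial, if_neg, mul_zero]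
    intro h2
    have h3 := DFunLike.congr_fun h2 none
    simp at h3
    omega
  · intro h
    exact absurd (Finset.mem_range.2 (by omega)) h

theorem dehW_ordW (e m : ℕ) (g : Polynomial R) (hg : g.natDegree = m) :
    dehW 0 (ordW e m g) = Polynomial.aeval (X none) g := by
  rw [Polynomial.aeval_eq_sum_range' (n := m + 1) (by omega)]
  unfold ordW dehW
  rw [map_sum]
  refine Finset.sum_congr rfl fun i _ => ?_
  rw [map_mul, map_mul, map_pow, map_pow, aeval_X, aeval_X, aeval_C, tauW_none, tauW_self, one_pow,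
    mul_one, Algebra.smul_def]

theorem map_ordW {S : Type} [CommRing S] (φ : R →+* S) (e m : ℕ) (g : Polynomial R) :
    map φ (ordW e m g) = ordW e m (g.map φ) := by
  unfold ordW
  rw [map_sum]
  refine Finset.sum_congr rfl fun i _ => ?_
  rw [map_mul, map_mul, map_pow, map_pow, map_X, map_X, map_C, Polynomial.coeff_map]

theorem secW_ordW (e m : ℕ) (he : 1 ≤ e) (g : Polynomial R) (hg : g.coeff m = 1) :
    SecW (ordW e m g) := by
  intro P₀ hP₀ h0 hF _ j
  have hn : (X none : MvPolynomial (Option (Fin (0 + 1))) R) ∈ P₀ := by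
    unfold ordW at hF
    rw [Finset.sum_range_succ, hg, Nat.sub_self, zero_mul, pow_zero, mul_one, C_1, one_mul] at hF
    have h1 : ∑ i ∈ Finset.range m, C (g.coeff i) * X none ^ i * X (some 0) ^ ((m - i) * e) ∈
        P₀ := by
      refine Ideal.sum_mem _ fun i hi => Ideal.mul_mem_left _ _ ?_
      rw [Finset.mem_range] at hi
      refine Ideal.pow_mem_of_mem _ h0 _ (Nat.mul_pos (by omega) he)
    have h2 := P₀.sub_mem hF h1
    rw [add_sub_cancel_left] at h2
    exact hP₀.mem_of_pow_mem _ h2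
  rcases j with _ | j
  · exact hn
  · have hj : j = 0 := Subsingleton.elim (α := Fin 1) j 0
    rw [hj]
    exact h0

/-- The chart of the form is the polynomial ring in one variable. -/
noncomputable def phiW (R : Type) [CommRing R] :
    Polynomial R →ₐ[R] MvPolynomial (Option {j : Fin (0 + 1) // j ≠ 0}) R :=
  Polynomial.aeval (X none)

noncomputable def psiW (R : Type) [CommRing R] :
    MvPolynomial (Option {j : Fin (0 + 1) // j ≠ 0}) R →ₐ[R] Polynomial R :=
  aeval (fun _ => Polynomial.X)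

theorem phi_psiW (x : MvPolynomial (Option {j : Fin (0 + 1) // j ≠ 0}) R) :
    phiW R (psiW R x) = x := by
  have h1 : (phiW R).comp (psiW R) = AlgHom.id R _ := by
    apply MvPolynomial.algHom_ext
    intro o
    rw [AlgHom.comp_apply, AlgHom.id_apply]
    unfold phiW psiW
    rw [aeval_X, Polynomial.aeval_X]
    rcases o with _ | ⟨j, hj⟩
    · rfl
    · exact absurd (Subsingleton.elim (α := Fin 1) j 0) hj
  exact congrArg (fun g => g x) h1

theorem psi_phiW (x : Polynomial R) : psiW R (phiW R x) = x := by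
  have h1 : (psiW R).comp (phiW R) = AlgHom.id R _ := by
    apply Polynomial.algHom_ext
    rw [AlgHom.comp_apply, AlgHom.id_apply]
    unfold phiW psiW
    rw [Polynomial.aeval_X, aeval_X]
  exact congrArg (fun g => g x) h1

theorem comap_phi (q : Ideal (MvPolynomial (Option {j : Fin (0 + 1) // j ≠ 0}) R)) (r : R) :
    Polynomial.C r ∈ q.comap (phiW R).toRingHom ↔ C r ∈ q := by
  rw [Ideal.mem_comap]
  have h1 : (phiW R).toRingHom (Polynomial.C r) = C r := by
    change phiW R (Polynomial.C r) = C r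
    unfold phiW
    rw [Polynomial.aeval_C]
    rfl
  rw [h1]

theorem psi_mem (q : Ideal (MvPolynomial (Option {j : Fin (0 + 1) // j ≠ 0}) R))
    (f : MvPolynomial (Option {j : Fin (0 + 1) // j ≠ 0}) R) :
    psiW R f ∈ q.comap (phiW R).toRingHom ↔ f ∈ q := by
  rw [Ideal.mem_comap]
  change phiW R (psiW R f) ∈ q ↔ _
  rw [phi_psiW]

theorem psi_mem_sq (q : Ideal (MvPolynomial (Option {j : Fin (0 + 1) // j ≠ 0}) R))
    (f : MvPolynomial (Option {j : Fin (0 + 1) // j ≠ 0}) R) (hf : f ∈ q ^ 2) :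
    psiW R f ∈ (q.comap (phiW R).toRingHom) ^ 2 := by
  have h1 : (q ^ 2).map (psiW R).toRingHom ≤ (q.comap (phiW R).toRingHom) ^ 2 := by
    rw [Ideal.map_pow]
    refine Ideal.pow_right_mono ?_ 2
    rw [Ideal.map_le_iff_le_comap]
    intro g hg
    exact (psi_mem q g).2 hg
  exact h1 (Ideal.mem_map_of_mem _ hf)

theorem crit_ordW (𝔭 : Ideal R) (e m : ℕ) (g : Polynomial R) (hg : g.natDegree = m)
    (hreg : ∀ 𝔮 : Ideal (Polynomial R), 𝔮.IsPrime → (∀ r : R, Polynomial.C r ∈ 𝔮 ↔ r ∈ 𝔭) →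
      g ∈ 𝔮 → ∀ h, h ∉ 𝔮 → h * g ∉ 𝔮 ^ 2) : CritW 𝔭 (ordW e m g) := by
  intro s Q hQ hCQ hGQ
  right
  intro h hh hhG
  have hs : s = 0 := Subsingleton.elim (α := Fin 1) s 0
  subst hs
  rw [dehW_ordW e m g hg] at hGQ hhG
  refine hreg (Q.comap (phiW R).toRingHom) (Ideal.comap_isPrime _ _)
    (fun r => (comap_phi Q r).trans (hCQ r)) hGQ (psiW R h) (fun h1 => hh ((psi_mem Q h).1 h1)) ?_
  have h1 := psi_mem_sq Q _ hhG
  rw [map_mul] at h1
  have h2 : psiW R (Polynomial.aeval (X none) g) = g := psi_phiW g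
  rwa [h2] at h1

theorem wild_ordW (𝔭 : Ideal R) (d e m : ℕ) (g : Polynomial R) (hg : g.natDegree = m)
    (hw : ∀ p : ℕ, p.Prime → p ∣ d - 1 → (p : R) ∈ 𝔭 →
      ∀ 𝔮 : Ideal (Polynomial R), 𝔮.IsPrime → (∀ r : R, Polynomial.C r ∈ 𝔮 ↔ r ∈ 𝔭) →
      Polynomial.derivative g ∈ 𝔮 → Finite (Polynomial R ⧸ 𝔮) ∧ ∀ a, g + a ^ p ∉ 𝔮 ^ 2) :
    WildW 𝔭 d (ordW e m g) := by
  intro p hp hpd hp𝔭 q hq hCq hpq
  rw [dehW_ordW e m g hg] at hpq ⊢
  obtain ⟨h1, h2⟩ := hw p hp hpd hp𝔭 (q.comap (phiW R).toRingHom) (Ideal.comap_isPrime _ _)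
    (fun r => (comap_phi q r).trans (hCq r)) (by
      have h3 := hpq none
      rw [Derivation.map_aeval, pderiv_X_self, smul_eq_mul, mul_one] at h3
      exact h3)
  refine ⟨?_, ?_⟩
  · refine Finite.of_surjective (Ideal.quotientMap q (phiW R).toRingHom le_rfl) ?_
    intro x
    obtain ⟨x, rfl⟩ := Ideal.Quotient.mk_surjective x
    refine ⟨Ideal.Quotient.mk _ (psiW R x), ?_⟩
    rw [Ideal.quotientMap_mk]
    congr 1
    exact phi_psiW x
  · intro a ha
    apply h2 (psiW R a)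
    have h4 := psi_mem_sq q _ ha
    rw [map_add, map_pow] at h4
    have h5 : psiW R (Polynomial.aeval (X none) g) = g := psi_phiW g
    rwa [h5] at h4

end

/-- The residue rings are finite at the critical points if the degree is prime to the
characteristic. -/
theorem finite_of_derivative {O : Type} [CommRing O] (𝔭 : Ideal O) [h𝔭 : 𝔭.IsMaximal]
    [Finite (O ⧸ 𝔭)] (g : Polynomial O) (m : ℕ) (hm : 1 ≤ m) (hg : g.coeff m = 1)
    (hm𝔭 : (m : O) ∉ 𝔭) (𝔮 : Ideal (Polynomial O)) (hCq : ∀ r : O, Polynomial.C r ∈ 𝔮 ↔ r ∈ 𝔭)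
    (hq : Polynomial.derivative g ∈ 𝔮) : Finite (Polynomial O ⧸ 𝔮) := by
  let _ : Field (O ⧸ 𝔭) := Ideal.Quotient.field 𝔭
  let f : Polynomial (O ⧸ 𝔭) := (Polynomial.derivative g).map (Ideal.Quotient.mk 𝔭)
  have hf : f ≠ 0 := by
    intro h
    have h1 : f.coeff (m - 1) = 0 := by rw [h, Polynomial.coeff_zero]
    rw [Polynomial.coeff_map, Polynomial.coeff_derivative] at h1
    have h2 : m - 1 + 1 = m := by omega
    rw [h2, hg, one_mul] at h1
    have h3 : ((m - 1 : ℕ) : O) + 1 = (m : O) := by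
      exact_mod_cast congrArg (Nat.cast (R := O)) h2
    rw [h3, Ideal.Quotient.eq_zero_iff_mem] at h1
    exact hm𝔭 h1
  have : Module.Finite (O ⧸ 𝔭) (AdjoinRoot f) := (AdjoinRoot.powerBasis hf).finite
  have hfin : Finite (AdjoinRoot f) := Module.finite_of_finite (O ⧸ 𝔭)
  let i : (O ⧸ 𝔭) →+* (Polynomial O ⧸ 𝔮) :=
    Ideal.Quotient.lift 𝔭 ((Ideal.Quotient.mk 𝔮).comp Polynomial.C)
      (fun r hr => Ideal.Quotient.eq_zero_iff_mem.2 ((hCq r).2 hr))
  have hi : ∀ h : Polynomial O, (h.map (Ideal.Quotient.mk 𝔭)).eval₂ i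
      (Ideal.Quotient.mk 𝔮 Polynomial.X) = Ideal.Quotient.mk 𝔮 h := by
    intro h
    rw [Polynomial.eval₂_map]
    have h1 : i.comp (Ideal.Quotient.mk 𝔭) = (Ideal.Quotient.mk 𝔮).comp Polynomial.C := by
      ext r
      rfl
    rw [h1, ← Polynomial.hom_eval₂, Polynomial.eval₂_C_X]
  let l : AdjoinRoot f →+* (Polynomial O ⧸ 𝔮) :=
    AdjoinRoot.lift i (Ideal.Quotient.mk 𝔮 Polynomial.X) (by
      rw [hi]
      exact Ideal.Quotient.eq_zero_iff_mem.2 hq)
  refine Finite.of_surjective l ?_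
  intro x
  obtain ⟨x, rfl⟩ := Ideal.Quotient.mk_surjective x
  refine ⟨AdjoinRoot.mk f (x.map (Ideal.Quotient.mk 𝔭)), ?_⟩
  change AdjoinRoot.lift _ _ _ _ = _
  rw [AdjoinRoot.lift_mk, hi]

/-- Smoothness of the form of a separable polynomial. -/
theorem smooth_ordW {K : Type} [Field K] [CharZero K] (e m : ℕ) (he : 1 ≤ e) (hm : 1 ≤ m)
    (g : Polynomial K) (hg : g.natDegree = m) (hsep : g.Separable) : SmoothW (ordW e m g) := by
  intro i
  rw [Ideal.radical_eq_sInf, Submodule.mem_sInf]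
  rintro P ⟨hPle, hP⟩
  have hi : i = 0 := Subsingleton.elim (α := Fin 1) i 0
  subst hi
  by_contra hy
  have hall : ∀ j, pderiv j (ordW e m g) ∈ P := fun j => hPle (Ideal.subset_span ⟨j, rfl⟩)
  have hwh := whom_ordW e m g
  have hFP : ordW e m g ∈ P := by
    have h3 := hwh.sum_weight_X_mul_pderiv
    have h4 : ∑ i, wt e i • (X i * pderiv i (ordW e m g)) ∈ P := by
      refine Ideal.sum_mem _ fun i _ => ?_
      exact Submodule.smul_of_tower_mem _ _ (Ideal.mul_mem_left _ _ (hall i))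
    rw [h3, nsmul_eq_mul] at h4
    refine (hP.mem_or_mem h4).resolve_left fun h5 => ?_
    have h6 : IsUnit ((m * e : ℕ) : MvPolynomial (Option (Fin (0 + 1))) K) := by
      have h7 : ((m * e : ℕ) : K) ≠ 0 := by
        rw [Nat.cast_ne_zero]
        exact (Nat.mul_pos (by omega) he).ne'
      have h8 := (Ne.isUnit h7).map (C : K →+* MvPolynomial (Option (Fin (0 + 1))) K)
      rwa [map_natCast] at h8
    exact hP.ne_top (Ideal.eq_top_of_isUnit_mem _ h5 h6)
  have : IsDomain (MvPolynomial (Option (Fin (0 + 1))) K ⧸ P) := Ideal.Quotient.isDomain P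
  let κ := FractionRing (MvPolynomial (Option (Fin (0 + 1))) K ⧸ P)
  let a : Option (Fin (0 + 1)) → κ := fun j =>
    algebraMap (MvPolynomial (Option (Fin (0 + 1))) K ⧸ P) κ (Ideal.Quotient.mk P (X j))
  have ha : ∀ G : MvPolynomial (Option (Fin (0 + 1))) K, aeval a G =
      algebraMap (MvPolynomial (Option (Fin (0 + 1))) K ⧸ P) κ (Ideal.Quotient.mk P G) := by
    intro G
    have h1 : (aeval a : MvPolynomial (Option (Fin (0 + 1))) K →ₐ[K] κ) =
        (IsScalarTower.toAlgHom K (MvPolynomial (Option (Fin (0 + 1))) K ⧸ P) κ).comp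
          (Ideal.Quotient.mkₐ K P) := by
      apply MvPolynomial.algHom_ext
      intro j
      rw [aeval_X]
      rfl
    rw [h1]
    rfl
  have ha0 : ∀ G ∈ P, aeval a G = 0 := by
    intro G hG
    rw [ha, Ideal.Quotient.eq_zero_iff_mem.2 hG, map_zero]
  have hy0 : a (some 0) ≠ 0 := by
    intro h
    have h1 := (map_eq_zero_iff _ (IsFractionRing.injective
      (MvPolynomial (Option (Fin (0 + 1))) K ⧸ P) κ)).1 h
    exact hy (Ideal.Quotient.eq_zero_iff_mem.1 h1)
  let v : κ := (a (some 0))⁻¹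
  have hv : a (some 0) * v = 1 := mul_inv_cancel₀ hy0
  let θ : MvPolynomial (Option {j : Fin (0 + 1) // j ≠ 0}) K →ₐ[K] κ :=
    aeval (fun j => a (j.map Subtype.val) * v ^ wt e (j.map Subtype.val))
  have hθ : ∀ (G : MvPolynomial (Option (Fin (0 + 1))) K) (N : ℕ),
      G.IsWeightedHomogeneous (wt e) N → G ∈ P → θ (dehW 0 G) = 0 := by
    intro G N hG hGP
    have h1 := aeval_chartW e a 0 v hv G N hG
    rw [ha0 G hGP, zero_mul] at h1
    exact h1
  have h1 := hθ _ _ hwh hFP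
  have h2 := hθ _ (m * e - e) (hwh.pderiv (i := none) (by
    rw [wt_none]
    exact Nat.sub_add_cancel (Nat.le_mul_of_pos_left e (by omega)))) (hall none)
  have h3 : dehW 0 (pderiv none (ordW e m g)) =
      pderiv none (dehW 0 (ordW e m g)) := by
    rw [pderiv_dehW]
    rfl
  rw [dehW_ordW e m g hg] at h1
  rw [h3, dehW_ordW e m g hg, Derivation.map_aeval, pderiv_X_self, smul_eq_mul, mul_one] at h2
  rw [← Polynomial.aeval_algHom_apply] at h1 h2
  obtain ⟨A, B, hAB⟩ := hsep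
  have h4 := congrArg (Polynomial.aeval (θ (X none))) hAB
  rw [map_add, map_mul, map_mul, h1, h2, mul_zero, mul_zero, add_zero, map_one] at h4
  exact zero_ne_one h4

theorem map_upW {O K : Type} [CommRing O] [CommRing K] (φ : O →+* K) (d : ℕ) {m : ℕ}
    (F : MvPolynomial (Option (Fin (m + 1))) O) : map φ (upW d F) = upW d (map φ F) := by
  unfold upW
  rw [map_add, map_mul, map_pow, map_X, map_X, map_rename]

theorem map_towrW {O K : Type} [CommRing O] [CommRing K] (φ : O →+* K) (d : ℕ) {r : ℕ}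
    (F : MvPolynomial (Option (Fin (r + 1))) O) (k : ℕ) :
    map φ (towrW d F k) = towrW d (map φ F) k := by
  induction k with
  | zero => exact map_upW φ d F
  | succ k ih =>
    change map φ (upW d (towrW d F k)) = upW d (towrW d (map φ F) k)
    rw [map_upW, ih]

theorem map_chainW {O K : Type} [CommRing O] [CommRing K] (φ : O →+* K) (d : ℕ) {r : ℕ}
    (F : MvPolynomial (Option (Fin (r + 1))) O) (k : ℕ) :
    map φ (chainW d k F) = chainW d k (map φ F) := by
  rw [chainW_eq, chainW_eq, map_towrW]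

theorem coeff_upW {O : Type} [CommRing O] (d m : ℕ) {r : ℕ}
    (F : MvPolynomial (Option (Fin (r + 1))) O) :
    coeff (Finsupp.single none m) (upW d F) = coeff (Finsupp.single none m) F := by
  classical
  unfold upW
  rw [coeff_add]
  have h1 : (X (some 0) ^ (d - 1) * X (some 1) : MvPolynomial (Option (Fin (r + 2))) O) =
      monomial (Finsupp.single (some 0) (d - 1) + Finsupp.single (some 1) 1) 1 := by
    rw [X_pow_eq_monomial, X, monomial_mul, one_mul]
  rw [h1, coeff_monomial, if_neg, zero_add]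
  · have h2 : (Finsupp.single none m : Option (Fin (r + 2)) →₀ ℕ) =
        Finsupp.mapDomain (Option.map Fin.succ) (Finsupp.single none m) := by
      rw [Finsupp.mapDomain_single]
      rfl
    rw [h2, coeff_rename_mapDomain _ (sinj _)]
  · intro h2
    have h3 := DFunLike.congr_fun h2 (some 1)
    simp at h3

theorem coeff_towrW {O : Type} [CommRing O] (d m : ℕ) {r : ℕ}
    (F : MvPolynomial (Option (Fin (r + 1))) O) (k : ℕ) :
    coeff (Finsupp.single none m) (towrW d F k) = coeff (Finsupp.single none m) F := by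
  induction k with
  | zero => exact coeff_upW d m F
  | succ k ih =>
    change coeff _ (upW d (towrW d F k)) = _
    rw [coeff_upW, ih]

/-- An integral equation which is regular over each nonzero prime. -/
theorem locRegW_of_int {O K : Type} [CommRing O] [Field K] [Algebra O K] {n : ℕ} (e m : ℕ)
    (H : MvPolynomial (Option (Fin (n + 1))) O) (hH : H.IsWeightedHomogeneous (wt e) (m * e))
    (hc : coeff (Finsupp.single none m) H = 1)
    (h : ∀ 𝔭 : Ideal O, 𝔭.IsPrime → 𝔭 ≠ ⊥ → CritW 𝔭 H) :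
    LocRegW O e m (map (algebraMap O K) H) := by
  intro 𝔭 hp h0
  refine ⟨H, 1, 1, 1, 1, 0, one_ne_zero, one_mul 1, isHomogeneous_zero _ _ _, ?_, hH, ?_,
    h 𝔭 hp h0⟩
  · rw [C_1, one_mul]
    have h1 : (aeval (subW (1 : Matrix (Fin (n + 1)) (Fin (n + 1)) K) 1 0) :
        MvPolynomial (Option (Fin (n + 1))) K →ₐ[K] MvPolynomial (Option (Fin (n + 1))) K) =
        AlgHom.id K _ := by
      apply MvPolynomial.algHom_ext
      intro i
      rw [aeval_X, AlgHom.id_apply]
      rcases i with _ | i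
      · simp [subW]
      · simp [subW, Matrix.one_apply]
    rw [h1, AlgHom.id_apply]
  · rw [hc]
    exact (Ideal.ne_top_iff_one 𝔭).1 hp.ne_top

section final

variable {K : Type} [Field K] [NumberField K]

theorem data_chainW (e m : ℕ) (he : 1 ≤ e) (hd : 3 ≤ m * e) {r : ℕ} (k : ℕ)
    (F : MvPolynomial (Option (Fin (r + 1))) (𝓞 K))
    (hF : F.IsWeightedHomogeneous (wt e) (m * e)) (hc : coeff (Finsupp.single none m) F = 1)
    (hsm : SmoothW (upW (m * e) (map (algebraMap (𝓞 K) K) F)))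
    (hreg : ∀ 𝔭 : Ideal (𝓞 K), 𝔭.IsPrime → 𝔭 ≠ ⊥ → CritW 𝔭 (upW (m * e) F)) :
    (chainW (m * e) k (map (algebraMap (𝓞 K) K) F)).IsWeightedHomogeneous (wt e) (m * e) ∧
      coeff (Finsupp.single none m) (chainW (m * e) k (map (algebraMap (𝓞 K) K) F)) ≠ 0 ∧
      SmoothW (chainW (m * e) k (map (algebraMap (𝓞 K) K) F)) ∧
      LocRegW (𝓞 K) e m (chainW (m * e) k (map (algebraMap (𝓞 K) K) F)) := by
  have hwh : (towrW (m * e) F k).IsWeightedHomogeneous (wt e) (m * e) := by
    have key : ∀ k, (towrW (m * e) F k).IsWeightedHomogeneous (wt e) (m * e) := by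
      intro k
      induction k with
      | zero => exact whom_upW e _ (by omega) F hF
      | succ k ih => exact whom_upW e _ (by omega) _ ih
    exact key k
  have hc' : coeff (Finsupp.single none m) (towrW (m * e) F k) = 1 := by
    rw [coeff_towrW, hc]
  rw [← map_chainW, chainW_eq]
  refine ⟨whom_map _ hwh, ?_, ?_, ?_⟩
  · rw [coeff_map, hc', map_one]
    exact one_ne_zero
  · rw [map_towrW]
    exact smooth_towrW _ hd _ hsm k
  · exact locRegW_of_int e m _ hwh hc' fun 𝔭 hp h0 =>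
      (crit_towrW 𝔭 e (m * e) hd F hF (hreg 𝔭 hp h0) k).2

theorem data_ordW (e m : ℕ) (he : 1 ≤ e) (hm : 2 ≤ m) (hd : 3 ≤ m * e)
    (g : Polynomial (𝓞 K)) (hg : g.Monic) (hgm : g.natDegree = m)
    (hsep : (g.map (algebraMap (𝓞 K) K)).Separable)
    (hreg : ∀ 𝔮 : Ideal (Polynomial (𝓞 K)), 𝔮.IsPrime → g ∈ 𝔮 → ∀ h, h ∉ 𝔮 → h * g ∉ 𝔮 ^ 2)
    (hw : ∀ p : ℕ, p.Prime → p ∣ m * e - 1 → ∀ 𝔮 : Ideal (Polynomial (𝓞 K)), 𝔮.IsPrime →
      (p : Polynomial (𝓞 K)) ∈ 𝔮 → Polynomial.derivative g ∈ 𝔮 → ∀ a, g + a ^ p ∉ 𝔮 ^ 2) :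
    SmoothW (upW (m * e) (map (algebraMap (𝓞 K) K) (ordW e m g))) ∧
      ∀ 𝔭 : Ideal (𝓞 K), 𝔭.IsPrime → 𝔭 ≠ ⊥ → CritW 𝔭 (upW (m * e) (ordW e m g)) := by
  have hcoef : g.coeff m = 1 := by
    rw [← hgm]
    exact hg
  refine ⟨?_, ?_⟩
  · rw [map_ordW]
    have h1 : (g.map (algebraMap (𝓞 K) K)).natDegree = m := by
      rw [hg.natDegree_map, hgm]
    have h2 : (g.map (algebraMap (𝓞 K) K)).coeff m = 1 := by
      rw [Polynomial.coeff_map, hcoef, map_one]
    exact smooth_suspW e _ hd _ (whom_ordW e m _) (smooth_ordW e m he (by omega) _ h1 hsep)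
      (secW_ordW e m he _ h2)
  · intro 𝔭 hp h0
    have hmax : 𝔭.IsMaximal := hp.isMaximal h0
    have hfin : Finite (𝓞 K ⧸ 𝔭) := Ideal.finiteQuotientOfFreeOfNeBot 𝔭 h0
    refine crit_suspW 𝔭 e (m * e) hd (Nat.le_mul_of_pos_left e (by omega)) _ (whom_ordW e m g)
      (secW_ordW e m he g hcoef) (crit_ordW 𝔭 e m g hgm fun 𝔮 hq _ hgq => hreg 𝔮 hq hgq)
      (wild_ordW 𝔭 (m * e) e m g hgm ?_)
    intro p hp' hpd hp𝔭 𝔮 hq hCq hdq
    have hm𝔭 : (m : 𝓞 K) ∉ 𝔭 := by
      intro h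
      have h1 : ((m * e - 1 : ℕ) : 𝓞 K) ∈ 𝔭 := by
        obtain ⟨c, hc⟩ := hpd
        rw [hc, Nat.cast_mul]
        exact 𝔭.mul_mem_right _ hp𝔭
      have h2 : ((m * e : ℕ) : 𝓞 K) ∈ 𝔭 := by
        rw [Nat.cast_mul]
        exact 𝔭.mul_mem_right _ h
      have h3 := 𝔭.sub_mem h2 h1
      have h4 : ((m * e : ℕ) : 𝓞 K) - ((m * e - 1 : ℕ) : 𝓞 K) = 1 := by
        rw [Nat.cast_sub (by omega), Nat.cast_one]
        ring
      rw [h4] at h3
      exact (Ideal.ne_top_iff_one 𝔭).1 hp.ne_top h3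
    refine ⟨finite_of_derivative 𝔭 g m (by omega) hcoef hm𝔭 𝔮 hCq hdq, ?_⟩
    refine hw p hp' hpd 𝔮 hq ?_ hdq
    have h1 := (hCq (p : 𝓞 K)).2 hp𝔭
    rwa [map_natCast] at h1

end final

end Pool.Agent.R187.WC
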