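import Pool.Agent.R187.WC.Ord
import Pool.Agent.TH214.RM.Exq

/-! Quadratic polynomials with squarefree discriminant. -/

set_option autoImplicit false
set_option linter.unusedSectionVars false
set_option linter.unusedVariables false

open Polynomial NumberField

namespace Pool.Agent.R187.WC

open Pool.Agent.TH214.RM

/-- The polynomial `X ^ 2 + A X + b`. -/
noncomputable def quaP {O : Type} [CommRing O] (A b : O) : Polynomial O := X ^ 2 + C A * X + C b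

theorem natDegree_quaP {O : Type} [CommRing O] [Nontrivial O] (A b : O) :
    (quaP A b).natDegree = 2 := by
  unfold quaP
  compute_degree!

theorem monic_quaP {O : Type} [CommRing O] [Nontrivial O] (A b : O) : (quaP A b).Monic := by
  unfold quaP
  monicity!

theorem derivative_quaP {O : Type} [CommRing O] (A b : O) :
    derivative (quaP A b) = C 2 * X + C A := by
  unfold quaP
  have h1 : (C (2 : O) : Polynomial O) = 1 + 1 := by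
    rw [show (2 : O) = 1 + 1 by norm_num, C_add, C_1]
  rw [h1]
  simp

theorem disc_quaP {O : Type} [CommRing O] (A b : O) :
    (C 2 * X + C A) ^ 2 - 4 * quaP A b = C (A ^ 2 - 4 * b) := by
  unfold quaP
  have h1 : (C 2 : Polynomial O) = 2 := map_ofNat C 2
  have h3 : (C 4 : Polynomial O) = 4 := map_ofNat C 4
  have h2 : (C (A ^ 2 - 4 * b) : Polynomial O) = C A ^ 2 - 4 * C b := by
    rw [C_sub, C_pow, C_mul, h3]
  rw [h1, h2]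
  ring

theorem map_quaP {O K : Type} [CommRing O] [CommRing K] (φ : O →+* K) (A b : O) :
    (quaP A b).map φ = quaP (φ A) (φ b) := by
  unfold quaP
  simp

theorem separable_quaP {K : Type} [Field K] (A b : K) (h : A ^ 2 - 4 * b ≠ 0) :
    (quaP A b).Separable := by
  refine ⟨-(C (A ^ 2 - 4 * b)⁻¹ * 4), C (A ^ 2 - 4 * b)⁻¹ * (C 2 * X + C A), ?_⟩
  rw [derivative_quaP]
  have h1 := disc_quaP A b
  have h2 : C (A ^ 2 - 4 * b)⁻¹ * C (A ^ 2 - 4 * b) = 1 := by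
    rw [← C_mul, inv_mul_cancel₀ h, C_1]
  calc -(C (A ^ 2 - 4 * b)⁻¹ * 4) * quaP A b +
        C (A ^ 2 - 4 * b)⁻¹ * (C 2 * X + C A) * (C 2 * X + C A)
      = C (A ^ 2 - 4 * b)⁻¹ * ((C 2 * X + C A) ^ 2 - 4 * quaP A b) := by ring
    _ = 1 := by rw [h1, h2]

theorem derivative_mem_of_sq {O : Type} [CommRing O] (𝔮 : Ideal (Polynomial O))
    (f : Polynomial O) (hf : f ∈ 𝔮 ^ 2) : derivative f ∈ 𝔮 := by
  rw [pow_two] at hf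
  refine Submodule.mul_induction_on hf ?_ ?_
  · intro a ha b hb
    rw [derivative_mul]
    exact 𝔮.add_mem (𝔮.mul_mem_left _ hb) (𝔮.mul_mem_right _ ha)
  · intro a b ha hb
    rw [derivative_add]
    exact 𝔮.add_mem ha hb

/-- The critical point of a quadratic polynomial. -/
theorem exists_eval {O : Type} [CommRing O] (𝔭 : Ideal O) (hm : 𝔭.IsMaximal)
    (𝔮 : Ideal (Polynomial O)) (hq : 𝔮.IsPrime) (hCq : ∀ r : O, C r ∈ 𝔮 ↔ r ∈ 𝔭) (A : O)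
    (h2 : (2 : O) ∉ 𝔭) (hd : C 2 * X + C A ∈ 𝔮) :
    ∃ c : O, 2 * c + A ∈ 𝔭 ^ 2 ∧ ∀ f, f ∈ 𝔮 ↔ eval c f ∈ 𝔭 := by
  obtain ⟨u, v, hv, huv⟩ : ∃ u, ∃ v ∈ 𝔭, u * 2 + v = 1 := by
    have h1 : 𝔭 ⊔ Ideal.span {(2 : O)} = ⊤ := by
      refine hm.1.2 _ (lt_of_le_of_ne le_sup_left fun h => h2 ?_)
      rw [h]
      exact Ideal.mem_sup_right (Ideal.mem_span_singleton_self _)
    have h3 : (1 : O) ∈ 𝔭 ⊔ Ideal.span {(2 : O)} := by rw [h1]; trivial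
    obtain ⟨v, hv, y, hy, hvy⟩ := Submodule.mem_sup.1 h3
    obtain ⟨u, hu⟩ := Ideal.mem_span_singleton'.1 hy
    exact ⟨u, v, hv, by rw [hu, add_comm]; exact hvy⟩
  have hc : 2 * (-(A * (2 * u - 2 * u ^ 2))) + A ∈ 𝔭 ^ 2 := by
    have h1 : 2 * (-(A * (2 * u - 2 * u ^ 2))) + A = A * v ^ 2 := by
      have h3 : v = 1 - u * 2 := by rw [← huv]; ring
      rw [h3]
      ring
    rw [h1]
    exact Ideal.mul_mem_left _ _ (Ideal.pow_mem_pow hv 2)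
  refine ⟨-(A * (2 * u - 2 * u ^ 2)), hc, ?_⟩
  set c := -(A * (2 * u - 2 * u ^ 2)) with hcdef
  have hXc : X - C c ∈ 𝔮 := by
    have h1 : C 2 * (X - C c) = (C 2 * X + C A) - C (2 * c + A) := by
      simp only [map_add, map_mul]
      ring
    have h3 : C 2 * (X - C c) ∈ 𝔮 := by
      rw [h1]
      exact 𝔮.sub_mem hd ((hCq _).2 (Ideal.pow_le_self (by norm_num) hc))
    exact (hq.mem_or_mem h3).resolve_left fun h => h2 ((hCq _).1 h)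
  intro f
  have h1 : f - C (eval c f) ∈ 𝔮 := by
    obtain ⟨g, hg⟩ := (X_sub_C_dvd_sub_C_eval : X - C c ∣ f - C (eval c f))
    rw [hg]
    exact 𝔮.mul_mem_right _ hXc
  rw [← hCq]
  constructor
  · intro hf
    have h3 := 𝔮.sub_mem hf h1
    rwa [sub_sub_cancel] at h3
  · intro hf
    have h3 := 𝔮.add_mem h1 hf
    rwa [sub_add_cancel] at h3

theorem eval_mem_sq {O : Type} [CommRing O] (𝔭 : Ideal O) (𝔮 : Ideal (Polynomial O)) (c : O)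
    (h : ∀ f, f ∈ 𝔮 ↔ eval c f ∈ 𝔭) (f : Polynomial O) (hf : f ∈ 𝔮 ^ 2) : eval c f ∈ 𝔭 ^ 2 := by
  have h1 : (𝔮 ^ 2).map (evalRingHom c) ≤ 𝔭 ^ 2 := by
    rw [Ideal.map_pow]
    refine Ideal.pow_right_mono ?_ 2
    rw [Ideal.map_le_iff_le_comap]
    intro g hg
    exact (h g).1 hg
  exact h1 (Ideal.mem_map_of_mem _ hf)

theorem four_eval {O : Type} [CommRing O] (A b c : O) :
    4 * eval c (quaP A b) = (2 * c + A) ^ 2 - (A ^ 2 - 4 * b) := by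
  unfold quaP
  simp
  ring

theorem reg_quaP {O : Type} [CommRing O] [IsDedekindDomain O] (A b : O)
    (hD : A ^ 2 - 4 * b ≠ 0)
    (hb : ∀ 𝔭 : Ideal O, 𝔭.IsPrime → 𝔭 ≠ ⊥ → A ^ 2 - 4 * b ∉ 𝔭 ^ 2 ∧ (2 ∈ 𝔭 → A ∉ 𝔭))
    (𝔮 : Ideal (Polynomial O)) (hq : 𝔮.IsPrime) (hg : quaP A b ∈ 𝔮) (h : Polynomial O)
    (hh : h ∉ 𝔮) : h * quaP A b ∉ 𝔮 ^ 2 := by
  intro hcon
  have hd : C 2 * X + C A ∈ 𝔮 := by
    have h1 := derivative_mem_of_sq 𝔮 _ hcon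
    rw [derivative_mul, derivative_quaP] at h1
    have h2 := 𝔮.sub_mem h1 (𝔮.mul_mem_left (derivative h) hg)
    rw [add_sub_cancel_left] at h2
    exact (hq.mem_or_mem h2).resolve_left hh
  let 𝔭 : Ideal O := 𝔮.comap (C : O →+* Polynomial O)
  have hp : 𝔭.IsPrime := Ideal.comap_isPrime _ _
  have hCq : ∀ r : O, C r ∈ 𝔮 ↔ r ∈ 𝔭 := fun r => Iff.rfl
  have hDp : A ^ 2 - 4 * b ∈ 𝔭 := by
    rw [← hCq, ← disc_quaP]
    exact 𝔮.sub_mem (Ideal.pow_mem_of_mem _ hd 2 (by norm_num)) (𝔮.mul_mem_left _ hg)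
  have h0 : 𝔭 ≠ ⊥ := by
    intro h0
    rw [h0, Ideal.mem_bot] at hDp
    exact hD hDp
  obtain ⟨hb1, hb2⟩ := hb 𝔭 hp h0
  have h2 : (2 : O) ∉ 𝔭 := by
    intro h2
    apply hb2 h2
    rw [← hCq]
    have h3 := 𝔮.sub_mem hd (𝔮.mul_mem_right X ((hCq 2).2 h2))
    rwa [add_sub_cancel_left] at h3
  have hm : 𝔭.IsMaximal := hp.isMaximal h0
  obtain ⟨c, hc, hev⟩ := exists_eval 𝔭 hm 𝔮 hq hCq A h2 hd
  have h3 := eval_mem_sq 𝔭 𝔮 c hev _ hcon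
  rw [eval_mul] at h3
  apply hb1
  refine mem_sq_of_mul 𝔭 hm (eval c h) _ ?_ ?_
  · exact fun h4 => hh ((hev h).2 h4)
  · have h4 : eval c h * (A ^ 2 - 4 * b) = eval c h * ((2 * c + A) * (2 * c + A)) -
        4 * (eval c h * eval c (quaP A b)) := by
      have h5 := four_eval A b c
      linear_combination (eval c h) * h5
    rw [h4]
    exact Ideal.sub_mem _ (Ideal.mul_mem_left _ _ (Ideal.mul_mem_left _ _ hc))
      (Ideal.mul_mem_left _ _ h3)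

theorem wild_quaP {O : Type} [CommRing O] [IsDedekindDomain O] [CharZero O] (A b : O) (e : ℕ)
    (he : 1 ≤ e)
    (hb : ∀ 𝔭 : Ideal O, 𝔭.IsPrime → 𝔭 ≠ ⊥ → ∀ p : ℕ, p.Prime → p ∣ 2 * e - 1 → (p : O) ∈ 𝔭 →
      ∀ t : O, A ^ 2 - 4 * b - 4 * t ^ p ∉ 𝔭 ^ 2)
    (p : ℕ) (hp' : p.Prime) (hpe : p ∣ 2 * e - 1)
    (𝔮 : Ideal (Polynomial O)) (hq : 𝔮.IsPrime) (hpq : (p : Polynomial O) ∈ 𝔮)
    (hd : derivative (quaP A b) ∈ 𝔮) (a : Polynomial O) : quaP A b + a ^ p ∉ 𝔮 ^ 2 := by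
  intro hcon
  rw [derivative_quaP] at hd
  let 𝔭 : Ideal O := 𝔮.comap (C : O →+* Polynomial O)
  have hp : 𝔭.IsPrime := Ideal.comap_isPrime _ _
  have hCq : ∀ r : O, C r ∈ 𝔮 ↔ r ∈ 𝔭 := fun r => Iff.rfl
  have hp𝔭 : (p : O) ∈ 𝔭 := by
    rw [← hCq, map_natCast]
    exact hpq
  have h0 : 𝔭 ≠ ⊥ := by
    intro h0
    rw [h0, Ideal.mem_bot] at hp𝔭
    exact hp'.ne_zero (Nat.cast_eq_zero.1 hp𝔭)
  have h2 : (2 : O) ∉ 𝔭 := by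
    intro h2
    obtain ⟨j, hj⟩ := hpe
    have h3 : ((2 * e - 1 : ℕ) : O) ∈ 𝔭 := by
      rw [hj, Nat.cast_mul]
      exact 𝔭.mul_mem_right _ hp𝔭
    have h4 : ((2 * e : ℕ) : O) ∈ 𝔭 := by
      rw [Nat.cast_mul]
      exact 𝔭.mul_mem_right _ (by exact_mod_cast h2)
    have h5 := 𝔭.sub_mem h4 h3
    have h6 : ((2 * e : ℕ) : O) - ((2 * e - 1 : ℕ) : O) = 1 := by
      rw [Nat.cast_sub (by omega), Nat.cast_one]
      ring
    rw [h6] at h5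
    exact (Ideal.ne_top_iff_one 𝔭).1 hp.ne_top h5
  have hm : 𝔭.IsMaximal := hp.isMaximal h0
  obtain ⟨c, hc, hev⟩ := exists_eval 𝔭 hm 𝔮 hq hCq A h2 hd
  have h3 := eval_mem_sq 𝔭 𝔮 c hev _ hcon
  rw [eval_add, eval_pow] at h3
  apply hb 𝔭 hp h0 p hp' hpe hp𝔭 (eval c a)
  have h4 : A ^ 2 - 4 * b - 4 * eval c a ^ p = (2 * c + A) * (2 * c + A) -
      4 * (eval c (quaP A b) + eval c a ^ p) := by
    have h5 := four_eval A b c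
    linear_combination h5
  rw [h4]
  exact Ideal.sub_mem _ (Ideal.mul_mem_left _ _ hc) (Ideal.mul_mem_left _ _ h3)

/-- Over the rational numbers. -/
theorem rat_quad (b : ℤ) (e : ℕ) (he : 1 ≤ e) (hsq : Squarefree (1 - 4 * b))
    (hdiv : ∀ p : ℕ, p.Prime → p ∣ 2 * e - 1 → (p : ℤ) ∣ 1 - 4 * b)
    (𝔭 : Ideal (𝓞 ℚ)) (hp : 𝔭.IsPrime) :
    (1 : 𝓞 ℚ) ^ 2 - 4 * (b : 𝓞 ℚ) ∉ 𝔭 ^ 2 ∧
      ∀ p : ℕ, p.Prime → p ∣ 2 * e - 1 → (p : 𝓞 ℚ) ∈ 𝔭 → ∀ t : 𝓞 ℚ,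
        (1 : 𝓞 ℚ) ^ 2 - 4 * (b : 𝓞 ℚ) - 4 * t ^ p ∉ 𝔭 ^ 2 := by
  have h1 : (1 : 𝓞 ℚ) ^ 2 - 4 * (b : 𝓞 ℚ) = ((1 - 4 * b : ℤ) : 𝓞 ℚ) := by
    push_cast
    ring
  have h2 : (1 : 𝓞 ℚ) ^ 2 - 4 * (b : 𝓞 ℚ) ∉ 𝔭 ^ 2 := by
    rw [h1]
    intro h
    have h3 : Squarefree (1 - 4 * b).natAbs := Int.squarefree_natAbs.2 hsq
    apply rat_notMem_sq _ h3 𝔭 hp
    rcases Int.natAbs_eq (1 - 4 * b) with h4 | h4
    · have h5 : (((1 - 4 * b).natAbs : ℕ) : 𝓞 ℚ) = ((1 - 4 * b : ℤ) : 𝓞 ℚ) := by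
        have := congrArg (Int.cast (R := 𝓞 ℚ)) h4
        rw [this, Int.cast_natCast]
      rw [h5]
      exact h
    · have h5 : (((1 - 4 * b).natAbs : ℕ) : 𝓞 ℚ) = -((1 - 4 * b : ℤ) : 𝓞 ℚ) := by
        have := congrArg (Int.cast (R := 𝓞 ℚ)) h4
        rw [this, Int.cast_neg, Int.cast_natCast, neg_neg]
      rw [h5]
      exact neg_mem h
  refine ⟨h2, fun p hp' hpe hp𝔭 t ht => h2 ?_⟩
  have h20 : (2 : 𝓞 ℚ) ∉ 𝔭 := by
    intro h2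
    obtain ⟨j, hj⟩ := hpe
    have h3 : ((2 * e - 1 : ℕ) : 𝓞 ℚ) ∈ 𝔭 := by
      rw [hj, Nat.cast_mul]
      exact 𝔭.mul_mem_right _ hp𝔭
    have h4 : ((2 * e : ℕ) : 𝓞 ℚ) ∈ 𝔭 := by
      rw [Nat.cast_mul]
      exact 𝔭.mul_mem_right _ (by exact_mod_cast h2)
    have h5 := 𝔭.sub_mem h4 h3
    have h6 : ((2 * e : ℕ) : 𝓞 ℚ) - ((2 * e - 1 : ℕ) : 𝓞 ℚ) = 1 := by
      rw [Nat.cast_sub (by omega), Nat.cast_one]
      ring
    rw [h6] at h5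
    exact (Ideal.ne_top_iff_one 𝔭).1 hp.ne_top h5
  have hD : (1 : 𝓞 ℚ) ^ 2 - 4 * (b : 𝓞 ℚ) ∈ 𝔭 := by
    rw [h1]
    obtain ⟨j, hj⟩ := hdiv p hp' hpe
    rw [hj, Int.cast_mul, Int.cast_natCast]
    exact 𝔭.mul_mem_right _ hp𝔭
  have h3 : 4 * t ^ p ∈ 𝔭 := by
    have h4 := 𝔭.sub_mem hD (Ideal.pow_le_self (by norm_num) ht)
    rwa [sub_sub_cancel] at h4
  have h5 : t ∈ 𝔭 := by
    have h6 : (4 : 𝓞 ℚ) = 2 * 2 := by norm_num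
    rw [h6, mul_assoc] at h3
    exact hp.mem_of_pow_mem p
      ((hp.mem_or_mem ((hp.mem_or_mem h3).resolve_left h20)).resolve_left h20)
  have h6 : t ^ p ∈ 𝔭 ^ 2 := Ideal.pow_le_pow_right hp'.two_le (Ideal.pow_mem_pow h5 p)
  have h7 := Ideal.add_mem _ ht (Ideal.mul_mem_left _ 4 h6)
  rwa [sub_add_cancel] at h7

end Pool.Agent.R187.WC
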