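import Pool.Agent.R187.WC.Chw

/-! Suspensions of weighted hypersurfaces. -/

set_option autoImplicit false
set_option linter.unusedSectionVars false
set_option linter.unusedVariables false

namespace Pool.Agent.R187.WC

open Pool.Agent.H918R2.Quad MvPolynomial Pool.Agent.TH214.RM

/-- The hyperplane section `y_0 = 0` is smooth, over every point of the base. -/
def SecW {O : Type} [CommRing O] {r : ℕ} (F : MvPolynomial (Option (Fin (r + 1))) O) : Prop :=
  ∀ P₀ : Ideal (MvPolynomial (Option (Fin (r + 1))) O), P₀.IsPrime → X (some 0) ∈ P₀ → F ∈ P₀ →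
    (∀ j, j ≠ some 0 → pderiv j F ∈ P₀) → ∀ j, X j ∈ P₀

theorem mem_of_whom {O ι : Type} [CommRing O] (e : ℕ) (I : Ideal (MvPolynomial (Option ι) O))
    (hX : ∀ j, X j ∈ I) (P : MvPolynomial (Option ι) O) (N : ℕ) (hN : 1 ≤ N)
    (hP : P.IsWeightedHomogeneous (wt e) N) : P ∈ I := by
  have h3 : ∀ P : MvPolynomial (Option ι) O, P - C (constantCoeff P) ∈ I := by
    intro P
    induction P using MvPolynomial.induction_on with
    | C a => simp
    | add p q hp hq =>
      rw [map_add, map_add]
      have h4 : p + q - (C (constantCoeff p) + C (constantCoeff q)) =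
        (p - C (constantCoeff p)) + (q - C (constantCoeff q)) := by ring
      rw [h4]
      exact Ideal.add_mem _ hp hq
    | mul_X p i hp =>
      rw [map_mul, constantCoeff_X, mul_zero, map_zero, sub_zero]
      exact Ideal.mul_mem_left _ _ (hX i)
  have h4 := h3 P
  have h5 : constantCoeff P = 0 := by
    rw [constantCoeff_eq]
    by_contra h
    have h1 := hP h
    simp only [map_zero] at h1
    omega
  rwa [h5, map_zero, sub_zero] at h4

/-- The wild condition at `𝔭`. -/
def WildW {O : Type} [CommRing O] (𝔭 : Ideal O) (d : ℕ) {r : ℕ}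
    (F : MvPolynomial (Option (Fin (r + 1))) O) : Prop :=
  ∀ p : ℕ, p.Prime → p ∣ d - 1 → (p : O) ∈ 𝔭 →
    ∀ q : Ideal (MvPolynomial (Option {j : Fin (r + 1) // j ≠ 0}) O), q.IsPrime →
      (∀ r, C r ∈ q ↔ r ∈ 𝔭) → (∀ j, pderiv j (dehW 0 F) ∈ q) →
      Finite (MvPolynomial (Option {j : Fin (r + 1) // j ≠ 0}) O ⧸ q) ∧
        ∀ g, dehW 0 F + g ^ p ∉ q ^ 2

theorem crit_suspW {O : Type} [CommRing O] [IsNoetherianRing O] (𝔭 : Ideal O) [𝔭.IsPrime]
    (e d : ℕ) (hd : 3 ≤ d) (hed : e ≤ d) {r : ℕ} (F : MvPolynomial (Option (Fin (r + 1))) O)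
    (hF : F.IsWeightedHomogeneous (wt e) d)
    (hsec : SecW F) (hreg : CritW 𝔭 F) (hw : WildW 𝔭 d F) : CritW 𝔭 (upW d F) := by
  intro s Q hQ hCQ hGQ
  by_contra hcon
  push Not at hcon
  obtain ⟨hpd, f, hf, hfG⟩ := hcon
  have hGh := whom_upW e d (by omega) F hF
  have hall := all_pderiv_memW e _ d hGh s Q hGQ hpd
  by_cases ha0 : (tauW s (some 0) : MvPolynomial (Option {i // i ≠ s}) O) ∈ Q
  · exact crit_retractW 𝔭 d hd F hreg s Q hQ hCQ hGQ hall ha0 f hf hfG
  · -- the coordinate `y_0` is invertible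
    have ha1 : (tauW s (some 1) : MvPolynomial (Option {i // i ≠ s}) O) ∉ Q := by
      intro ha1
      apply ha0
      let ρ : MvPolynomial (Option (Fin (r + 1))) O →ₐ[O] MvPolynomial (Option {j // j ≠ s}) O :=
        (aeval (tauW s)).comp (rename (Option.map Fin.succ))
      let P₀ : Ideal (MvPolynomial (Option (Fin (r + 1))) O) := Q.comap ρ.toRingHom
      have hP₀ : P₀.IsPrime := Ideal.comap_isPrime _ _
      have hmem : ∀ P, P ∈ P₀ ↔ dehW s (rename (Option.map Fin.succ) P) ∈ Q := fun P => Iff.rfl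
      have hX0 : X (some 0) ∈ P₀ := by
        rw [hmem, rename_X, dehW_X]
        exact ha1
      have hFP : F ∈ P₀ := by
        rw [hmem]
        have h1 := hGQ
        unfold upW at h1
        rw [dehW_add, dehW_mul, dehW_X] at h1
        have h2 := Q.sub_mem h1 (Q.mul_mem_left (dehW s (X (some 0) ^ (d - 1))) ha1)
        rwa [add_sub_cancel_left] at h2
      have hpP : ∀ i, i ≠ some 0 → pderiv i F ∈ P₀ := by
        intro i hi
        rw [hmem, ← pderiv_succ_upW d F i hi]
        exact hall _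
      have hX := hsec P₀ hP₀ hX0 hFP hpP
      have h3 : pderiv (some 0) F ∈ P₀ :=
        mem_of_whom e P₀ hX _ (d - 1) (by omega) (hF.pderiv (by rw [wt_some]; omega))
      rw [hmem] at h3
      have h4 := hall (some 1)
      rw [pderiv_one_upW, dehW_add, dehW_pow, dehW_X] at h4
      have h5 := Q.sub_mem h4 h3
      rw [add_sub_cancel_right] at h5
      exact hQ.mem_of_pow_mem _ h5
    have hd1 : ((d - 1 : ℕ) : O) ∈ 𝔭 := by
      have h0 := hall (some 0)
      rw [pderiv_zero_upW, dehW_mul, dehW_mul, dehW_pow, dehW_natCast, dehW_X, dehW_X] at h0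
      have h1 := (hQ.mem_or_mem h0).resolve_right ha1
      have h2 := (hQ.mem_or_mem h1).resolve_right (fun h => ha0 (hQ.mem_of_pow_mem _ h))
      rw [← hCQ, map_natCast]
      exact h2
    obtain ⟨p, hp, hpdvd, hp𝔭⟩ := exists_prime_mem 𝔭 (d - 1) (by omega) hd1
    obtain ⟨Q', hQ', hCQ', hiff, hmain⟩ :=
      chart_changeW e 𝔭 s (0 : Fin (r + 1)).succ Q hQ hCQ ha1
    refine hmain (upW d F) d hGh ?_ f hf hfG
    intro h hh
    refine crit_wildW 𝔭 d hd F p hp hpdvd hp𝔭 (hw p hp hpdvd hp𝔭) Q' hQ' hCQ'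
      ((hiff _ d hGh).2 hGQ) (fun j => ?_) h hh
    rcases j with _ | j
    · exact (hiff _ (d - e) (hGh.pderiv (by rw [wt_none]; omega))).2 (hall none)
    · exact (hiff _ (d - 1) (hGh.pderiv (by rw [wt_some]; omega))).2 (hall (some j))

/-- Smoothness of the suspension over a field of characteristic zero. -/
theorem smooth_suspW {K : Type} [Field K] [CharZero K] (e d : ℕ) (hd : 3 ≤ d) {r : ℕ}
    (F : MvPolynomial (Option (Fin (r + 1))) K) (hF : F.IsWeightedHomogeneous (wt e) d)
    (hsm : SmoothW F) (hsec : SecW F) : SmoothW (upW d F) := by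
  have key : ∀ P : Ideal (MvPolynomial (Option (Fin (r + 2))) K), P.IsPrime →
      (∀ j, pderiv j (upW d F) ∈ P) → ∀ i, X (some i) ∈ P := by
    intro P hP hall
    let P' : Ideal (MvPolynomial (Option (Fin (r + 1))) K) :=
      P.comap (rename (Option.map Fin.succ) :
      MvPolynomial (Option (Fin (r + 1))) K →ₐ[K] MvPolynomial (Option (Fin (r + 2))) K).toRingHom
    have hP' : P'.IsPrime := Ideal.comap_isPrime _ _
    have hmem' : ∀ f, f ∈ P' ↔ rename (Option.map Fin.succ) f ∈ P := fun f => Iff.rfl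
    have hpj : ∀ j, j ≠ some 0 → pderiv j F ∈ P' := by
      intro j hj
      rw [hmem', ← pderiv_succ_upW d _ j hj]
      exact hall _
    have h1 := hall (some 1)
    rw [pderiv_one_upW] at h1
    have hd0 : ((d - 1 : ℕ) : MvPolynomial (Option (Fin (r + 2))) K) ∉ P := by
      intro h
      have h2 : IsUnit ((d - 1 : ℕ) : MvPolynomial (Option (Fin (r + 2))) K) := by
        have h3 : ((d - 1 : ℕ) : K) ≠ 0 := by
          rw [Nat.cast_ne_zero]
          omega
        have h4 := (Ne.isUnit h3).map (C : K →+* MvPolynomial (Option (Fin (r + 2))) K)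
        rwa [map_natCast] at h4
      exact hP.ne_top (Ideal.eq_top_of_isUnit_mem _ h h2)
    have h0 := hall (some 0)
    rw [pderiv_zero_upW] at h0
    have hstep : (X (some 0) : MvPolynomial (Option (Fin (r + 2))) K) ∈ P →
        ∀ i, X (some i) ∈ P := by
      intro ha0 i
      refine Fin.cases ha0 (fun i => ?_) i
      have h2 : Ideal.span (Set.range fun j => pderiv j F) ≤ P' := by
        rw [Ideal.span_le]
        rintro _ ⟨j, rfl⟩
        by_cases hj : j = some 0
        · change pderiv j F ∈ P'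
          rw [hj, hmem']
          have h5 := P.sub_mem h1 (Ideal.pow_mem_of_mem _ ha0 (d - 1) (by omega))
          rwa [add_sub_cancel_left] at h5
        · exact hpj j hj
      have h3 := (Ideal.IsPrime.radical_le_iff hP').2 h2 (hsm i)
      rw [hmem', rename_X] at h3
      exact h3
    rcases hP.mem_or_mem h0 with h2 | h2
    · have h3 := (hP.mem_or_mem h2).resolve_left hd0
      exact hstep (hP.mem_of_pow_mem _ h3)
    · have hX0 : X (some 0) ∈ P' := by
        rw [hmem', rename_X]
        exact h2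
      have hFP : F ∈ P' := by
        have h3 := hF.sum_weight_X_mul_pderiv
        have h4 : ∑ i, wt e i • (X i * pderiv i F) ∈ P' := by
          refine Ideal.sum_mem _ fun i _ => ?_
          refine Submodule.smul_of_tower_mem _ _ ?_
          by_cases hi : i = some 0
          · rw [hi]
            exact Ideal.mul_mem_right _ _ hX0
          · exact Ideal.mul_mem_left _ _ (hpj i hi)
        rw [h3, nsmul_eq_mul] at h4
        refine (hP'.mem_or_mem h4).resolve_left fun h5 => ?_
        have h6 : IsUnit ((d : ℕ) : MvPolynomial (Option (Fin (r + 1))) K) := by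
          have h7 : ((d : ℕ) : K) ≠ 0 := by
            rw [Nat.cast_ne_zero]
            omega
          have h8 := (Ne.isUnit h7).map (C : K →+* MvPolynomial (Option (Fin (r + 1))) K)
          rwa [map_natCast] at h8
        exact hP'.ne_top (Ideal.eq_top_of_isUnit_mem _ h5 h6)
      have hX := hsec P' hP' hX0 hFP hpj
      have h3 : pderiv (some 0) F ∈ P' :=
        mem_of_whom e P' hX _ (d - 1) (by omega) (hF.pderiv (by rw [wt_some]; omega))
      rw [hmem'] at h3
      have h5 := P.sub_mem h1 h3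
      rw [add_sub_cancel_right] at h5
      exact hstep (hP.mem_of_pow_mem _ h5)
  intro i
  rw [Ideal.radical_eq_sInf, Submodule.mem_sInf]
  rintro P ⟨hPle, hP⟩
  exact key P hP (fun j => hPle (Ideal.subset_span ⟨j, rfl⟩)) i

/-- The tower over `F`. -/
noncomputable def towrW {O : Type} [CommRing O] (d : ℕ) {r : ℕ}
    (F : MvPolynomial (Option (Fin (r + 1))) O) :
    (k : ℕ) → MvPolynomial (Option (Fin (r + k + 2))) O
  | 0 => upW d F
  | k + 1 => upW d (towrW d F k)

theorem crit_towrW {O : Type} [CommRing O] (𝔭 : Ideal O) (e d : ℕ) (hd : 3 ≤ d) {r : ℕ}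
    (F : MvPolynomial (Option (Fin (r + 1))) O) (hF : F.IsWeightedHomogeneous (wt e) d)
    (h : CritW 𝔭 (upW d F)) (k : ℕ) :
    (towrW d F k).IsWeightedHomogeneous (wt e) d ∧ CritW 𝔭 (towrW d F k) := by
  have key : ∀ k, ∃ F₀ : MvPolynomial (Option (Fin (r + k + 1))) O,
      F₀.IsWeightedHomogeneous (wt e) d ∧ towrW d F k = upW d F₀ ∧ CritW 𝔭 (upW d F₀) := by
    intro k
    induction k with
    | zero => exact ⟨F, hF, rfl, h⟩
    | succ k ih =>
      obtain ⟨F₀, hF₀, h1, h2⟩ := ih
      refine ⟨upW d F₀, whom_upW e d (by omega) F₀ hF₀, ?_, crit_upW 𝔭 e d hd F₀ hF₀ h2⟩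
      change upW d (towrW d F k) = _
      rw [h1]
  obtain ⟨F₀, hF₀, h1, h2⟩ := key k
  rw [h1]
  exact ⟨whom_upW e d (by omega) F₀ hF₀, h2⟩

theorem smooth_towrW {K : Type} [Field K] (d : ℕ) (hd : 3 ≤ d) {r : ℕ}
    (F : MvPolynomial (Option (Fin (r + 1))) K) (h : SmoothW (upW d F)) (k : ℕ) :
    SmoothW (towrW d F k) := by
  have key : ∀ k, ∃ F₀ : MvPolynomial (Option (Fin (r + k + 1))) K,
      towrW d F k = upW d F₀ ∧ SmoothW (upW d F₀) := by
    intro k
    induction k with
    | zero => exact ⟨F, rfl, h⟩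
    | succ k ih =>
      obtain ⟨F₀, h1, h2⟩ := ih
      refine ⟨upW d F₀, ?_, smooth_upW d hd F₀ h2⟩
      change upW d (towrW d F k) = _
      rw [h1]
  obtain ⟨F₀, h1, h2⟩ := key k
  rw [h1]
  exact h2

/-- The closed form of the tower. -/
noncomputable def chainW {O : Type} [CommRing O] (d : ℕ) {r : ℕ} (k : ℕ)
    (F : MvPolynomial (Option (Fin (r + 1))) O) : MvPolynomial (Option (Fin (r + k + 2))) O :=
  (∑ i ∈ Finset.range (k + 1),
    X (some (Fin.ofNat (r + k + 2) i)) ^ (d - 1) * X (some (Fin.ofNat (r + k + 2) (i + 1)))) +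
  rename (Option.map fun j : Fin (r + 1) => Fin.ofNat (r + k + 2) (k + 1 + j)) F

theorem chainW_eq {O : Type} [CommRing O] (d : ℕ) {r : ℕ}
    (F : MvPolynomial (Option (Fin (r + 1))) O) (k : ℕ) : chainW d k F = towrW d F k := by
  induction k with
  | zero =>
    change chainW d 0 F = X (some 0) ^ (d - 1) * X (some 1) + rename (Option.map Fin.succ) F
    unfold chainW
    rw [zero_add, Finset.sum_range_one]
    congr 3
    funext j
    rcases j with _ | j
    · rfl
    rw [Option.map_some, Option.map_some]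
    congr 1
    apply Fin.ext
    simp only [Fin.ofNat, Fin.val_succ]
    have := j.2
    rw [Nat.mod_eq_of_lt (by omega)]
    omega
  | succ k ih =>
    change chainW d (k + 1) F = X (some 0) ^ (d - 1) * X (some 1) +
      rename (Option.map Fin.succ) (towrW d F k)
    rw [← ih]
    unfold chainW
    rw [Finset.sum_range_succ', map_add, map_sum, rename_rename]
    have h0 : (Fin.ofNat (r + (k + 1) + 2) 0) = 0 := rfl
    have h1 : (Fin.ofNat (r + (k + 1) + 2) (0 + 1)) = 1 := by
      apply Fin.ext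
      simp only [Fin.ofNat, zero_add, Fin.val_one]
      rw [Nat.mod_eq_of_lt (by omega)]
    rw [h0, h1]
    have h2 : ∀ i ∈ Finset.range (k + 1),
        (X (some (Fin.ofNat (r + (k + 1) + 2) (i + 1))) ^ (d - 1) *
          X (some (Fin.ofNat (r + (k + 1) + 2) (i + 1 + 1))) :
          MvPolynomial (Option (Fin (r + (k + 1) + 2))) O) =
        rename (Option.map Fin.succ) (X (some (Fin.ofNat (r + k + 2) i)) ^ (d - 1) *
          X (some (Fin.ofNat (r + k + 2) (i + 1)))) := by
      intro i hi
      rw [Finset.mem_range] at hi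
      rw [map_mul, map_pow, rename_X, rename_X, Option.map_some, Option.map_some]
      have h3 : (Fin.ofNat (r + (k + 1) + 2) (i + 1)) = (Fin.ofNat (r + k + 2) i).succ :=
        ofNat_succ (r + k + 1) i (by omega)
      have h4 : (Fin.ofNat (r + (k + 1) + 2) (i + 1 + 1)) = (Fin.ofNat (r + k + 2) (i + 1)).succ :=
        ofNat_succ (r + k + 1) (i + 1) (by omega)
      rw [h3, h4]
    rw [Finset.sum_congr rfl h2]
    have h5 : (Option.map fun j : Fin (r + 1) => Fin.ofNat (r + (k + 1) + 2) (k + 1 + 1 + j)) =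
        (Option.map Fin.succ) ∘
          (Option.map fun j : Fin (r + 1) => Fin.ofNat (r + k + 2) (k + 1 + j)) := by
      funext o
      rcases o with _ | j
      · rfl
      · simp only [Option.map_some, Function.comp_apply]
        congr 1
        have := j.2
        have h6 := ofNat_succ (r + k + 1) (k + 1 + j) (by omega)
        rw [← h6]
        congr 1
        omega
    rw [h5]
    ring

end Pool.Agent.R187.WC
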