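import Pool.Agent.R187.WC.Cov
import Pool.Agent.TH214.RM.Base3

/-! Cyclic coverings branched along towers, and double coverings with a linear term. -/

set_option autoImplicit false
set_option linter.unusedSectionVars false
set_option linter.unusedVariables false

open MvPolynomial NumberField

namespace Pool.Agent.R187.WC

open Pool.Agent.H918R2.Quad Pool.Agent.TH214.RM

theorem prime_eq_of_mem {O : Type} [CommRing O] (𝔭 : Ideal O) [h𝔭 : 𝔭.IsPrime] {p q : ℕ}
    (hp : p.Prime) (hq : q.Prime) (hp' : (p : O) ∈ 𝔭) (hq' : (q : O) ∈ 𝔭) : p = q := by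
  by_contra hne
  have h1 : Nat.Coprime p q := (Nat.coprime_primes hp hq).2 hne
  obtain ⟨a, b, hab⟩ := (Nat.isCoprime_iff_coprime.2 h1)
  have h2 : (1 : O) ∈ 𝔭 := by
    have h3 : ((a : O) * (p : O) + (b : O) * (q : O)) = 1 := by
      have := congrArg (Int.cast (R := O)) hab
      push_cast at this
      exact this
    rw [← h3]
    exact 𝔭.add_mem (𝔭.mul_mem_left _ hp') (𝔭.mul_mem_left _ hq')
  exact h𝔭.ne_top ((Ideal.eq_top_iff_one _).2 h2)

theorem wildCyc_tower {O : Type} [CommRing O] (𝔭 : Ideal O) [𝔭.IsPrime] (m d : ℕ) (hmd : m ∣ d)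
    (hd : 3 ≤ d) {r : ℕ} (F : MvPolynomial (Fin (r + 1)) O) (hF : F.IsHomogeneous d)
    (h : WildCyc 𝔭 m (chain d 0 F)) (k : ℕ) : WildCyc 𝔭 m (chain d k F) := by
  rw [chain_eq] at h
  rw [chain_eq]
  intro p hp hpm hp𝔭
  have h1 : WildCyc 𝔭 d (up d F) := by
    intro p' hp' hpd hp𝔭'
    have h2 : p = p' := prime_eq_of_mem 𝔭 hp hp' hp𝔭 hp𝔭'
    subst h2
    exact h p hp' hpm hp𝔭'
  exact wildCyc_towr 𝔭 d hd F hF h1 k p hp (hpm.trans hmd) hp𝔭

theorem aeval_one_matrix {K : Type} [Field K] {n : ℕ} (F : MvPolynomial (Fin n) K) :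
    aeval (fun i => ∑ j, C ((1 : Matrix (Fin n) (Fin n) K) i j) * X j :
      Fin n → MvPolynomial (Fin n) K) F = F := by
  have h1 : (aeval (fun i => ∑ j, C ((1 : Matrix (Fin n) (Fin n) K) i j) * X j) :
      MvPolynomial (Fin n) K →ₐ[K] MvPolynomial (Fin n) K) = AlgHom.id K _ := by
    apply MvPolynomial.algHom_ext
    intro i
    rw [aeval_X, AlgHom.id_apply]
    simp [Matrix.one_apply]
  rw [h1, AlgHom.id_apply]

theorem locCyc_of_int {O K : Type} [CommRing O] [Field K] [Algebra O K] {n : ℕ} (m : ℕ)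
    (H : MvPolynomial (Fin (n + 1)) O)
    (h : ∀ 𝔭 : Ideal O, 𝔭.IsPrime → 𝔭 ≠ ⊥ → Crit 𝔭 H ∧ WildCyc 𝔭 m H) :
    LocCyc O m (map (algebraMap O K) H) := by
  intro 𝔭 hp h0
  obtain ⟨h1, h2⟩ := h 𝔭 hp h0
  refine ⟨H, 1, 1, 1, one_ne_zero, one_mul 1, ?_, h1, h2⟩
  rw [one_pow, C_1, one_mul, aeval_one_matrix]

section final

variable {K : Type} [Field K] [NumberField K]

theorem data_cycW_chain (m d : ℕ) (hmd : m ∣ d) (hd : 3 ≤ d) {r : ℕ} (k : ℕ)
    (F : MvPolynomial (Fin (r + 1)) (𝓞 K)) (hF : F.IsHomogeneous d)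
    (hsm : Smooth (chain d 0 (map (algebraMap (𝓞 K) K) F)))
    (hreg : ∀ 𝔭 : Ideal (𝓞 K), 𝔭.IsPrime → 𝔭 ≠ ⊥ →
      Reg 𝔭 (chain d 0 F) ∧ WildCyc 𝔭 m (chain d 0 F)) :
    (chain d k (map (algebraMap (𝓞 K) K) F)).IsHomogeneous d ∧
      Smooth (chain d k (map (algebraMap (𝓞 K) K) F)) ∧
      LocCyc (𝓞 K) m (chain d k (map (algebraMap (𝓞 K) K) F)) := by
  obtain ⟨h1, h2, _⟩ := data_chain3 d hd k F hF hsm (fun 𝔭 hp h0 => (hreg 𝔭 hp h0).1)
  refine ⟨h1, h2, ?_⟩
  rw [← map_chain]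
  apply locCyc_of_int
  intro 𝔭 hp h0
  obtain ⟨h3, h4⟩ := hreg 𝔭 hp h0
  refine ⟨?_, wildCyc_tower 𝔭 m d hmd hd F hF h4 k⟩
  rw [chain_eq] at h3
  rw [chain_eq]
  exact (crit_towr 𝔭 d hd F hF h3.crit k).2

theorem data_cycW_zero (m d : ℕ) (hmd : m ∣ d) (hd : 3 ≤ d) (b : 𝓞 K) (hb : b ≠ 0)
    (hb2 : ∀ 𝔭 : Ideal (𝓞 K), 𝔭.IsPrime → 𝔭 ≠ ⊥ → b ∉ 𝔭 ^ 2 ∧
      ∀ p : ℕ, p.Prime → p ∣ m * (d - 1) → (p : 𝓞 K) ∈ 𝔭 → ∀ c : 𝓞 K, b + c ^ p ∉ 𝔭 ^ 2) :
    Smooth (chain d 0 (map (algebraMap (𝓞 K) K)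
      (C b * X 0 ^ d : MvPolynomial (Fin (0 + 1)) (𝓞 K)))) ∧
      ∀ 𝔭 : Ideal (𝓞 K), 𝔭.IsPrime → 𝔭 ≠ ⊥ →
        Reg 𝔭 (chain d 0 (C b * X 0 ^ d : MvPolynomial (Fin (0 + 1)) (𝓞 K))) ∧
        WildCyc 𝔭 m (chain d 0 (C b * X 0 ^ d : MvPolynomial (Fin (0 + 1)) (𝓞 K))) := by
  obtain ⟨h1, h2, h3⟩ := data_zero2 d hd b hb (fun 𝔭 hp h0 => ⟨(hb2 𝔭 hp h0).1,
    fun p hp' hpd hp𝔭 => (hb2 𝔭 hp h0).2 p hp' (hpd.mul_left _) hp𝔭⟩)
  obtain ⟨h4, h5⟩ := base_of_adm d hd _ (isHomogeneous_zero d b) h1 h2 h3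
  refine ⟨h4, fun 𝔭 hp h0 => ⟨h5 𝔭 hp h0, ?_⟩⟩
  intro p hp' hpm hp𝔭
  refine wildCyc_chain_zero 𝔭 hp h0 d hd b ?_ p hp' (hpm.trans hmd) hp𝔭
  intro p' hp'' hpd' hp𝔭'
  have h2 : p = p' := prime_eq_of_mem 𝔭 hp' hp'' hp𝔭 hp𝔭'
  subst h2
  exact (hb2 𝔭 hp h0).2 p hp' (hpm.mul_right _) hp𝔭

end final

/-- The form `w ^ 2 + A(x) w + B(x)`. -/
noncomputable def dblW {O ι : Type} [CommRing O] (A B : MvPolynomial ι O) :
    MvPolynomial (Option ι) O :=
  X none ^ 2 + rename some A * X none + rename some B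

theorem map_dblW {O K ι : Type} [CommRing O] [CommRing K] (φ : O →+* K)
    (A B : MvPolynomial ι O) : map φ (dblW A B) = dblW (map φ A) (map φ B) := by
  unfold dblW
  rw [map_add, map_add, map_pow, map_mul, map_X, map_rename, map_rename]

theorem whom_rename {O ι : Type} [CommRing O] [Fintype ι] (e d : ℕ) (F : MvPolynomial ι O)
    (hF : F.IsHomogeneous d) : (rename some F).IsWeightedHomogeneous (wt e) d := by
  classical
  intro s hs
  obtain ⟨t, rfl, ht⟩ := coeff_rename_ne_zero _ _ _ hs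
  have h1 : t.degree = d := by
    by_contra hne
    exact ht (hF.coeff_eq_zero hne)
  rw [← h1, weight_eq]
  have h2 : (Finsupp.mapDomain some t) none = 0 :=
    Finsupp.mapDomain_notin_range _ _ (by simp)
  have h3 : ∀ j, (Finsupp.mapDomain some t) (some j) = t j := fun j =>
    Finsupp.mapDomain_apply (Option.some_injective _) t j
  rw [h2, zero_mul, zero_add, Finset.sum_congr rfl fun j _ => h3 j, Finsupp.degree_eq_sum]

theorem whom_dblW {O ι : Type} [CommRing O] [Fintype ι] (e : ℕ) (A B : MvPolynomial ι O)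
    (hA : A.IsHomogeneous e) (hB : B.IsHomogeneous (2 * e)) :
    (dblW A B).IsWeightedHomogeneous (wt e) (2 * e) := by
  unfold dblW
  refine (IsWeightedHomogeneous.add ?_ ?_).add (whom_rename e _ B hB)
  · exact (isWeightedHomogeneous_X O (wt (ι := ι) e) none).pow 2
  · have h1 := (whom_rename e _ A hA).mul (isWeightedHomogeneous_X O (wt (ι := ι) e) none)
    rw [wt_none] at h1
    rwa [two_mul]

theorem coeff_none_rename {O ι : Type} [CommRing O] (m : ℕ) (hm : 1 ≤ m) (F : MvPolynomial ι O) :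
    coeff (Finsupp.single none m) (rename some F) = 0 := by
  classical
  by_contra h
  obtain ⟨t, ht, _⟩ := coeff_rename_ne_zero _ _ _ h
  have h2 : (Finsupp.mapDomain some t) none = 0 :=
    Finsupp.mapDomain_notin_range _ _ (by simp)
  rw [ht, Finsupp.single_eq_same] at h2
  omega

theorem coeff_dblW {O ι : Type} [CommRing O] (A B : MvPolynomial ι O) :
    coeff (Finsupp.single none 2) (dblW A B) = 1 := by
  classical
  unfold dblW
  rw [coeff_add, coeff_add, coeff_X_pow, if_pos rfl, coeff_none_rename 2 (by norm_num)]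
  have h1 : (Finsupp.single none 2 : Option ι →₀ ℕ) =
      Finsupp.single none 1 + Finsupp.single none 1 := by
    rw [← Finsupp.single_add]
  rw [h1, coeff_mul_X, coeff_none_rename 1 le_rfl]
  simp

theorem pderiv_none_rename {O ι : Type} [CommRing O] (F : MvPolynomial ι O) :
    pderiv none (rename some F) = 0 := by
  classical
  induction F using MvPolynomial.induction_on with
  | C a => simp
  | add p q hp hq => rw [map_add, map_add, hp, hq, add_zero]
  | mul_X p i hp =>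
    rw [map_mul, rename_X, Derivation.leibniz, hp, pderiv_X_of_ne (by simp)]
    simp

/-- Smoothness of the double covering, from the smoothness of its branch divisor. -/
theorem smooth_dblW {K : Type} [Field K] {r : ℕ}
    (A B : MvPolynomial (Fin (r + 1)) K) (hsm : Smooth (A ^ 2 - 4 * B)) : SmoothW (dblW A B) := by
  intro i
  obtain ⟨k, hk⟩ := hsm i
  refine ⟨k, ?_⟩
  have h1 := Ideal.mem_map_of_mem (rename some : MvPolynomial (Fin (r + 1)) K →ₐ[K]
    MvPolynomial (Option (Fin (r + 1))) K) hk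
  rw [map_pow, rename_X, Ideal.map_span] at h1
  refine Ideal.span_le.2 ?_ h1
  rintro _ ⟨_, ⟨j, rfl⟩, rfl⟩
  set I := Ideal.span (Set.range fun j => pderiv j (dblW A B)) with hI
  have h2 : pderiv none (dblW A B) ∈ I := Ideal.subset_span ⟨none, rfl⟩
  have h3 : pderiv (some j) (dblW A B) ∈ I := Ideal.subset_span ⟨some j, rfl⟩
  have h4 : pderiv none (dblW A B) = 2 * X none + rename some A := by
    unfold dblW
    rw [map_add, map_add, pderiv_none_rename, Derivation.leibniz, pderiv_none_rename,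
      Derivation.leibniz_pow, pderiv_X_self]
    simp
  have h5 : pderiv (some j) (dblW A B) = rename some (pderiv j A) * X none +
      rename some (pderiv j B) := by
    unfold dblW
    rw [map_add, map_add, pderiv_rename (Option.some_injective _), Derivation.leibniz,
      pderiv_rename (Option.some_injective _), Derivation.leibniz_pow,
      pderiv_X_of_ne (by simp)]
    simp [mul_comm]
  rw [h4] at h2
  rw [h5] at h3
  have h6 : (rename some : MvPolynomial (Fin (r + 1)) K →ₐ[K] MvPolynomial (Option (Fin (r + 1))) K)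
      (pderiv j (A ^ 2 - 4 * B)) = 2 * rename some (pderiv j A) * (2 * X none + rename some A) -
        4 * (rename some (pderiv j A) * X none + rename some (pderiv j B)) := by
    have h7 : pderiv j (A ^ 2 - 4 * B) = 2 * A * pderiv j A - 4 * pderiv j B := by
      rw [map_sub, Derivation.leibniz_pow, Derivation.leibniz]
      have h8 : pderiv j (4 : MvPolynomial (Fin (r + 1)) K) = 0 := by
        have := (pderiv j : Derivation K (MvPolynomial (Fin (r + 1)) K) _).map_natCast 4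
        simpa using this
      rw [h8]
      simp only [smul_zero, add_zero, smul_eq_mul, Nat.add_one_sub_one, pow_one, nsmul_eq_mul,
        Nat.cast_ofNat]
      ring
    rw [h7, map_sub, map_mul, map_mul, map_mul, map_ofNat, map_ofNat]
    ring
  change (rename some : MvPolynomial (Fin (r + 1)) K →ₐ[K] MvPolynomial (Option (Fin (r + 1))) K)
      (pderiv j (A ^ 2 - 4 * B)) ∈ I
  rw [h6]
  exact I.sub_mem (I.mul_mem_left _ h2) (I.mul_mem_left _ h3)

/-- A double covering with integral equation is regular at suitable coordinates if its branch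
divisor is regular at the primes not dividing two, and the covering is regular at the primes
dividing two. -/
theorem locRegW_dbl {O K : Type} [CommRing O] [IsDedekindDomain O] [Field K] [Algebra O K]
    [IsFractionRing O K] [CharZero K] {n : ℕ} (e : ℕ)
    (A B : MvPolynomial (Fin (n + 1)) O) (hA : A.IsHomogeneous e) (hB : B.IsHomogeneous (2 * e))
    (hodd : ∀ 𝔭 : Ideal O, 𝔭.IsPrime → 𝔭 ≠ ⊥ → (2 : O) ∉ 𝔭 → Crit 𝔭 (A ^ 2 - 4 * B))
    (htwo : ∀ 𝔭 : Ideal O, 𝔭.IsPrime → 𝔭 ≠ ⊥ → (2 : O) ∈ 𝔭 → CritW 𝔭 (dblW A B)) :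
    LocRegW O e 2 (map (algebraMap O K) (dblW A B)) := by
  classical
  intro 𝔭 hp h0
  by_cases h2 : (2 : O) ∈ 𝔭
  · refine ⟨dblW A B, 1, 1, 1, 1, 0, one_ne_zero, one_mul 1, isHomogeneous_zero _ _ _, ?_,
      whom_dblW e A B hA hB, ?_, htwo 𝔭 hp h0 h2⟩
    · rw [C_1, one_mul]
      have h1 : (aeval (subW (1 : Matrix (Fin (n + 1)) (Fin (n + 1)) K) 1 0) :
          MvPolynomial (Option (Fin (n + 1))) K →ₐ[K] MvPolynomial (Option (Fin (n + 1))) K) =
          AlgHom.id K _ := by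
        apply MvPolynomial.algHom_ext
        intro i
        rw [aeval_X, AlgHom.id_apply]
        rcases i with _ | i
        · simp [subW]
        · simp [subW, Matrix.one_apply]
      rw [h1, AlgHom.id_apply]
    · rw [coeff_dblW]
      exact (Ideal.ne_top_iff_one 𝔭).1 hp.ne_top
  · have hDh : (-(A ^ 2 - 4 * B)).IsHomogeneous (2 * e) := by
      refine IsHomogeneous.neg (IsHomogeneous.sub ?_ ?_)
      · have h3 := hA.pow 2
        rwa [mul_comm] at h3
      · have h3 := (isHomogeneous_C (Fin (n + 1)) (4 : O)).mul hB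
        rw [zero_add] at h3
        exact h3
    have hcr : Crit 𝔭 (-(A ^ 2 - 4 * B)) := by
      intro s Q hQ hCQ hG
      have h4 : deh s (-(A ^ 2 - 4 * B)) = -deh s (A ^ 2 - 4 * B) := by simp [deh]
      rw [h4] at hG ⊢
      rcases hodd 𝔭 hp h0 h2 s Q hQ hCQ (neg_mem_iff.1 hG) with ⟨j, hj⟩ | h5
      · left
        refine ⟨j, fun h6 => hj ?_⟩
        rw [map_neg] at h6
        exact neg_mem_iff.1 h6
      · right
        intro h hh h6
        rw [mul_neg] at h6
        exact h5 h hh (neg_mem_iff.1 h6)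
    have hw : WildCyc 𝔭 2 (-(A ^ 2 - 4 * B)) := by
      intro p hp' hp2 hp𝔭
      rw [(Nat.prime_dvd_prime_iff_eq hp' Nat.prime_two).1 hp2] at hp𝔭
      exact absurd hp𝔭 (by exact_mod_cast h2)
    have h20 : (2 : K) ≠ 0 := two_ne_zero
    refine ⟨cycW 2 (-(A ^ 2 - 4 * B)), 4, 2⁻¹, 1, 1, -(C 2⁻¹ * map (algebraMap O K) A),
      inv_ne_zero h20, one_mul 1, ?_, ?_, whom_cycW 2 e _ hDh, ?_,
      crit_cycW 𝔭 2 e le_rfl _ hDh hcr hw⟩
    · have h3 := ((isHomogeneous_C (Fin (n + 1)) (2⁻¹ : K)).mul (hA.map (algebraMap O K))).neg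
      rwa [zero_add] at h3
    · rw [map_cycW, map_dblW]
      have h3 : (aeval (subW (1 : Matrix (Fin (n + 1)) (Fin (n + 1)) K) 2⁻¹
          (-(C 2⁻¹ * map (algebraMap O K) A))) :
          MvPolynomial (Option (Fin (n + 1))) K →ₐ[K] MvPolynomial (Option (Fin (n + 1))) K).comp
            (rename some) = (rename some : MvPolynomial (Fin (n + 1)) K →ₐ[K] _) := by
        apply MvPolynomial.algHom_ext
        intro i
        rw [AlgHom.comp_apply, rename_X, aeval_X]
        simp [subW, Matrix.one_apply]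
      have h4 : ∀ G : MvPolynomial (Fin (n + 1)) K,
          aeval (subW (1 : Matrix (Fin (n + 1)) (Fin (n + 1)) K) 2⁻¹
            (-(C 2⁻¹ * map (algebraMap O K) A))) (rename some G) = rename some G := fun G =>
        congrArg (fun g => g G) h3
      unfold dblW cycW
      rw [map_add, map_add, map_mul, map_pow, aeval_X, h4, h4]
      have h5 : subW (1 : Matrix (Fin (n + 1)) (Fin (n + 1)) K) 2⁻¹
          (-(C 2⁻¹ * map (algebraMap O K) A)) none = C 2⁻¹ * X none -
            C 2⁻¹ * rename some (map (algebraMap O K) A) := by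
        simp [subW, sub_eq_add_neg]
      rw [h5]
      have h6 : map (algebraMap O K) (-(A ^ 2 - 4 * B)) =
          4 * map (algebraMap O K) B - map (algebraMap O K) A ^ 2 := by
        rw [map_neg, map_sub, map_pow, map_mul, map_ofNat]
        ring
      rw [h6, map_sub, map_mul, map_pow, map_ofNat]
      have h7 : (C (4 : K) : MvPolynomial (Option (Fin (n + 1))) K) = 4 := by
        exact map_ofNat C 4
      have h8 : (C (2⁻¹ : K) : MvPolynomial (Option (Fin (n + 1))) K) * 2 = 1 := by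
        have h9 : (2 : MvPolynomial (Option (Fin (n + 1))) K) = C (2 : K) := (map_ofNat C 2).symm
        rw [h9, ← C_mul, inv_mul_cancel₀ h20, C_1]
      rw [h7]
      linear_combination (-(X none ^ 2) * (C (2⁻¹ : K) * 2 + 1) +
        2 * X none * rename some (map (algebraMap O K) A) * (C (2⁻¹ : K) * 2 + 1) -
        rename some (map (algebraMap O K) A) ^ 2 * (C (2⁻¹ : K) * 2 + 1) -
        2 * X none * rename some (map (algebraMap O K) A) +
        2 * rename some (map (algebraMap O K) A) ^ 2) * h8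
    · rw [coeff_cycW 2 (by norm_num)]
      exact (Ideal.ne_top_iff_one 𝔭).1 hp.ne_top

end Pool.Agent.R187.WC
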