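import Pool.Agent.R187.WC.Twr

/-! Towers over weighted hypersurfaces. -/

set_option autoImplicit false
set_option linter.unusedSectionVars false
set_option linter.unusedVariables false

namespace Pool.Agent.R187.WC

open Pool.Agent.H918R2.Quad MvPolynomial Pool.Agent.TH214.RM

/-- One more variable. -/
noncomputable def upW {O : Type} [CommRing O] (d : ℕ) {m : ℕ}
    (P : MvPolynomial (Option (Fin (m + 1))) O) : MvPolynomial (Option (Fin (m + 2))) O :=
  X (some 0) ^ (d - 1) * X (some 1) + rename (Option.map Fin.succ) P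

theorem sinj (m : ℕ) : Function.Injective (Option.map (Fin.succ : Fin m → Fin (m + 1))) :=
  Option.map_injective (Fin.succ_injective m)

theorem dehW_X {O ι : Type} [CommRing O] [DecidableEq ι] (s : ι) (j : Option ι) :
    dehW s (X j : MvPolynomial (Option ι) O) = tauW s j := aeval_X _ _

theorem dehW_add {O ι : Type} [CommRing O] [DecidableEq ι] (s : ι)
    (P Q : MvPolynomial (Option ι) O) : dehW s (P + Q) = dehW s P + dehW s Q := map_add _ _ _

theorem dehW_mul {O ι : Type} [CommRing O] [DecidableEq ι] (s : ι)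
    (P Q : MvPolynomial (Option ι) O) : dehW s (P * Q) = dehW s P * dehW s Q := map_mul _ _ _

theorem dehW_pow {O ι : Type} [CommRing O] [DecidableEq ι] (s : ι)
    (P : MvPolynomial (Option ι) O) (k : ℕ) : dehW s (P ^ k) = dehW s P ^ k := map_pow _ _ _

theorem dehW_C {O ι : Type} [CommRing O] [DecidableEq ι] (s : ι) (a : O) :
    dehW s (C a : MvPolynomial (Option ι) O) = C a := by
  unfold dehW
  rw [aeval_C]
  rfl

theorem dehW_natCast {O ι : Type} [CommRing O] [DecidableEq ι] (s : ι) (k : ℕ) :
    dehW s (k : MvPolynomial (Option ι) O) = k := map_natCast _ _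

theorem tauW_ne {O ι : Type} [CommRing O] [DecidableEq ι] (s j : ι) (h : j ≠ s) :
    (tauW s (some j) : MvPolynomial (Option {i : ι // i ≠ s}) O) = X (some ⟨j, h⟩) := by
  simp [tauW, h]

theorem tauW_none {O ι : Type} [CommRing O] [DecidableEq ι] (s : ι) :
    (tauW s none : MvPolynomial (Option {i : ι // i ≠ s}) O) = X none := rfl

theorem pderiv_map_succ {O : Type} [CommRing O] {m : ℕ} (j : Option (Fin m))
    (P : MvPolynomial (Option (Fin m)) O) :
    pderiv (j.map Fin.succ) (rename (Option.map Fin.succ) P) =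
      rename (Option.map Fin.succ) (pderiv j P) :=
  pderiv_rename (sinj m) j P

theorem pderiv_zero_map_succ {O : Type} [CommRing O] {m : ℕ}
    (P : MvPolynomial (Option (Fin m)) O) :
    pderiv (some 0) (rename (Option.map Fin.succ) P) = 0 := by
  apply pderiv_eq_zero_of_notMem_vars
  intro h
  obtain ⟨i, _, hi⟩ := mem_vars_rename _ _ h
  rcases i with _ | i
  · simp at hi
  · exact Fin.succ_ne_zero i (Option.some.inj hi)

theorem pderiv_zero_upW {O : Type} [CommRing O] (d : ℕ) {m : ℕ}
    (P : MvPolynomial (Option (Fin (m + 1))) O) :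
    pderiv (some 0) (upW d P) = ((d - 1 : ℕ) : MvPolynomial (Option (Fin (m + 2))) O) *
      X (some 0) ^ (d - 2) * X (some 1) := by
  unfold upW
  rw [map_add, pderiv_zero_map_succ, add_zero, Derivation.leibniz, Derivation.leibniz_pow,
    pderiv_X_self, pderiv_X_of_ne (by simp : (some 1 : Option (Fin (m + 2))) ≠ some 0)]
  simp only [smul_eq_mul, mul_zero, nsmul_eq_mul, mul_one, zero_add]
  rw [Nat.sub_sub]
  ring

theorem pderiv_one_upW {O : Type} [CommRing O] (d : ℕ) {m : ℕ}
    (P : MvPolynomial (Option (Fin (m + 1))) O) :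
    pderiv (some 1) (upW d P) = X (some 0) ^ (d - 1) +
      rename (Option.map Fin.succ) (pderiv (some 0) P) := by
  unfold upW
  have h1 : (some 1 : Option (Fin (m + 2))) = (some 0 : Option (Fin (m + 1))).map Fin.succ := rfl
  rw [map_add]
  congr 1
  · rw [Derivation.leibniz, Derivation.leibniz_pow, pderiv_X_self,
      pderiv_X_of_ne (by simp : (some 0 : Option (Fin (m + 2))) ≠ some 1)]
    simp
  · rw [h1, pderiv_map_succ]

theorem pderiv_succ_upW {O : Type} [CommRing O] (d : ℕ) {m : ℕ}
    (P : MvPolynomial (Option (Fin (m + 1))) O) (j : Option (Fin (m + 1))) (hj : j ≠ some 0) :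
    pderiv (j.map Fin.succ) (upW d P) = rename (Option.map Fin.succ) (pderiv j P) := by
  unfold upW
  have h1 : (some 1 : Option (Fin (m + 2))) ≠ j.map Fin.succ := by
    intro h
    apply hj
    have h2 : (some 0 : Option (Fin (m + 1))).map Fin.succ = j.map Fin.succ := h
    exact (sinj _ h2).symm
  have h0 : (some 0 : Option (Fin (m + 2))) ≠ j.map Fin.succ := by
    rcases j with _ | j
    · simp
    · intro h
      exact Fin.succ_ne_zero j (Option.some.inj h).symm
  rw [map_add, pderiv_map_succ, Derivation.leibniz, Derivation.leibniz_pow, pderiv_X_of_ne h1,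
    pderiv_X_of_ne h0]
  simp

theorem whom_upW {O : Type} [CommRing O] (e d : ℕ) (hd : 1 ≤ d) {m : ℕ}
    (P : MvPolynomial (Option (Fin (m + 1))) O) (hP : P.IsWeightedHomogeneous (wt e) d) :
    (upW d P).IsWeightedHomogeneous (wt e) d := by
  classical
  unfold upW
  refine IsWeightedHomogeneous.add ?_ ?_
  · have h1 := ((isWeightedHomogeneous_X O (wt (ι := Fin (m + 2)) e) (some 0)).pow (d - 1)).mul
      (isWeightedHomogeneous_X O (wt (ι := Fin (m + 2)) e) (some 1))
    rw [wt_some, wt_some, smul_eq_mul, mul_one] at h1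
    have h2 : d - 1 + 1 = d := by omega
    rwa [h2] at h1
  · intro s hs
    obtain ⟨t, rfl, ht⟩ := coeff_rename_ne_zero _ _ _ hs
    have h1 := hP ht
    rw [← h1, weight_eq, weight_eq]
    have h2 : ∀ j, (Finsupp.mapDomain (Option.map Fin.succ) t) (j.map Fin.succ) = t j := fun j =>
      Finsupp.mapDomain_apply (sinj _) t j
    have h3 := h2 none
    rw [Option.map_none] at h3
    rw [h3]
    congr 1
    rw [Fin.sum_univ_succ]
    have h4 : (Finsupp.mapDomain (Option.map Fin.succ) t) (some (0 : Fin (m + 2))) = 0 := by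
      apply Finsupp.mapDomain_of_notMem_range
      rintro ⟨j, hj⟩
      rcases j with _ | j
      · simp at hj
      · exact Fin.succ_ne_zero j (Option.some.inj hj)
    rw [h4, zero_add]
    exact Finset.sum_congr rfl fun j _ => h2 (some j)

section retract

variable {O : Type} [CommRing O] {m : ℕ} (s' : Fin (m + 1))

/-- The inclusion of the charts. -/
noncomputable def iotW : MvPolynomial (Option {j // j ≠ s'}) O →ₐ[O]
    MvPolynomial (Option {j // j ≠ s'.succ}) O :=
  rename (Option.map (fun j => ⟨j.1.succ, fun h => j.2 (Fin.succ_injective _ h)⟩))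

theorem iotW_tauW (i : Option (Fin (m + 1))) :
    iotW s' (tauW s' i) = (tauW s'.succ (i.map Fin.succ) :
      MvPolynomial (Option {j // j ≠ s'.succ}) O) := by
  rcases i with _ | i
  · change rename _ (X none) = X none
    rw [rename_X]
    rfl
  · by_cases hi : i = s'
    · subst hi
      rw [tauW_self, Option.map_some, tauW_self, map_one]
    · rw [tauW_ne s' i hi, Option.map_some,
        tauW_ne s'.succ i.succ (fun h => hi (Fin.succ_injective _ h))]
      change rename _ (X _) = _
      rw [rename_X]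
      rfl

theorem iotW_dehW (P : MvPolynomial (Option (Fin (m + 1))) O) :
    iotW s' (dehW s' P) = dehW s'.succ (rename (Option.map Fin.succ) P) := by
  have h1 : (iotW s').comp (aeval (tauW s')) = (aeval (tauW s'.succ)).comp
      (rename (Option.map Fin.succ) : MvPolynomial (Option (Fin (m + 1))) O →ₐ[O] _) := by
    apply MvPolynomial.algHom_ext
    intro i
    rw [AlgHom.comp_apply, AlgHom.comp_apply, aeval_X, rename_X, aeval_X]
    exact iotW_tauW s' i
  exact congrArg (fun g => g P) h1

end retract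

/-- Where the first coordinate vanishes. -/
theorem crit_retractW {O : Type} [CommRing O] (𝔭 : Ideal O) (d : ℕ) (hd : 3 ≤ d) {m : ℕ}
    (F : MvPolynomial (Option (Fin (m + 1))) O) (h : CritW 𝔭 F) (s : Fin (m + 2))
    (Q : Ideal (MvPolynomial (Option {j // j ≠ s}) O)) (hQ : Q.IsPrime)
    (hCQ : ∀ r : O, C r ∈ Q ↔ r ∈ 𝔭) (hGQ : dehW s (upW d F) ∈ Q)
    (hall : ∀ j, dehW s (pderiv j (upW d F)) ∈ Q)
    (ha0 : (tauW s (some 0) : MvPolynomial (Option {i // i ≠ s}) O) ∈ Q)
    (f : MvPolynomial (Option {i // i ≠ s}) O) (hf : f ∉ Q) : f * dehW s (upW d F) ∉ Q ^ 2 := by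
  intro hfG
  have hs0 : s ≠ 0 := by
    rintro rfl
    rw [tauW_self] at ha0
    exact hQ.ne_top ((Ideal.eq_top_iff_one _).2 ha0)
  obtain ⟨s', rfl⟩ := Fin.exists_succ_eq.2 hs0
  let ι : MvPolynomial (Option {j // j ≠ s'}) O →ₐ[O] MvPolynomial (Option {j // j ≠ s'.succ}) O :=
    iotW s'
  let σ : MvPolynomial (Option {j // j ≠ s'.succ}) O →ₐ[O] MvPolynomial (Option {j // j ≠ s'}) O :=
    aeval (fun o => o.elim (X none) (fun j =>
      Fin.cases (motive := fun _ => MvPolynomial (Option {j // j ≠ s'}) O) 0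
      (fun i => tauW s' (some i)) j.1))
  have hιdeh : ∀ P, ι (dehW s' P) = dehW s'.succ (rename (Option.map Fin.succ) P) := iotW_dehW s'
  have hσtau : ∀ i : Option (Fin (m + 1)), σ (tauW s'.succ (i.map Fin.succ)) = tauW s' i := by
    intro i
    rcases i with _ | i
    · change aeval _ (X none) = X none
      rw [aeval_X]
      rfl
    · by_cases hi : i = s'
      · subst hi
        rw [Option.map_some, tauW_self, tauW_self, map_one]
      · rw [Option.map_some, tauW_ne s'.succ i.succ (fun h => hi (Fin.succ_injective _ h))]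
        change aeval _ (X _) = _
        rw [aeval_X]
        rfl
  have hσdeh : ∀ P, σ (dehW s'.succ (rename (Option.map Fin.succ) P)) = dehW s' P := by
    intro P
    have h1 : (σ.comp (aeval (tauW s'.succ))).comp
        (rename (Option.map Fin.succ) : MvPolynomial (Option (Fin (m + 1))) O →ₐ[O] _) =
        aeval (tauW s') := by
      apply MvPolynomial.algHom_ext
      intro i
      rw [AlgHom.comp_apply, AlgHom.comp_apply, rename_X, aeval_X, aeval_X]
      exact hσtau i
    exact congrArg (fun g => g P) h1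
  have hσ0 : σ (tauW s'.succ (some 0)) = 0 := by
    rw [tauW_ne s'.succ 0 (Fin.succ_ne_zero s').symm]
    change aeval _ (X _) = _
    rw [aeval_X]
    rfl
  have hισ : ∀ f, f - ι (σ f) ∈ Q := by
    intro f
    have h1 : ((Ideal.Quotient.mkₐ O Q).comp (ι.comp σ)) = Ideal.Quotient.mkₐ O Q := by
      apply MvPolynomial.algHom_ext
      intro o
      rw [AlgHom.comp_apply, AlgHom.comp_apply]
      rcases o with _ | ⟨j, hj⟩
      · have h2 : (X none : MvPolynomial (Option {j // j ≠ s'.succ}) O) =
            tauW s'.succ ((none : Option (Fin (m + 1))).map Fin.succ) := rfl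
        rw [h2, hσtau, ← dehW_X, hιdeh, rename_X, dehW_X]
      · have h2 : (X (some ⟨j, hj⟩) : MvPolynomial (Option {j // j ≠ s'.succ}) O) =
            tauW s'.succ (some j) := (tauW_ne s'.succ j hj).symm
        rw [h2]
        refine Fin.cases ?_ (fun i => ?_) j
        · rw [hσ0, map_zero, map_zero]
          exact (Ideal.Quotient.eq_zero_iff_mem.2 ha0).symm
        · have h3 : (some i.succ : Option (Fin (m + 2))) = (some i).map Fin.succ := rfl
          rw [h3, hσtau, ← dehW_X, hιdeh, rename_X, dehW_X]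
    have h2 := congrArg (fun g => g f) h1
    simp only [AlgHom.comp_apply] at h2
    exact Ideal.Quotient.eq.1 h2.symm
  let Q' : Ideal (MvPolynomial (Option {j // j ≠ s'}) O) := Q.comap ι.toRingHom
  have hQ' : Q'.IsPrime := Ideal.comap_isPrime _ _
  have hmem' : ∀ P, P ∈ Q' ↔ ι P ∈ Q := fun P => Iff.rfl
  have hσQ : ∀ f, f ∈ Q ↔ σ f ∈ Q' := by
    intro f
    rw [hmem']
    constructor
    · intro hfQ
      have h1 := Q.sub_mem hfQ (hισ f)
      rwa [sub_sub_cancel] at h1
    · intro hfQ
      have h1 := Q.add_mem (hισ f) hfQ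
      rwa [sub_add_cancel] at h1
  have hσQ2 : ∀ f ∈ Q ^ 2, σ f ∈ Q' ^ 2 := by
    intro f hf
    have h1 : (Q ^ 2).map σ.toRingHom ≤ Q' ^ 2 := by
      rw [Ideal.map_pow]
      refine Ideal.pow_right_mono ?_ 2
      rw [Ideal.map_le_iff_le_comap]
      intro g hg
      exact (hσQ g).1 hg
    exact h1 (Ideal.mem_map_of_mem _ hf)
  have hσG : σ (dehW s'.succ (upW d F)) = dehW s' F := by
    have h1 : dehW s'.succ (upW d F) = tauW s'.succ (some 0) ^ (d - 1) * tauW s'.succ (some 1) +
        dehW s'.succ (rename (Option.map Fin.succ) F) := by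
      unfold upW
      rw [dehW_add, dehW_mul, dehW_pow, dehW_X, dehW_X]
    rw [h1, map_add, map_mul, map_pow, hσ0, zero_pow (by omega), zero_mul, zero_add, hσdeh]
  have hC' : ∀ r : O, C r ∈ Q' ↔ r ∈ 𝔭 := by
    intro r
    rw [hmem']
    change rename _ (C r) ∈ Q ↔ _
    rw [rename_C]
    exact hCQ r
  have hF' : dehW s' F ∈ Q' := by
    rw [← hσG]
    exact (hσQ _).1 hGQ
  rcases h s' Q' hQ' hC' hF' with ⟨j, hj⟩ | h2
  · apply hj
    rw [pderiv_dehW, hmem', hιdeh]
    by_cases hj0 : j.map Subtype.val = (some 0 : Option (Fin (m + 1)))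
    · rw [hj0]
      have h3 := hall (some 1)
      rw [pderiv_one_upW, dehW_add, dehW_pow, dehW_X] at h3
      have h4 : tauW s'.succ (some 0) ^ (d - 1) ∈ Q := Ideal.pow_mem_of_mem _ ha0 _ (by omega)
      have h5 := Q.sub_mem h3 h4
      rwa [add_sub_cancel_left] at h5
    · rw [← pderiv_succ_upW d F _ hj0]
      exact hall _
  · refine h2 (σ f) (fun h3 => hf ((hσQ f).2 h3)) ?_
    rw [← hσG, ← map_mul]
    exact hσQ2 _ hfG

/-- The tower: if `upW d F₀` is regular, so is `upW d (upW d F₀)`. -/
theorem crit_upW {O : Type} [CommRing O] (𝔭 : Ideal O) (e d : ℕ) (hd : 3 ≤ d) {m : ℕ}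
    (F₀ : MvPolynomial (Option (Fin (m + 1))) O) (hF₀ : F₀.IsWeightedHomogeneous (wt e) d)
    (h : CritW 𝔭 (upW d F₀)) : CritW 𝔭 (upW d (upW d F₀)) := by
  intro s Q hQ hCQ hGQ
  by_contra hcon
  push Not at hcon
  obtain ⟨hpd, f, hf, hfG⟩ := hcon
  have hGh := whom_upW e d (by omega) _ (whom_upW e d (by omega) F₀ hF₀)
  have hall := all_pderiv_memW e _ d hGh s Q hGQ hpd
  have ha0 : (tauW s (some 0) : MvPolynomial (Option {i // i ≠ s}) O) ∈ Q := by
    have h0 := hall (some 0)
    have h1 := hall (some 1)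
    rw [pderiv_zero_upW, dehW_mul, dehW_mul, dehW_pow, dehW_natCast, dehW_X, dehW_X] at h0
    rw [pderiv_one_upW, pderiv_zero_upW, map_mul, map_mul, map_pow, map_natCast, rename_X,
      rename_X, dehW_add, dehW_mul, dehW_mul, dehW_pow, dehW_pow, dehW_natCast, dehW_X, dehW_X,
      dehW_X] at h1
    exact zero_mem Q d hd _ _ _ h0 h1
  exact crit_retractW 𝔭 d hd _ h s Q hQ hCQ hGQ hall ha0 f hf hfG

/-- The tower over a field: if `upW d F₀` is smooth, so is `upW d (upW d F₀)`. -/
theorem smooth_upW {K : Type} [Field K] (d : ℕ) (hd : 3 ≤ d) {m : ℕ}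
    (F₀ : MvPolynomial (Option (Fin (m + 1))) K) (h : SmoothW (upW d F₀)) :
    SmoothW (upW d (upW d F₀)) := by
  have key : ∀ P : Ideal (MvPolynomial (Option (Fin (m + 3))) K), P.IsPrime →
      (∀ j, pderiv j (upW d (upW d F₀)) ∈ P) → ∀ i, X (some i) ∈ P := by
    intro P hP hall
    have ha0 : (X (some 0) : MvPolynomial (Option (Fin (m + 3))) K) ∈ P := by
      have h0 := hall (some 0)
      have h1 := hall (some 1)
      rw [pderiv_zero_upW] at h0
      rw [pderiv_one_upW, pderiv_zero_upW, map_mul, map_mul, map_pow, map_natCast, rename_X,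
        rename_X] at h1
      exact zero_mem P d hd _ _ _ h0 h1
    let P' : Ideal (MvPolynomial (Option (Fin (m + 2))) K) :=
      P.comap (rename (Option.map Fin.succ) :
      MvPolynomial (Option (Fin (m + 2))) K →ₐ[K] MvPolynomial (Option (Fin (m + 3))) K).toRingHom
    have hP' : P'.IsPrime := Ideal.comap_isPrime _ _
    have hmem' : ∀ f, f ∈ P' ↔ rename (Option.map Fin.succ) f ∈ P := fun f => Iff.rfl
    have h1 : Ideal.span (Set.range fun j => pderiv j (upW d F₀)) ≤ P' := by
      rw [Ideal.span_le]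
      rintro _ ⟨j, rfl⟩
      change rename (Option.map Fin.succ) (pderiv j (upW d F₀)) ∈ P
      by_cases hj0 : j = some 0
      · rw [hj0]
        have h3 := hall (some 1)
        rw [pderiv_one_upW] at h3
        have h4 : (X (some 0) : MvPolynomial (Option (Fin (m + 3))) K) ^ (d - 1) ∈ P :=
          Ideal.pow_mem_of_mem _ ha0 _ (by omega)
        have h5 := P.sub_mem h3 h4
        rwa [add_sub_cancel_left] at h5
      · rw [← pderiv_succ_upW d _ j hj0]
        exact hall _
    intro i
    refine Fin.cases ha0 (fun i => ?_) i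
    have h2 := (Ideal.IsPrime.radical_le_iff hP').2 h1 (h i)
    rw [hmem', rename_X] at h2
    exact h2
  intro i
  rw [Ideal.radical_eq_sInf, Submodule.mem_sInf]
  rintro P ⟨hPle, hP⟩
  exact key P hP (fun j => hPle (Ideal.subset_span ⟨j, rfl⟩)) i

end Pool.Agent.R187.WC
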